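import Pool.Agent.H20.RS.ValEx

/-!
The valuation ring of `exists_val` has residue field `k`, if `k` is algebraically closed.
-/

namespace RS

open IntermediateField

section

variable {k K : Type*} [Field k] [Field K] [Algebra k K] {n : ℕ} {x : Fin n → K}

theorem ResVal.frac (m : MonomialOrder (Fin n)) (B : ValuationSubring K)
    (hB1 : ∀ c : k, c ≠ 0 → B.valuation (algebraMap k K c) = 1)
    (hB2 : ∀ a b : MvPolynomial (Fin n) k, a ≠ 0 → b ≠ 0 →
      B.valuation (MvPolynomial.aeval x a) = B.valuation (MvPolynomial.aeval x b) →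
        m.degree a = m.degree b) {z : K} (hz : z ∈ adjoin k (Set.range x))
    (hv : B.valuation z = 1) : ∃ c : k, c ≠ 0 ∧ B.valuation (z - algebraMap k K c) < 1 := by
  classical
  obtain ⟨a, b, rfl⟩ := (mem_adjoin_range_iff k x z).1 hz
  have hne : MvPolynomial.aeval x a / MvPolynomial.aeval x b ≠ 0 := by
    intro h
    rw [h, map_zero] at hv
    exact zero_ne_one hv
  have ha' : MvPolynomial.aeval x a ≠ 0 := fun h => hne (by rw [h, zero_div])
  have hb' : MvPolynomial.aeval x b ≠ 0 := fun h => hne (by rw [h, div_zero])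
  have ha : a ≠ 0 := by
    rintro rfl
    exact ha' (map_zero _)
  have hb : b ≠ 0 := by
    rintro rfl
    exact hb' (map_zero _)
  have hvb : B.valuation (MvPolynomial.aeval x b) ≠ 0 := (Valuation.ne_zero_iff _).2 hb'
  have hvab : B.valuation (MvPolynomial.aeval x a) = B.valuation (MvPolynomial.aeval x b) := by
    rw [map_div₀, div_eq_one_iff_eq hvb] at hv
    exact hv
  have hdeg := hB2 a b ha hb hvab
  have hla : m.leadingCoeff a ≠ 0 := m.leadingCoeff_ne_zero_iff.2 ha
  have hlb : m.leadingCoeff b ≠ 0 := m.leadingCoeff_ne_zero_iff.2 hb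
  set c : k := m.leadingCoeff a / m.leadingCoeff b with hc
  have hc0 : c ≠ 0 := div_ne_zero hla hlb
  refine ⟨c, hc0, ?_⟩
  set g : MvPolynomial (Fin n) k := a - MvPolynomial.C c * b with hg
  have hgval : MvPolynomial.aeval x g =
      MvPolynomial.aeval x a - algebraMap k K c * MvPolynomial.aeval x b := by
    rw [hg, map_sub, map_mul, MvPolynomial.aeval_C]
  have hsub : MvPolynomial.aeval x a / MvPolynomial.aeval x b - algebraMap k K c =
      MvPolynomial.aeval x g / MvPolynomial.aeval x b := by
    rw [hgval]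
    field_simp
  rw [hsub, map_div₀]
  have hlt : B.valuation (MvPolynomial.aeval x g) < B.valuation (MvPolynomial.aeval x b) := by
    by_cases hg0 : g = 0
    · rw [hg0, map_zero, map_zero]
      exact zero_lt_iff.2 hvb
    · refine lt_of_le_of_ne ?_ fun h => ?_
      · rw [hgval]
        refine (B.valuation.map_sub _ _).trans (max_le hvab.le ?_)
        rw [map_mul, hB1 c hc0, one_mul]
      · have h1 := hB2 g b hg0 hb h
        have h2 : g.coeff (m.degree g) ≠ 0 := m.coeff_degree_ne_zero_iff.2 hg0
        apply h2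
        rw [h1, hg, MvPolynomial.coeff_sub, MvPolynomial.coeff_C_mul]
        have h3 : a.coeff (m.degree b) = m.leadingCoeff a := by
          rw [← hdeg]; rfl
        have h4 : b.coeff (m.degree b) = m.leadingCoeff b := rfl
        rw [h3, h4, hc]
        field_simp
        ring
  exact (div_lt_one₀ (zero_lt_iff.2 hvb)).2 hlt

theorem ResVal.root [IsAlgClosed k] (B : ValuationSubring K)
    (hB1 : ∀ c : k, c ≠ 0 → B.valuation (algebraMap k K c) = 1) (z : K) :
    ∀ (d : ℕ) (q : Polynomial k), q.natDegree = d → q ≠ 0 → B.valuation (Polynomial.aeval z q) < 1 →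
      ∃ r : k, B.valuation (z - algebraMap k K r) < 1 := by
  intro d
  induction d with
  | zero =>
    intro q hq hq0 hlt
    rw [Polynomial.eq_C_of_natDegree_eq_zero hq, Polynomial.aeval_C] at hlt
    have hc : q.coeff 0 ≠ 0 := by
      intro h
      apply hq0
      rw [Polynomial.eq_C_of_natDegree_eq_zero hq, h, Polynomial.C_0]
    rw [hB1 _ hc] at hlt
    exact absurd hlt (lt_irrefl _)
  | succ d ih =>
    intro q hq hq0 hlt
    have hdeg : q.degree ≠ 0 := by
      rw [Polynomial.degree_eq_natDegree hq0, hq]
      exact_mod_cast Nat.succ_ne_zero d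
    obtain ⟨r, hr⟩ := IsAlgClosed.exists_root q hdeg
    obtain ⟨q', hq'⟩ := Polynomial.dvd_iff_isRoot.2 hr
    by_cases hr1 : B.valuation (z - algebraMap k K r) < 1
    · exact ⟨r, hr1⟩
    · have hq'0 : q' ≠ 0 := by
        rintro rfl
        rw [mul_zero] at hq'
        exact hq0 hq'
      have hd' : q'.natDegree = d := by
        have h1 := congrArg Polynomial.natDegree hq'
        rw [Polynomial.natDegree_mul (Polynomial.X_sub_C_ne_zero r) hq'0,
          Polynomial.natDegree_X_sub_C, hq] at h1
        omega
      refine ih q' hd' hq'0 ?_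
      rw [hq', map_mul, map_sub, Polynomial.aeval_X, Polynomial.aeval_C, map_mul] at hlt
      refine lt_of_le_of_lt ?_ hlt
      have h2 : (1 : B.ValueGroup) ≤ B.valuation (z - algebraMap k K r) := not_lt.1 hr1
      calc B.valuation (Polynomial.aeval z q') = 1 * B.valuation (Polynomial.aeval z q') :=
            (one_mul _).symm
        _ ≤ _ := by gcongr

end

theorem exists_val_res {k K : Type*} [Field k] [Field K] [Algebra k K] [IsAlgClosed k] {n : ℕ}
    {x : Fin n → K} (hx : IsTranscendenceBasis k x) : ∃ B : ValuationSubring K,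
      (∀ c : k, c ≠ 0 → B.valuation (algebraMap k K c) = 1) ∧
      (∀ a b : MvPolynomial (Fin n) k, a ≠ 0 → b ≠ 0 →
        B.valuation (MvPolynomial.aeval x a) = B.valuation (MvPolynomial.aeval x b) →
          (MonomialOrder.lex : MonomialOrder (Fin n)).degree a =
            (MonomialOrder.lex : MonomialOrder (Fin n)).degree b) ∧
      ∀ z : K, B.valuation z = 1 →
        ∃ c : k, c ≠ 0 ∧ B.valuation (z - algebraMap k K c) < 1 := by
  classical
  obtain ⟨B, hB1, hB2⟩ := exists_val hx.1
  refine ⟨B, hB1, hB2, fun z hz => ?_⟩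
  have halg : Algebra.IsAlgebraic (adjoin k (Set.range x)) K := hx.isAlgebraic_field
  obtain ⟨p, hp0, hp⟩ := halg.isAlgebraic z
  -- the coefficient of maximal value
  obtain ⟨i, hi, hmax⟩ := Finset.exists_max_image p.support
    (fun j => B.valuation ((p.coeff j : adjoin k (Set.range x)) : K))
    (Polynomial.support_nonempty.2 hp0)
  set A : K := ((p.coeff i : adjoin k (Set.range x)) : K) with hA
  have hA0 : A ≠ 0 := by
    have h1 := Polynomial.mem_support_iff.1 hi
    intro h
    exact h1 (Subtype.ext h)
  have hvA : B.valuation A ≠ 0 := (Valuation.ne_zero_iff _).2 hA0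
  have hAF : A ∈ adjoin k (Set.range x) := (p.coeff i).2
  have hle : ∀ j ∈ p.support,
      B.valuation (((p.coeff j : adjoin k (Set.range x)) : K) / A) ≤ 1 := by
    intro j hj
    rw [map_div₀]
    exact (div_le_one₀ (zero_lt_iff.2 hvA)).2 (hmax j hj)
  have hch : ∀ j : ℕ, ∃ c : k, j ∈ p.support →
      B.valuation (((p.coeff j : adjoin k (Set.range x)) : K) / A - algebraMap k K c) < 1 := by
    intro j
    by_cases hj : j ∈ p.support
    · by_cases h1 : B.valuation (((p.coeff j : adjoin k (Set.range x)) : K) / A) = 1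
      · obtain ⟨c, -, hc⟩ := ResVal.frac (MonomialOrder.lex : MonomialOrder (Fin n)) B hB1 hB2
          ((adjoin k (Set.range x)).div_mem (p.coeff j).2 hAF) h1
        exact ⟨c, fun _ => hc⟩
      · refine ⟨0, fun _ => ?_⟩
        rw [map_zero, sub_zero]
        exact lt_of_le_of_ne (hle j hj) h1
    · exact ⟨0, fun h => absurd h hj⟩
  choose c hc using hch
  set q : Polynomial k := ∑ j ∈ p.support, Polynomial.monomial j (c j) with hq
  have hq0 : q ≠ 0 := by
    intro h
    have h1 : q.coeff i = c i := by
      rw [hq, Polynomial.finset_sum_coeff, Finset.sum_eq_single i]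
      · rw [Polynomial.coeff_monomial, if_pos rfl]
      · intro j _ hji
        rw [Polynomial.coeff_monomial, if_neg hji]
      · exact fun h => absurd hi h
    rw [h, Polynomial.coeff_zero] at h1
    have h2 := hc i hi
    rw [← h1, map_zero, sub_zero, ← hA, div_self hA0, map_one] at h2
    exact lt_irrefl _ h2
  have hsum : ∑ j ∈ p.support, ((p.coeff j : adjoin k (Set.range x)) : K) / A * z ^ j = 0 := by
    have h1 : ∑ j ∈ p.support, ((p.coeff j : adjoin k (Set.range x)) : K) * z ^ j = 0 := by
      rw [Polynomial.aeval_def, Polynomial.eval₂_eq_sum, Polynomial.sum_def] at hp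
      exact hp
    calc ∑ j ∈ p.support, ((p.coeff j : adjoin k (Set.range x)) : K) / A * z ^ j =
        (∑ j ∈ p.support, ((p.coeff j : adjoin k (Set.range x)) : K) * z ^ j) / A := by
          rw [Finset.sum_div]
          exact Finset.sum_congr rfl fun j _ => by ring
      _ = 0 := by rw [h1, zero_div]
  have hqz : Polynomial.aeval z q = - ∑ j ∈ p.support,
      (((p.coeff j : adjoin k (Set.range x)) : K) / A - algebraMap k K (c j)) * z ^ j := by
    have h1 : Polynomial.aeval z q = ∑ j ∈ p.support, algebraMap k K (c j) * z ^ j := by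
      rw [hq, map_sum]
      exact Finset.sum_congr rfl fun j _ => by rw [Polynomial.aeval_monomial]
    rw [h1, eq_neg_iff_add_eq_zero, ← Finset.sum_add_distrib, ← hsum]
    exact Finset.sum_congr rfl fun j _ => by ring
  have hlt : B.valuation (Polynomial.aeval z q) < 1 := by
    rw [hqz, Valuation.map_neg]
    refine Valuation.map_sum_lt _ one_ne_zero fun j hj => ?_
    rw [map_mul, map_pow, hz, one_pow, mul_one]
    exact hc j hj
  obtain ⟨r, hr⟩ := ResVal.root B hB1 z _ q rfl hq0 hlt
  refine ⟨r, ?_, hr⟩
  rintro rfl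
  rw [map_zero, sub_zero, hz] at hr
  exact lt_irrefl _ hr

end RS
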