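import Pool.Agent.H20.RS.Gen2

/-!
Every finite Galois extension of `k(T)`: assembly.
-/

set_option linter.style.haveILetI false

namespace RS

open Polynomial IntermediateField
open scoped commutatorElement

/-- the automorphisms over `k(x)` which multiply `W` by an `N`-th root of unity -/
def Gam (k : Type*) [Field k] {K : Type*} [Field K] [Algebra k K] {n : ℕ} (x : Fin n → K)
    (W : K) (N : ℕ) : Subgroup Gal(K/k) where
  carrier := {g | g ∈ (adjoin k (Set.range x)).fixingSubgroup ∧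
    ∃ χ : kˣ, χ ^ N = 1 ∧ g W = algebraMap k K χ * W}
  one_mem' := ⟨one_mem _, 1, one_pow N, by simp⟩
  mul_mem' := by
    rintro g g' ⟨h, χ, hχ, hg⟩ ⟨h', χ', hχ', hg'⟩
    refine ⟨mul_mem h h', χ * χ', by rw [mul_pow, hχ, hχ', one_mul], ?_⟩
    rw [AlgEquiv.mul_apply, hg', map_mul, AlgEquiv.commutes, hg, Units.val_mul, map_mul]
    ring
  inv_mem' := by
    rintro g ⟨h, χ, hχ, hg⟩
    refine ⟨inv_mem h, χ⁻¹, by rw [inv_pow, hχ, inv_one], ?_⟩
    apply PX.inv_apply_eq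
    rw [map_mul, AlgEquiv.commutes, hg, ← mul_assoc, ← map_mul, Units.inv_mul, map_one, one_mul]

variable {k K : Type*} [Field k] [Field K] [Algebra k K]
variable {m n : ℕ} {x : Fin n → K} {y w : Fin m → K} (hmn : m ≤ n) {ℓ N : ℕ}

theorem mem_Gam {W : K} {g : Gal(K/k)} : g ∈ Gam k x W N ↔
    g ∈ (adjoin k (Set.range x)).fixingSubgroup ∧
    ∃ χ : kˣ, χ ^ N = 1 ∧ g W = algebraMap k K χ * W := Iff.rfl

/-- the elements fixing `W` -/
def GA (k : Type*) [Field k] {K : Type*} [Field K] [Algebra k K] {n : ℕ} (x : Fin n → K)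
    (W : K) (N : ℕ) : Subgroup (Gam k x W N) where
  carrier := {g | g.1 W = W}
  one_mem' := rfl
  mul_mem' := by
    intro g g' h h'
    change g.1 (g'.1 W) = W
    rw [show g'.1 W = W from h', show g.1 W = W from h]
  inv_mem' := fun {g} h => PX.inv_apply_of_fix (g := g.1) h

theorem mem_GA {W : K} {g : Gam k x W N} : g ∈ GA k x W N ↔ g.1 W = W := Iff.rfl

theorem GA_conj {W : K} (g : Gam k x W N) {a : Gal(K/k)} (ha : a W = W) :
    g.1 (a (g.1⁻¹ W)) = W := by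
  obtain ⟨-, χ, -, hχ⟩ := mem_Gam.1 (inv_mem g.2)
  rw [hχ, map_mul, AlgEquiv.commutes, ha, ← hχ, PX.apply_inv]

instance GA_normal (W : K) : (GA k x W N).Normal := by
  constructor
  intro a ha g
  exact GA_conj g (mem_GA.1 ha)

section

variable {E : Type*} [Field E] [Algebra k E] [Algebra (RatFunc k) E]
  [IsScalarTower k (RatFunc k) E]

/-- the elements fixing `W` and all the images of `τ(E)` -/
def GC (x : Fin n → K) (W : K) (N : ℕ) (τ : E →ₐ[k] K) : Subgroup (Gam k x W N) where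
  carrier := {c | c.1 W = W ∧ ∀ (γ : Gam k x W N) (v : E), c.1 (γ.1 (τ v)) = γ.1 (τ v)}
  one_mem' := ⟨rfl, fun _ _ => rfl⟩
  mul_mem' := by
    rintro c c' ⟨h1, h2⟩ ⟨h1', h2'⟩
    refine ⟨?_, fun γ v => ?_⟩
    · change c.1 (c'.1 W) = W
      rw [h1', h1]
    · change c.1 (c'.1 (γ.1 (τ v))) = _
      rw [h2', h2]
  inv_mem' := by
    rintro c ⟨h1, h2⟩
    exact ⟨PX.inv_apply_of_fix (g := c.1) h1, fun γ v => PX.inv_apply_of_fix (g := c.1) (h2 γ v)⟩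

theorem mem_GC {W : K} {τ : E →ₐ[k] K} {c : Gam k x W N} : c ∈ GC x W N τ ↔
    c.1 W = W ∧ ∀ (γ : Gam k x W N) (v : E), c.1 (γ.1 (τ v)) = γ.1 (τ v) := Iff.rfl

instance GC_normal (W : K) (τ : E →ₐ[k] K) : (GC x W N τ).Normal := by
  constructor
  rintro c ⟨h1, h2⟩ g
  refine ⟨GA_conj g h1, fun γ v => ?_⟩
  change g.1 (c.1 (g.1⁻¹ (γ.1 (τ v)))) = γ.1 (τ v)
  have h3 : c.1 (g.1⁻¹ (γ.1 (τ v))) = g.1⁻¹ (γ.1 (τ v)) := h2 (g⁻¹ * γ) v
  rw [h3, PX.apply_inv]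

theorem pow_apply_tau {τ : E →ₐ[k] K} {b : Gal(K/k)} {σ : Gal(E/RatFunc k)}
    (h : ∀ v, τ (σ v) = b (τ v)) (i : ℕ) (v : E) : (b ^ i) (τ v) = τ ((σ ^ i) v) := by
  induction i generalizing v with
  | zero => rfl
  | succ i ih => rw [pow_succ, pow_succ, AlgEquiv.mul_apply, AlgEquiv.mul_apply, ← h, ih]

variable [FiniteDimensional (RatFunc k) E] [IsGalois (RatFunc k) E]

include hmn in
/-- every element of the Galois group is induced by automorphisms over finitely many `[u]` -/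
theorem exists_act [IsAlgClosed k] [IsAlgClosed K] (hx : IsTranscendenceBasis k x) (p : ℕ)
    [ExpChar k p] (hℓ : 2 ≤ ℓ) (hℓp : Nat.Coprime ℓ p) (hN : N.Prime) (hNp : Nat.Coprime N p)
    (hy : ∀ j, y j ^ ℓ = x (Fin.castLE hmn j)) (hw : ∀ j, w j ^ N = 1 + y j)
    (hcℓ : Nat.Coprime (Nat.card Gal(E/RatFunc k)) ℓ)
    (hcN : Nat.Coprime (Nat.card Gal(E/RatFunc k)) N)
    {j₀ j₁ : Fin m} (hj : j₀ ≠ j₁) {r : ℕ} (hr : r < m) (τ : E →ₐ[k] K)
    (hτ : τ (algebraMap (RatFunc k) E RatFunc.X) = x (Fin.castLE hmn j₀) + ∏ j, w j)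
    (S : Finset {t : Fin r → K // ∀ i, t i ∈ ALG.M k x r (0 + 1)}) (σ : Gal(E/RatFunc k)) :
    ∃ d ∈ (adjoin k (Set.range x)).fixingSubgroup,
      (∀ t ∈ S, d ∈ (ALG.bracket (k := k) t.1).fixingSubgroup) ∧ ∀ v, τ (σ v) = d (τ v) := by
  classical
  set F := adjoin k (Set.range x) with hF
  set W := ∏ j, w j with hW
  have hW0 : W ≠ 0 := Finset.prod_ne_zero_iff.2 (fun j _ => w_ne_zero hmn hx hN.one_le hy hw j)
  have hfixT : ∀ b : Gal(K/k), b ∈ F.fixingSubgroup → b W = W →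
      ∃ ρ : Gal(E/RatFunc k), ∀ v, τ (ρ v) = b (τ v) := by
    intro b hbF hbW
    apply exists_sigma_of_mem τ (P := x (Fin.castLE hmn j₀) + W)
    · rw [hτ]; exact mem_adjoin_simple_self k _
    · rw [ALG.mem_fs_adjoin]
      intro z hz
      rw [Set.mem_singleton_iff] at hz
      rw [hz, map_add, hbW, ALG.mem_fs.1 hbF _ (subset_adjoin k _ ⟨_, rfl⟩)]
  -- the hypotheses of the group theoretic lemma
  have hA : ∀ a ∈ GA k x W N, a ^ (Nat.card Gal(E/RatFunc k)) ∈ GC x W N τ := by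
    intro a ha
    refine ⟨mem_GA.1 (pow_mem ha _), fun γ v => ?_⟩
    have hb : γ⁻¹ * a * γ ∈ GA k x W N := by
      have h1 := (GA_normal (k := k) (x := x) (N := N) W).conj_mem a ha γ⁻¹
      rwa [inv_inv] at h1
    obtain ⟨ρ, hρ⟩ := hfixT (γ⁻¹ * a * γ).1 (mem_Gam.1 (γ⁻¹ * a * γ).2).1 (mem_GA.1 hb)
    have h1 := pow_apply_tau hρ (Nat.card Gal(E/RatFunc k)) v
    rw [pow_card_eq_one', AlgEquiv.one_apply] at h1
    have h2 : (γ⁻¹ * a * γ) ^ (Nat.card Gal(E/RatFunc k)) =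
        γ⁻¹ * a ^ (Nat.card Gal(E/RatFunc k)) * γ := by
      have h3 := conj_pow (i := Nat.card Gal(E/RatFunc k)) (a := γ⁻¹) (b := a)
      rwa [inv_inv] at h3
    have h4 : (γ⁻¹ * a ^ (Nat.card Gal(E/RatFunc k)) * γ).1 (τ v) = τ v := by
      rw [← h2, ← h1]
      rw [h1]
      exact h1
    have h5 : γ.1⁻¹ ((a ^ (Nat.card Gal(E/RatFunc k))).1 (γ.1 (τ v))) = τ v := h4
    have h6 := congrArg γ.1 h5
    rwa [PX.apply_inv] at h6
  have hval : ∀ {χ : k}, χ ≠ 0 → ∀ {z : K}, z = algebraMap k K χ * W → z = W → χ = 1 := by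
    intro χ _ z hz hz'
    apply (algebraMap k K).injective
    rw [map_one]
    apply mul_right_cancel₀ hW0
    rw [← hz, hz', one_mul]
  have hpowW : ∀ (g : Gam k x W N) (χ : k), g.1 W = algebraMap k K χ * W → ∀ i : ℕ,
      (g ^ i).1 W = algebraMap k K (χ ^ i) * W := by
    intro g χ hg i
    induction i with
    | zero => simp
    | succ i ih =>
      rw [pow_succ', pow_succ']
      change g.1 ((g ^ i).1 W) = _
      rw [ih, map_mul, AlgEquiv.commutes, hg, map_mul]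
      ring
  have hΓN : ∀ γ : Gam k x W N, γ ^ N ∈ GA k x W N := by
    intro γ
    obtain ⟨-, χ, hχN, hχ⟩ := mem_Gam.1 γ.2
    rw [mem_GA, hpowW γ χ hχ, ← Units.val_pow_eq_pow_val, hχN, Units.val_one, map_one, one_mul]
  have hΓ : ∀ g ∉ GA k x W N, ∀ γ : Gam k x W N, ∃ a ∈ GA k x W N, ∃ i : ℕ, γ = a * g ^ i := by
    intro g hg γ
    obtain ⟨-, χ, hχN, hχ⟩ := mem_Gam.1 g.2
    obtain ⟨-, χ', hχN', hχ'⟩ := mem_Gam.1 γ.2
    have hχ1 : χ ≠ 1 := by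
      rintro rfl
      apply hg
      rw [mem_GA, hχ, Units.val_one, map_one, one_mul]
    have hord : orderOf χ = N := by
      haveI : Fact N.Prime := ⟨hN⟩
      exact orderOf_eq_prime hχN hχ1
    have hprim : IsPrimitiveRoot χ N := hord ▸ IsPrimitiveRoot.orderOf χ
    have hprim' : IsPrimitiveRoot (χ : k) N := (IsPrimitiveRoot.coe_units_iff).2 hprim
    haveI : NeZero N := ⟨hN.ne_zero⟩
    obtain ⟨i, -, hi⟩ := hprim'.eq_pow_of_pow_eq_one (ξ := (χ' : k)) (by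
      rw [← Units.val_pow_eq_pow_val, hχN', Units.val_one])
    refine ⟨γ * (g ^ i)⁻¹, ?_, i, by group⟩
    rw [mem_GA]
    change γ.1 ((g ^ i).1⁻¹ W) = W
    have h1 : (g ^ i).1⁻¹ W = algebraMap k K (χ' : k)⁻¹ * W := by
      apply PX.inv_apply_eq
      rw [map_mul, AlgEquiv.commutes, hpowW g χ hχ, hi, ← mul_assoc, ← map_mul,
        inv_mul_cancel₀ χ'.ne_zero, map_one, one_mul]
    rw [h1, map_mul, AlgEquiv.commutes, hχ', ← mul_assoc, ← map_mul,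
      inv_mul_cancel₀ χ'.ne_zero, map_one, one_mul]
  let B : {t : Fin r → K // ∀ i, t i ∈ ALG.M k x r (0 + 1)} → Subgroup (Gam k x W N) :=
    fun t => ((ALG.bracket (k := k) t.1).fixingSubgroup).subgroupOf (Gam k x W N)
  have hBn : ∀ t, (B t).Normal := by
    intro t
    constructor
    intro b hb g
    rw [Subgroup.mem_subgroupOf, ALG.mem_fs] at hb ⊢
    intro z hz
    have h1 : g.1⁻¹ z ∈ ALG.bracket (k := k) t.1 :=
      ALG.bracket_stable t.2 (inv_mem (mem_Gam.1 g.2).1) hz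
    change g.1 (b.1 (g.1⁻¹ z)) = z
    rw [hb _ h1, PX.apply_inv]
  have hmv : ∀ t : Fin r → K, (∀ i, t i ∈ F) → ∃ g : Gam k x W N,
      g.1 ∈ (ALG.bracket (k := k) t).fixingSubgroup ∧ g ∉ GA k x W N := by
    intro t ht
    obtain ⟨g, hgF, hgu, χ, hχN, hχ1, hgW⟩ := exists_g hmn hx p hℓ
      (fun a => Nat.Coprime.pow_right a hℓp) hN.two_le (fun a => Nat.Coprime.pow_right a hNp)
      hy hw hr t ht
    have hχ0 : χ ≠ 0 := by
      rintro rfl
      rw [zero_pow hN.ne_zero] at hχN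
      exact zero_ne_one hχN
    have hmem : g⁻¹ ∈ Gam k x W N := ⟨inv_mem hgF, Units.mk0 χ hχ0, Units.ext (by
      rw [Units.val_pow_eq_pow_val]; exact hχN), hgW⟩
    refine ⟨⟨g⁻¹, hmem⟩, inv_mem hgu, ?_⟩
    intro h
    exact hχ1 (hval hχ0 hgW (mem_GA.1 h))
  have hB : ∀ t, ∃ g ∈ B t, g ∉ GA k x W N := by
    intro t
    obtain ⟨g, hg, hgA⟩ := hmv t.1 t.2
    exact ⟨g, Subgroup.mem_subgroupOf.2 hg, hgA⟩
  obtain ⟨g₀, -, hg₀⟩ := hmv (fun _ => 0) (fun _ => zero_mem _)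
  obtain ⟨g, hgA, hg⟩ := exists_in_inter (GA k x W N) (GC x W N τ) hcN hA hΓ hΓN B hBn hB S g₀ hg₀
  obtain ⟨hgF, -⟩ := mem_Gam.1 g.2
  obtain ⟨-, χ, hχN, hχ⟩ := mem_Gam.1 (inv_mem g.2)
  have hχ1 : (χ : k) ≠ 1 := by
    intro h
    rw [h, map_one, one_mul] at hχ
    exact hgA (inv_mem_iff.1 (mem_GA.2 hχ))
  obtain ⟨h, hhF, hhW, hhτ, hgh⟩ := single hmn hx p (by omega : 1 ≤ ℓ) hN.one_le hy hw hcℓ hj τ hτ
    g.1 hgF hχ1 hχ σ
  let h' : Gam k x W N := ⟨h, hhF, 1, one_pow N, by rw [hhW, Units.val_one, map_one, one_mul]⟩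
  have hh'A : h' ∈ GA k x W N := hhW
  obtain ⟨d, hd, c, hc, hdc⟩ := hg h' hh'A
  refine ⟨d.1, (mem_Gam.1 d.2).1, ?_, ?_⟩
  · intro t ht
    have h1 : d ∈ ⨅ i ∈ S, B i := (Subgroup.mem_inf.1 hd).2
    simp only [Subgroup.mem_iInf] at h1
    exact Subgroup.mem_subgroupOf.1 (h1 t ht)
  · intro v
    rw [hdc]
    change τ (σ v) = g.1 (h (g.1⁻¹ (h⁻¹ (c.1 (τ v)))))
    have h1 : c.1 (τ v) = τ v := (mem_GC.1 hc).2 1 v
    rw [h1, PX.inv_apply_of_fix (hhτ v), hgh]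

end

end RS
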