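import Pool.Agent.H20.RS.Gt

/-!
Group theory: the commutator lemma relative to a normal subgroup.
-/

set_option linter.style.haveILetI false

namespace RS

open Subgroup
open scoped commutatorElement

theorem mul_pow_mem {G : Type*} [Group G] (H : Subgroup G) {a h : G}
    (ha : ∀ z ∈ H, a⁻¹ * z * a ∈ H) (hh : h ∈ H) (e : ℕ) : (a ^ e)⁻¹ * (a * h) ^ e ∈ H := by
  induction e with
  | zero => simp
  | succ e ih =>
    have h1 : (a ^ (e + 1))⁻¹ * (a * h) ^ (e + 1) =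
        (a⁻¹ * ((a ^ e)⁻¹ * (a * h) ^ e) * a) * h := by
      rw [pow_succ, pow_succ, mul_inv_rev]
      group
    rw [h1]
    exact mul_mem (ha _ ih) hh

/-- the main group theoretic lemma, relative form -/
theorem exists_in_inter₂ {Γ : Type*} [Group Γ] (A C Γ₂ : Subgroup Γ) [A.Normal] [C.Normal]
    [Γ₂.Normal] {e N : ℕ} (hcop : Nat.Coprime e N) (hA : ∀ a ∈ A, a ^ e ∈ C)
    (hΓ : ∀ g ∉ A, ∀ γ : Γ, ∃ a ∈ A, ∃ i : ℕ, γ = a * g ^ i) (hΓN : ∀ γ : Γ, γ ^ N ∈ A)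
    {ι : Type*} (B : ι → Subgroup Γ) (hB₂ : ∀ i, B i ≤ Γ₂)
    (hBn : ∀ i, ∀ b ∈ B i, ∀ g ∈ Γ₂, g * b * g⁻¹ ∈ B i) (hB : ∀ i, ∃ g ∈ B i, g ∉ A)
    (S : Finset ι) (g₀ : Γ) (hg₂ : g₀ ∈ Γ₂) (hg₀ : g₀ ∉ A) :
    ∃ g ∉ A, ∀ h ∈ A, ∃ d ∈ A ⊓ Γ₂ ⊓ ⨅ i ∈ S, B i, ∃ c ∈ C, d = ⁅g, h⁆ * c := by
  classical
  obtain ⟨a, b, hab⟩ : IsCoprime (e : ℤ) (N : ℤ) := Nat.isCoprime_iff_coprime.2 hcop
  set g : Γ := g₀ ^ (a * e) with hg
  have hg1 : g = g₀ * (g₀ ^ N) ^ (-b) := by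
    rw [hg, ← zpow_natCast, ← zpow_mul, ← zpow_one_add]
    congr 1
    linear_combination hab
  have hgA : g ∉ A := by
    intro h
    apply hg₀
    rw [hg1] at h
    exact (Subgroup.mul_mem_cancel_right _ (zpow_mem (hΓN g₀) _)).1 h
  have hgΓ₂ : g ∈ Γ₂ := zpow_mem hg₂ _
  have hgN : g ^ N ∈ C := by
    have h1 : g ^ N = ((g₀ ^ N) ^ e) ^ a := by
      rw [hg, ← zpow_natCast, ← zpow_natCast, ← zpow_natCast, ← zpow_mul, ← zpow_mul, ← zpow_mul]
      congr 1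
      ring
    rw [h1]
    exact zpow_mem (hA _ (hΓN g₀)) _
  refine ⟨g, hgA, ?_⟩
  set π := QuotientGroup.mk' C with hπ
  have hπs : Function.Surjective π := QuotientGroup.mk'_surjective C
  set A' := A.map π with hA'
  haveI hA'n : A'.Normal := Subgroup.Normal.map inferInstance π hπs
  have hA'e : ∀ a ∈ A', a ^ e = 1 := by
    rintro _ ⟨a, ha, rfl⟩
    rw [← map_pow]
    exact (QuotientGroup.eq_one_iff _).2 (hA a ha)
  have hgN' : (π g) ^ N = 1 := by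
    rw [← map_pow]
    exact (QuotientGroup.eq_one_iff _).2 hgN
  have hQ : ∀ γ : Γ ⧸ C, ∃ a ∈ A', ∃ i : ℕ, γ = a * (π g) ^ i := by
    intro γ
    obtain ⟨γ, rfl⟩ := hπs γ
    obtain ⟨a, ha, i, rfl⟩ := hΓ g hgA γ
    exact ⟨π a, mem_map_of_mem π ha, i, by rw [map_mul, map_pow]⟩
  have key := comm_le_comm A' hcop hA'e (π g) hgN' hQ
  set T := normalClosure ({π g} : Set (Γ ⧸ C)) with hT
  -- elements of `Γ₂` of order `N` modulo `C` lie in every `B i` modulo `C`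
  have hTs : ∀ i, ∀ s ∈ Γ₂, s ^ N ∈ C → π s ∈ (B i).map π := by
    intro i s hs hsN
    obtain ⟨β, hβ, hβA⟩ := hB i
    obtain ⟨α, hα, j, hj⟩ := hΓ β hβA s
    have hα₂ : α ∈ Γ₂ := by
      have h1 : α = s * (β ^ j)⁻¹ := by rw [hj]; group
      rw [h1]
      exact mul_mem hs (inv_mem (pow_mem (hB₂ i hβ) j))
    have h1 : (α ^ e)⁻¹ * (α * β ^ j) ^ e ∈ B i := by
      refine mul_pow_mem (B i) (fun z hz => ?_) (pow_mem hβ j) e
      have h2 := hBn i z hz α⁻¹ (inv_mem hα₂)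
      rwa [inv_inv] at h2
    have h2 : (π s) ^ e ∈ (B i).map π := by
      refine ⟨_, h1, ?_⟩
      rw [map_mul, map_inv, map_pow π α, hA'e _ (mem_map_of_mem π hα), inv_one, one_mul, ← hj,
        map_pow]
    have h3 : (π s) ^ N = 1 := by
      rw [← map_pow]
      exact (QuotientGroup.eq_one_iff _).2 hsN
    have h4 : π s = ((π s) ^ e) ^ a * ((π s) ^ N) ^ b := by
      rw [← zpow_natCast, ← zpow_natCast, ← zpow_mul, ← zpow_mul, ← zpow_add]
      have h5 : (e : ℤ) * a + N * b = 1 := by linear_combination hab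
      rw [h5, zpow_one]
    rw [h4, h3, one_zpow, mul_one]
    exact zpow_mem h2 _
  have hTB : ∀ i, T ≤ (B i).map π := by
    intro i
    rw [hT, normalClosure, closure_le]
    intro t ht
    obtain ⟨s, hs, hst⟩ := Group.mem_conjugatesOfSet_iff.1 ht
    rw [Set.mem_singleton_iff] at hs
    subst hs
    obtain ⟨γ, rfl⟩ := isConj_iff.1 hst
    obtain ⟨γ, rfl⟩ := hπs γ
    have h1 : π γ * π g * (π γ)⁻¹ = π (γ * g * γ⁻¹) := by simp
    rw [h1]
    refine hTs i _ (Normal.conj_mem inferInstance g hgΓ₂ γ) ?_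
    rw [conj_pow]
    exact Normal.conj_mem inferInstance _ hgN γ
  have hTΓ : T ≤ Γ₂.map π := by
    haveI : (Γ₂.map π).Normal := Subgroup.Normal.map inferInstance π hπs
    apply normalClosure_le_normal
    rw [Set.singleton_subset_iff]
    exact mem_map_of_mem π hgΓ₂
  have hDS : ⁅T, A'⁆ ≤ (A ⊓ Γ₂ ⊓ ⨅ i ∈ S, B i).map π := by
    induction S using Finset.induction_on with
    | empty =>
      have h1 : A ⊓ Γ₂ ⊓ ⨅ i ∈ (∅ : Finset ι), B i = A ⊓ Γ₂ := by simp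
      rw [h1]
      refine (commutator_mono hTΓ le_rfl).trans ?_
      rw [hA', ← map_commutator]
      apply Subgroup.map_mono
      exact le_inf (commutator_le_right _ _) (commutator_le_left _ _)
    | insert i S _ ih =>
      have hXn : ∀ h ∈ A ⊓ Γ₂ ⊓ ⨅ i ∈ S, B i, ∀ g ∈ Γ₂, g * h * g⁻¹ ∈ A ⊓ Γ₂ ⊓ ⨅ i ∈ S, B i := by
        intro h hh g hg
        rw [Subgroup.mem_inf, Subgroup.mem_inf] at hh ⊢
        refine ⟨⟨Normal.conj_mem inferInstance h hh.1.1 g,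
          Normal.conj_mem inferInstance h hh.1.2 g⟩, ?_⟩
        have h1 := hh.2
        simp only [Subgroup.mem_iInf] at h1 ⊢
        exact fun j hj => hBn j h (h1 j hj) g hg
      refine key.trans ((commutator_mono (hTB i) ih).trans ?_)
      rw [← map_commutator]
      apply Subgroup.map_mono
      rw [commutator_le]
      intro b hb h hh
      rw [Finset.iInf_insert]
      have h1 : ⁅b, h⁆ ∈ A ⊓ Γ₂ ⊓ ⨅ i ∈ S, B i := by
        rw [commutatorElement_def]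
        exact mul_mem (hXn h hh b (hB₂ i hb)) (inv_mem hh)
      have h2 : ⁅b, h⁆ ∈ B i := by
        have h3 : ⁅b, h⁆ = b * (h * b⁻¹ * h⁻¹) := by rw [commutatorElement_def]; group
        rw [h3]
        refine mul_mem hb (hBn i _ (inv_mem hb) h ?_)
        exact (Subgroup.mem_inf.1 (Subgroup.mem_inf.1 hh).1).2
      exact Subgroup.mem_inf.2 ⟨(Subgroup.mem_inf.1 h1).1,
        Subgroup.mem_inf.2 ⟨h2, (Subgroup.mem_inf.1 h1).2⟩⟩
  intro h hh
  have h1 : π ⁅g, h⁆ ∈ ⁅T, A'⁆ := by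
    rw [map_commutatorElement]
    exact commutator_mem_commutator (subset_normalClosure (Set.mem_singleton _))
      (mem_map_of_mem π hh)
  obtain ⟨d, hd, hdg⟩ := hDS h1
  refine ⟨d, hd, ⁅g, h⁆⁻¹ * d, ?_, by group⟩
  rw [← QuotientGroup.eq_one_iff]
  change π (⁅g, h⁆⁻¹ * d) = 1
  rw [map_mul, map_inv, hdg, inv_mul_cancel]

end RS
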