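import Pool.Agent.H20.RS.All

/-!
Every finite Galois extension of `k(T)`: the theorem.
-/

set_option linter.style.haveILetI false

namespace RS

open Polynomial IntermediateField

variable {k K : Type*} [Field k] [Field K] [Algebra k K]
variable {m n : ℕ} {x : Fin n → K} {y w : Fin m → K} (hmn : m ≤ n) {ℓ N : ℕ}

/-- nonzero in the field means prime to the characteristic -/
theorem coprime_of_ne_zero (p : ℕ) [ExpChar k p] {q : ℕ} (hq : (q : k) ≠ 0) :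
    Nat.Coprime q p := by
  rcases ‹ExpChar k p› with _ | hp
  · exact Nat.coprime_one_right q
  · rename_i hchar
    rw [Nat.coprime_comm, Nat.Prime.coprime_iff_not_dvd hp]
    intro h
    exact hq ((CharP.cast_eq_zero_iff k p q).2 h)

section

variable {E : Type*} [Field E] [Algebra k E] [Algebra (RatFunc k) E]
  [IsScalarTower k (RatFunc k) E] [FiniteDimensional (RatFunc k) E] [IsGalois (RatFunc k) E]

include hmn in
/-- disjointness from `M_r^2` -/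
theorem disj_all [IsAlgClosed k] [IsAlgClosed K] (hx : IsTranscendenceBasis k x) (p : ℕ)
    [ExpChar k p] (hℓ : 2 ≤ ℓ) (hℓp : Nat.Coprime ℓ p) (hN : N.Prime) (hNp : Nat.Coprime N p)
    (hy : ∀ j, y j ^ ℓ = x (Fin.castLE hmn j)) (hw : ∀ j, w j ^ N = 1 + y j)
    (hcℓ : Nat.Coprime (Nat.card Gal(E/RatFunc k)) ℓ)
    (hcN : Nat.Coprime (Nat.card Gal(E/RatFunc k)) N)
    (j₀ : Fin m) {r : ℕ} (hr1 : 1 ≤ r) (hr : r < m) (τ : E →ₐ[k] K)
    (hτ : τ (algebraMap (RatFunc k) E RatFunc.X) = x (Fin.castLE hmn j₀) + ∏ j, w j)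
    (v : E) (hv : τ v ∈ ALG.M k x r 2) : v ∈ Set.range (algebraMap (RatFunc k) E) := by
  classical
  rw [ALG.M] at hv
  obtain ⟨S, hS⟩ := exists_finset_of_mem_iSup hv
  haveI : Nontrivial (Fin m) := Fin.nontrivial_iff_two_le.2 (by omega)
  obtain ⟨j₁, hj⟩ := exists_ne j₀
  refine IntermediateField.mem_bot.1 ((IsGalois.mem_bot_iff_fixed v).2 (fun σ => ?_))
  obtain ⟨d, -, hd, hdτ⟩ := exists_act hmn hx p hℓ hℓp hN hNp hy hw hcℓ hcN hj.symm hr τ hτ S σ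
  apply τ.toRingHom.injective
  change τ (σ v) = τ v
  rw [hdτ]
  have h1 : d ∈ (⨆ t ∈ S, ALG.bracket (k := k) t.1).fixingSubgroup :=
    ALG.fs_iSup_aux S (fun t : {t : Fin r → K // ∀ i, t i ∈ ALG.M k x r (0 + 1)} =>
      ALG.bracket (k := k) t.1) hd
  exact ALG.mem_fs.1 h1 _ hS

/-- MAIN THEOREM for all finite Galois extensions of `k(T)` -/
theorem main_all [IsAlgClosed k] [IsAlgClosed K] (hx : IsTranscendenceBasis k x) {r : ℕ}
    (hr1 : 1 ≤ r) (hr : r < m) (hℓ : 2 ≤ ℓ) (hℓk : (ℓ : k) ≠ 0) (hN : N.Prime)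
    (hNk : (N : k) ≠ 0) (hcℓ : Nat.Coprime (Module.finrank (RatFunc k) E) ℓ)
    (hcN : Nat.Coprime (Module.finrank (RatFunc k) E) N)
    (hy : ∀ j, y j ^ ℓ = x (Fin.castLE hmn j)) (hw : ∀ j, w j ^ N = 1 + y j) (j₀ : Fin m) :
    (∃ τ : E →ₐ[k] K, τ (algebraMap (RatFunc k) E RatFunc.X) =
      x (Fin.castLE hmn j₀) + ∏ j, w j) ∧
    ∀ τ : E →ₐ[k] K, τ (algebraMap (RatFunc k) E RatFunc.X) = x (Fin.castLE hmn j₀) + ∏ j, w j →
      τ (algebraMap (RatFunc k) E RatFunc.X) ∈ ALG.M k x 1 2 ∧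
      (∀ v : E, τ v ∈ ALG.M k x 1 3 ∧ τ v ∈ ALG.M k x m 2) ∧
      (∀ v : E, τ v ∈ ALG.M k x r 2 ↔ v ∈ Set.range (algebraMap (RatFunc k) E)) ∧
      ∀ σ : Gal(E/RatFunc k), ∃ g ∈ (ALG.M k x r 2).fixingSubgroup, ∀ v, τ (σ v) = g (τ v) := by
  classical
  obtain ⟨p, hp⟩ := ExpChar.exists k
  have hℓp : Nat.Coprime ℓ p := coprime_of_ne_zero (k := k) p hℓk
  have hNp : Nat.Coprime N p := coprime_of_ne_zero (k := k) p hNk
  rw [← IsGalois.card_aut_eq_finrank] at hcℓ hcN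
  set W := ∏ j, w j with hW
  set T := x (Fin.castLE hmn j₀) + W with hT
  have hxM : ∀ s, 1 ≤ s → x (Fin.castLE hmn j₀) ∈ ALG.M k x s 2 := fun s hs =>
    ALG.F_le_M s hs (subset_adjoin k _ ⟨_, rfl⟩)
  have hTM : ∀ s, 1 ≤ s → T ∈ ALG.M k x s 2 := fun s hs =>
    add_mem (hxM s hs) (P_mem_M hmn s hs (by omega) hN.one_le hy hw)
  have htr : Transcendental k T := by
    haveI : Nontrivial (Fin m) := Fin.nontrivial_iff_two_le.2 (by omega)
    obtain ⟨j₁, hj⟩ := exists_ne j₀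
    intro h
    obtain ⟨hPn, -⟩ := P_notMem hmn hx (by omega : 1 ≤ ℓ) hN.one_le hy hw j₁
    apply hPn
    have h1 : T ∈ PX.Om k x (Fin.castLE hmn j₁) := by
      rw [← PX.ac_Om, ALG.mem_ac]
      exact IsAlgebraic.tower_top (L := PX.Om k x (Fin.castLE hmn j₁)) h
    have h2 : x (Fin.castLE hmn j₀) ∈ PX.Om k x (Fin.castLE hmn j₁) :=
      PX.x_mem_Om (fun h => hj (Fin.castLE_injective hmn h).symm)
    have h3 := sub_mem h1 h2
    rwa [hT, add_sub_cancel_left] at h3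
  refine ⟨exists_tau htr, fun τ hτ => ?_⟩
  have hTτ : τ (algebraMap (RatFunc k) E RatFunc.X) ∈ k⟮T⟯ := by
    rw [hτ]; exact mem_adjoin_simple_self k _
  have hd := disj_all hmn hx p hℓ hℓp hN hNp hy hw hcℓ hcN j₀ hr1 hr τ hτ
  refine ⟨by rw [hτ]; exact hTM 1 le_rfl, fun v => ⟨?_, ?_⟩, fun v => ⟨hd v, ?_⟩,
    group_of_disj hx p r hr1 τ (by rw [hτ]; exact hTM r hr1) hd⟩
  · apply ALG.bracket_le_M 1 1 (fun _ : Fin 1 => T) (fun _ => hTM 1 le_rfl)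
    rw [ALG.bracket_eq]
    have h1 : τ v ∈ ALG.ac k⟮T⟯ := ALG.mem_ac.2 (isAlgebraic_tau τ hTτ v)
    refine ALG.ac_mono ?_ h1
    rw [adjoin_simple_le_iff]
    exact subset_adjoin k _ ⟨0, rfl⟩
  · apply ALG.bracket_le_M m 0 (fun j => x (Fin.castLE hmn j))
      (fun j => subset_adjoin k _ ⟨_, rfl⟩)
    rw [ALG.bracket_eq]
    have h1 : τ v ∈ ALG.ac k⟮T⟯ := ALG.mem_ac.2 (isAlgebraic_tau τ hTτ v)
    refine ALG.ac_le ?_ h1
    rw [adjoin_simple_le_iff]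
    exact add_mem (ALG.le_ac _ (subset_adjoin k _ ⟨j₀, rfl⟩))
      (P_mem_ac hmn (by omega) hN.one_le hy hw)
  · rintro ⟨f, rfl⟩
    exact tau_mem τ (by rw [hτ]; exact hTM r hr1) f

end

end RS
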