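import Pool.Agent.H20.PX.Gal1

set_option autoImplicit false

/-!
Artin-Schreier generators of normal subgroups of index `p`, and rational functions which are not of
the form `h ^ p - h`.
-/

namespace RS

open IntermediateField Polynomial

/-- A normal subgroup of index `p` of a Galois group in characteristic `p` gives an Artin-Schreier
generator. -/
theorem exists_as_of_index {F E : Type*} [Field F] [Field E] [Algebra F E] [FiniteDimensional F E]
    [IsGalois F E] (p : ℕ) [Fact p.Prime] [CharP E p] (M : Subgroup Gal(E/F)) [M.Normal]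
    (hM : M.index = p) :
    ∃ z : E, (∀ σ ∈ M, σ z = z) ∧ z ^ p - z ∈ Set.range (algebraMap F E) ∧
      z ∉ Set.range (algebraMap F E) := by
  have hfr : Module.finrank F (fixedField M) = p := by
    have h1 := Module.finrank_mul_finrank F (fixedField M) E
    have h2 := M.card_mul_index
    rw [IsGalois.card_aut_eq_finrank, hM] at h2
    rw [finrank_fixedField_eq_card, ← h2, mul_comm] at h1
    exact Nat.eq_of_mul_eq_mul_left Nat.card_pos h1
  have : CharP (fixedField M) p :=
    (RingHom.charP_iff (algebraMap (fixedField M) E) (algebraMap (fixedField M) E).injective p).2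
      inferInstance
  obtain ⟨y, ⟨a, ha⟩, hy⟩ := PX.exists_as_of_finrank_eq (F := F) (M := fixedField M) p hfr
  refine ⟨y, fun σ hσ => y.2 ⟨σ, hσ⟩, ⟨a, ?_⟩, ?_⟩
  · have h1 := congrArg (algebraMap (fixedField M) E) ha
    rw [map_sub, map_pow, ← IsScalarTower.algebraMap_apply] at h1
    exact h1
  · rintro ⟨b, hb⟩
    exact hy ⟨b, Subtype.ext hb⟩

variable {k : Type*} [Field k]

/-- clearing denominators -/
private theorem clear_den (p : ℕ) (hp : 1 ≤ p) (A D : k[X]) (hD : D ≠ 0) (h : RatFunc k)
    (e : algebraMap k[X] (RatFunc k) A / algebraMap k[X] (RatFunc k) D = h ^ p - h) :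
    A * h.denom ^ p = D * (h.num ^ p - h.num * h.denom ^ (p - 1)) := by
  have hV : algebraMap k[X] (RatFunc k) h.denom ≠ 0 := RatFunc.algebraMap_ne_zero h.denom_ne_zero
  have hD' : algebraMap k[X] (RatFunc k) D ≠ 0 := RatFunc.algebraMap_ne_zero hD
  apply RatFunc.algebraMap_injective k
  rw [map_mul, map_mul, map_sub, map_mul, map_pow, map_pow, map_pow]
  have h1 := RatFunc.num_div_denom h
  set U := algebraMap k[X] (RatFunc k) h.num
  set V := algebraMap k[X] (RatFunc k) h.denom
  rw [← h1, div_eq_iff hD'] at e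
  rw [e, div_pow]
  obtain ⟨q, rfl⟩ : ∃ q, p = q + 1 := ⟨p - 1, by omega⟩
  rw [Nat.add_sub_cancel]
  field_simp
  ring

/-- no pole of order prime to `p` -/
theorem not_as_of_pole (p : ℕ) [Fact p.Prime] [CharP k p] (A B : k[X]) (b : k) (n : ℕ)
    (hA : A.eval b ≠ 0) (hB : B.eval b ≠ 0) (hn : ¬ p ∣ n) (h : RatFunc k) :
    algebraMap k[X] (RatFunc k) A / algebraMap k[X] (RatFunc k) ((X - C b) ^ n * B) ≠
      h ^ p - h := by
  intro e
  have hp := (Fact.out : p.Prime).two_le
  have hB0 : B ≠ 0 := by rintro rfl; simp at hB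
  have hX : (X - C b : k[X]) ≠ 0 := X_sub_C_ne_zero b
  have h1 := clear_den p (by omega) A _ (mul_ne_zero (pow_ne_zero n hX) hB0) h e
  have hV0 : h.denom ≠ 0 := h.denom_ne_zero
  obtain ⟨W, hW, hWb⟩ := exists_eq_pow_rootMultiplicity_mul_and_not_dvd h.denom hV0 b
  set m := rootMultiplicity b h.denom with hm
  have hWb' : W.eval b ≠ 0 := fun h2 => hWb (dvd_iff_isRoot.2 h2)
  rcases lt_trichotomy (m * p) n with hlt | heq | hgt
  · obtain ⟨r, hr⟩ : ∃ r, n = m * p + (r + 1) := ⟨n - m * p - 1, by omega⟩
    have h2 : (X - C b) ^ (m * p) * (A * W ^ p) = (X - C b) ^ (m * p) *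
        ((X - C b) ^ (r + 1) * (B * (h.num ^ p - h.num * h.denom ^ (p - 1)))) := by
      rw [hr] at h1
      calc _ = A * ((X - C b) ^ m * W) ^ p := by rw [mul_pow, ← pow_mul]; ring
        _ = A * h.denom ^ p := by rw [← hW]
        _ = _ := by rw [h1, pow_add]; ring
    have h3 := mul_left_cancel₀ (pow_ne_zero _ hX) h2
    have h4 := congrArg (eval b) h3
    rw [eval_mul, eval_pow, eval_mul, eval_pow, eval_sub, eval_X, eval_C, sub_self,
      zero_pow (Nat.succ_ne_zero r), zero_mul] at h4
    exact mul_ne_zero hA (pow_ne_zero p hWb') h4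
  · exact hn ⟨m, by rw [← heq, mul_comm]⟩
  · obtain ⟨r, hr⟩ : ∃ r, m * p = n + (r + 1) := ⟨m * p - n - 1, by omega⟩
    have h2 : (X - C b) ^ n * ((X - C b) ^ (r + 1) * (A * W ^ p)) = (X - C b) ^ n *
        (B * (h.num ^ p - h.num * h.denom ^ (p - 1))) := by
      calc _ = A * ((X - C b) ^ m * W) ^ p := by rw [mul_pow, ← pow_mul, hr, pow_add]; ring
        _ = A * h.denom ^ p := by rw [← hW]
        _ = _ := by rw [h1]; ring
    have h3 := mul_left_cancel₀ (pow_ne_zero _ hX) h2
    have h4 := congrArg (eval b) h3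
    have hm0 : m ≠ 0 := by rintro h0; rw [h0] at hgt; omega
    have hVb : eval b h.denom = 0 := by
      rw [hW, eval_mul, eval_pow, eval_sub, eval_X, eval_C, sub_self, zero_pow hm0, zero_mul]
    have hUb : eval b h.num ≠ 0 := by
      intro hU
      obtain ⟨u, v, huv⟩ := RatFunc.isCoprime_num_denom h
      have h5 := congrArg (eval b) huv
      rw [eval_add, eval_mul, eval_mul, hU, hVb, mul_zero, mul_zero, add_zero, eval_one] at h5
      exact zero_ne_one h5
    rw [eval_mul, eval_pow, eval_sub, eval_X, eval_C, sub_self, zero_pow (Nat.succ_ne_zero r),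
      zero_mul, eval_mul, eval_sub, eval_mul, eval_pow, eval_pow, hVb,
      zero_pow (by omega : p - 1 ≠ 0), mul_zero, sub_zero] at h4
    exact mul_ne_zero hB (pow_ne_zero p hUb) h4.symm

/-- no pole of order prime to `p` at infinity -/
theorem not_as_of_degree (p : ℕ) [Fact p.Prime] [CharP k p] (A : k[X])
    (hA : ¬ p ∣ A.natDegree) (h : RatFunc k) : algebraMap k[X] (RatFunc k) A ≠ h ^ p - h := by
  intro e
  have hp := (Fact.out : p.Prime).two_le
  have h1 := clear_den p (by omega) A 1 one_ne_zero h (by rw [map_one, div_one]; exact e)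
  rw [one_mul] at h1
  have hA0 : A ≠ 0 := by rintro rfl; simp at hA
  have hV0 : h.denom ≠ 0 := h.denom_ne_zero
  have h2 : A.natDegree + p * h.denom.natDegree =
      (h.num ^ p - h.num * h.denom ^ (p - 1)).natDegree := by
    rw [← h1, natDegree_mul hA0 (pow_ne_zero p hV0), natDegree_pow]
  obtain ⟨q, rfl⟩ : ∃ q, p = q + 1 := ⟨p - 1, by omega⟩
  rw [Nat.add_sub_cancel] at h2
  by_cases hlt : h.denom.natDegree < h.num.natDegree
  · have h3 : (h.num * h.denom ^ q).natDegree < (h.num ^ (q + 1)).natDegree := by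
      refine lt_of_le_of_lt (natDegree_mul_le) ?_
      rw [natDegree_pow, natDegree_pow]
      nlinarith
    rw [natDegree_sub_eq_left_of_natDegree_lt h3, natDegree_pow] at h2
    apply hA
    have h4 : A.natDegree = (q + 1) * (h.num.natDegree - h.denom.natDegree) := by
      rw [Nat.mul_sub]
      omega
    exact ⟨_, h4⟩
  · push Not at hlt
    have h3 : (h.num ^ (q + 1) - h.num * h.denom ^ q).natDegree ≤
        (q + 1) * h.denom.natDegree := by
      refine (natDegree_sub_le _ _).trans (max_le ?_ ?_)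
      · rw [natDegree_pow]
        exact Nat.mul_le_mul_left _ hlt
      · refine (natDegree_mul_le).trans ?_
        rw [natDegree_pow]
        nlinarith
    have h4 : A.natDegree = 0 := by omega
    exact hA (by rw [h4]; exact dvd_zero _)

end RS
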