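import Pool.Agent.H20.RS.FracVal
import Mathlib.RingTheory.Invariant.Profinite
import Mathlib.FieldTheory.Galois.Profinite

/-!
Two valuation rings of `K` with the same trace on `V` are conjugate under `Aut(K/V)`.
-/

set_option linter.style.haveILetI false

namespace RS

open Polynomial IntermediateField

section abstract

variable {K : Type*} [Field K]

/-- an element which is integral over a subring of a valuation ring lies in it -/
theorem conj_mem (B : ValuationSubring K) (O : Subring K) (hO : O ≤ B.toSubring) {u : K}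
    (hu : IsIntegral O u) : u ∈ B := by
  obtain ⟨f, hf, h0⟩ := hu
  have h1 : IsIntegral B u := by
    refine ⟨f.map (Subring.inclusion hO), hf.map _, ?_⟩
    rw [eval₂_map]
    exact h0
  obtain ⟨y, hy⟩ := (IsIntegrallyClosed.isIntegral_iff (R := B) (K := K)).1 h1
  rw [← hy]
  exact y.2

/-- the core: `L / F` Galois, `O` a subring of `F`, `R` its integral closure in `L`; `B` and `B'`
have the same trace on `F` and are localisations of `R` -/
theorem conj_core {F L : Type*} [Field F] [Field L] [Algebra F L] [IsGalois F L]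
    (O : Subring L) (hOF : ∀ z ∈ O, ∃ y : F, algebraMap F L y = z) (B B' : ValuationSubring L)
    (hO : O ≤ B.toSubring) (hO' : O ≤ B'.toSubring)
    (h : ∀ y : F, algebraMap F L y ∈ B ↔ algebraMap F L y ∈ B')
    (hfr : ∀ z ∈ B, ∃ u v : L, IsIntegral O u ∧ IsIntegral O v ∧ B.valuation u = 1 ∧ z * u = v)
    (hfr' : ∀ z ∈ B', ∃ u v : L, IsIntegral O u ∧ IsIntegral O v ∧ B'.valuation u = 1 ∧
      z * u = v) :
    ∃ g : Gal(L/F), ∀ z : L, z ∈ B ↔ g z ∈ B' := by
  -- the integral closure
  have hstab : ∀ (g : Gal(L/F)) (u : L), IsIntegral O u → IsIntegral O (g u) := by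
    rintro g u ⟨f, hf, h0⟩
    refine ⟨f, hf, ?_⟩
    have h1 := congrArg g h0
    rw [map_zero] at h1
    rw [← h1, ← AlgEquiv.coe_ringEquiv, ← RingEquiv.coe_toRingHom, hom_eval₂]
    congr 1
    ext z
    obtain ⟨y, hy⟩ := hOF z.1 z.2
    change (z : L) = g (z : L)
    rw [← hy, AlgEquiv.commutes]
  obtain ⟨R, hR⟩ : ∃ R : Subring L, ∀ u, u ∈ R ↔ IsIntegral O u :=
    ⟨(integralClosure O L).toSubring, fun _ => Iff.rfl⟩
  letI act : MulSemiringAction Gal(L/F) R :=
    { smul := fun g u => ⟨g u.1, (hR _).2 (hstab g u.1 ((hR _).1 u.2))⟩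
      one_smul := fun u => rfl
      mul_smul := fun g g' u => rfl
      smul_zero := fun g => Subtype.ext (map_zero g)
      smul_one := fun g => Subtype.ext (map_one g)
      smul_add := fun g u v => Subtype.ext (map_add g _ _)
      smul_mul := fun g u v => Subtype.ext (map_mul g _ _) }
  have hsm : ∀ (g : Gal(L/F)) (u : R), ((g • u : R) : L) = g (u : L) := fun _ _ => rfl
  letI : TopologicalSpace R := ⊥
  haveI : DiscreteTopology R := ⟨rfl⟩
  haveI : ContinuousSMul Gal(L/F) R := by
    rw [continuousSMul_iff_stabilizer_isOpen]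
    intro u
    have h1 := stabilizer_isOpen_of_isIntegral (K := F) (L := L) (u : L)
    convert h1 using 1
    ext g
    rw [SetLike.mem_coe, SetLike.mem_coe, MulAction.mem_stabilizer_iff,
      MulAction.mem_stabilizer_iff, Subtype.ext_iff]
    rfl
  -- the fixed ring
  let A : Subring R :=
    { carrier := {a | ∀ g : Gal(L/F), g • a = a}
      mul_mem' := fun ha hb g => by rw [smul_mul', ha g, hb g]
      one_mem' := fun g => smul_one g
      add_mem' := fun ha hb g => by rw [smul_add, ha g, hb g]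
      zero_mem' := fun g => smul_zero g
      neg_mem' := fun ha g => by rw [smul_neg, ha g] }
  haveI : SMulCommClass Gal(L/F) A R := ⟨fun g a b => by
    change g • ((a : R) * b) = (a : R) * (g • b)
    rw [smul_mul', a.2 g]⟩
  haveI : Algebra.IsInvariant A R Gal(L/F) := ⟨fun b hb => ⟨⟨b, hb⟩, rfl⟩⟩
  -- the two primes
  have hRB : R ≤ B.toSubring := fun u hu => conj_mem B O hO ((hR u).1 hu)
  have hRB' : R ≤ B'.toSubring := fun u hu => conj_mem B' O hO' ((hR u).1 hu)
  let P : Ideal R := (IsLocalRing.maximalIdeal B).comap (Subring.inclusion hRB)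
  let Q : Ideal R := (IsLocalRing.maximalIdeal B').comap (Subring.inclusion hRB')
  have hP : ∀ u : R, u ∈ P ↔ B.valuation (u : L) < 1 := fun u =>
    B.valuation_lt_one_iff (Subring.inclusion hRB u)
  have hQ : ∀ u : R, u ∈ Q ↔ B'.valuation (u : L) < 1 := fun u =>
    B'.valuation_lt_one_iff (Subring.inclusion hRB' u)
  haveI : P.IsPrime := Ideal.comap_isPrime _ _
  haveI : Q.IsPrime := Ideal.comap_isPrime _ _
  have hlt : ∀ (C : ValuationSubring L) (z : L), C.valuation z < 1 ↔ z = 0 ∨ z⁻¹ ∉ C := by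
    intro C z
    rcases eq_or_ne z 0 with rfl | hz
    · simp
    · have hz' : C.valuation z ≠ 0 := (Valuation.ne_zero_iff _).2 hz
      rw [← C.valuation_le_one_iff, map_inv₀, not_le, one_lt_inv₀ (zero_lt_iff.2 hz')]
      simp [hz]
  have hPQ : P.under A = Q.under A := by
    ext a
    change algebraMap A R a ∈ P ↔ algebraMap A R a ∈ Q
    rw [hP, hQ]
    have h1 : ((algebraMap A R a : R) : L) ∈ (⊥ : IntermediateField F L) := by
      rw [InfiniteGalois.mem_bot_iff_fixed]
      intro g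
      exact congrArg Subtype.val (a.2 g)
    obtain ⟨y, hy⟩ := IntermediateField.mem_bot.1 h1
    rw [← hy, hlt, hlt, ← map_inv₀, h]
  obtain ⟨g, hg⟩ := Algebra.IsInvariant.exists_smul_of_under_eq_of_profinite
    (A := A) (G := Gal(L/F)) P Q hPQ
  have hkey : ∀ u : R, B.valuation (u : L) < 1 ↔ B'.valuation (g (u : L)) < 1 := by
    intro u
    rw [← hP, ← hsm, ← hQ, hg, Ideal.smul_mem_pointwise_smul_iff]
  refine ⟨g, fun z => ⟨fun hz => ?_, fun hz => ?_⟩⟩
  · obtain ⟨u, v, hu, hv, hu1, huv⟩ := hfr z hz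
    have h1 : B'.valuation (g u) ≤ 1 :=
      (B'.valuation_le_one_iff _).2 (conj_mem B' O hO' (hstab g u hu))
    have h2 : ¬ B'.valuation (g u) < 1 := by
      rw [← hkey ⟨u, (hR u).2 hu⟩]
      exact hu1.not_lt
    have h3 : B'.valuation (g u) = 1 := le_antisymm h1 (not_lt.1 h2)
    have h4 : B'.valuation (g v) ≤ 1 :=
      (B'.valuation_le_one_iff _).2 (conj_mem B' O hO' (hstab g v hv))
    rw [← huv, map_mul, map_mul, h3, mul_one] at h4
    exact (B'.valuation_le_one_iff _).1 h4
  · obtain ⟨u, v, hu, hv, hu1, huv⟩ := hfr' (g z) hz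
    have hgu := hstab g⁻¹ u hu
    have hgv := hstab g⁻¹ v hv
    have h1 : B.valuation (g⁻¹ u) ≤ 1 := (B.valuation_le_one_iff _).2 (conj_mem B O hO hgu)
    have hgg : ∀ t : L, g (g⁻¹ t) = t := fun t => by
      rw [← AlgEquiv.mul_apply, mul_inv_cancel, AlgEquiv.one_apply]
    have h2 : ¬ B.valuation (g⁻¹ u) < 1 := by
      rw [hkey ⟨g⁻¹ u, (hR _).2 hgu⟩]
      change ¬ B'.valuation (g (g⁻¹ u)) < 1
      rw [hgg]
      exact hu1.not_lt
    have h3 : B.valuation (g⁻¹ u) = 1 := le_antisymm h1 (not_lt.1 h2)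
    have h4 : B.valuation (g⁻¹ v) ≤ 1 := (B.valuation_le_one_iff _).2 (conj_mem B O hO hgv)
    have h5 : g⁻¹ v = z * g⁻¹ u := by
      apply g.injective
      rw [hgg, map_mul, hgg, huv]
    rw [h5, map_mul, h3, mul_one] at h4
    exact (B.valuation_le_one_iff _).1 h4

end abstract

variable {k K : Type*} [Field k] [Field K] [Algebra k K]

theorem exists_conj_val {k K : Type*} [Field k] [Field K] [Algebra k K] [IsAlgClosed K] (p : ℕ)
    [ExpChar k p] (V : IntermediateField k K) (hV : ALG.ac V = ⊤) (B B' : ValuationSubring K)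
    (h : ∀ z ∈ V, z ∈ B ↔ z ∈ B') :
    ∃ g ∈ V.fixingSubgroup, ∀ z : K, z ∈ B ↔ g z ∈ B' := by
  haveI : Algebra.IsAlgebraic V K :=
    ⟨fun z => ALG.mem_ac.1 (hV ▸ IntermediateField.mem_top : z ∈ ALG.ac V)⟩
  -- the purely inseparable part
  obtain ⟨F, hF⟩ : ∃ F : IntermediateField V K, F = perfectClosure V K := ⟨_, rfl⟩
  haveI : PerfectField F := by
    rw [hF]
    infer_instance
  haveI : Algebra.IsAlgebraic F K := Algebra.IsAlgebraic.tower_top (K := V) F
  haveI : IsAlgClosure F K := ⟨inferInstance, inferInstance⟩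
  haveI : Normal F K := IsAlgClosure.normal F K
  haveI : IsGalois F K := IsGalois.mk
  have hpow : ∀ (C : ValuationSubring K) (z : K) (m : ℕ), m ≠ 0 → (z ^ m ∈ C ↔ z ∈ C) := by
    intro C z m hm
    rw [← C.valuation_le_one_iff, ← C.valuation_le_one_iff, map_pow, pow_le_one_iff hm]
  have hFV : ∀ y : F, algebraMap F K y ∈ B ↔ algebraMap F K y ∈ B' := by
    intro y
    have h1 : (y : K) ∈ perfectClosure V K := hF ▸ y.2
    rw [mem_perfectClosure_iff] at h1
    obtain ⟨n, w, hw⟩ := h1
    have h2 : ringExpChar V ^ n ≠ 0 := by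
      have := ringExpChar.eq V (ringExpChar V)
      have h3 : 0 < ringExpChar V := expChar_pos V (ringExpChar V)
      positivity
    rw [← hpow B _ _ h2, ← hpow B' _ _ h2]
    change (y : K) ^ _ ∈ B ↔ (y : K) ^ _ ∈ B'
    rw [← hw]
    exact h _ w.2
  have hOO : (B'.toSubring ⊓ V.toSubfield.toSubring : Subring K) =
      (B.toSubring ⊓ V.toSubfield.toSubring : Subring K) := by
    ext z
    rw [Subring.mem_inf, Subring.mem_inf]
    constructor
    · rintro ⟨h1, h2⟩
      exact ⟨(h z h2).2 h1, h2⟩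
    · rintro ⟨h1, h2⟩
      exact ⟨(h z h2).1 h1, h2⟩
  obtain ⟨g, hg⟩ := conj_core (F := F) (L := K) (B.toSubring ⊓ V.toSubfield.toSubring)
    (fun z hz => ⟨algebraMap V F ⟨z, hz.2⟩, rfl⟩) B B' inf_le_left (hOO ▸ inf_le_left) hFV
    (fun z hz => exists_frac V hV B hz) (fun z hz => by
      have h1 := exists_frac V hV B' hz
      rwa [hOO] at h1)
  haveI : IsScalarTower k F K := IsScalarTower.of_algebraMap_eq fun _ => rfl
  refine ⟨g.restrictScalars k, ?_, hg⟩
  rw [IntermediateField.mem_fixingSubgroup_iff]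
  intro z hz
  exact g.commutes (algebraMap V F ⟨z, hz⟩)

end RS
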