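import Pool.Agent.H20.RS.Dcl

/-!
A valuation ring of `K`, trivial on `k`, in which the values of nonzero polynomials in
algebraically independent elements determine their multidegrees.
-/

set_option linter.style.haveILetI false

namespace RS

open MvPolynomial

variable {k K : Type*} [Field k] [Field K] [Algebra k K] {n : ℕ} {x : Fin n → K}

/-- the fractions `a / b` with `degree a ≤ degree b` -/
def valEx_ring (k : Type*) {K : Type*} [Field k] [Field K] [Algebra k K] {n : ℕ} (m : MonomialOrder (Fin n))
    (x : Fin n → K) : Subring K where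
  carrier := {z | ∃ a b : MvPolynomial (Fin n) k, b ≠ 0 ∧
    m.toSyn (m.degree a) ≤ m.toSyn (m.degree b) ∧ z * aeval x b = aeval x a}
  mul_mem' := by
    rintro z w ⟨a, b, hb, hab, h⟩ ⟨a', b', hb', hab', h'⟩
    refine ⟨a * a', b * b', mul_ne_zero hb hb', ?_, ?_⟩
    · refine m.toSyn_degree_mul_le.trans ?_
      rw [m.degree_mul hb hb', map_add]
      exact add_le_add hab hab'
    · rw [map_mul, map_mul, ← h, ← h']
      ring
  one_mem' := ⟨1, 1, one_ne_zero, le_rfl, by rw [one_mul]⟩
  add_mem' := by
    rintro z w ⟨a, b, hb, hab, h⟩ ⟨a', b', hb', hab', h'⟩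
    refine ⟨a * b' + a' * b, b * b', mul_ne_zero hb hb', ?_, ?_⟩
    · refine m.degree_add_le.trans (sup_le ?_ ?_)
      · refine m.toSyn_degree_mul_le.trans ?_
        rw [m.degree_mul hb hb', map_add]
        exact add_le_add hab le_rfl
      · refine m.toSyn_degree_mul_le.trans ?_
        rw [m.degree_mul hb hb', map_add, add_comm (m.toSyn (m.degree b))]
        exact add_le_add hab' le_rfl
    · rw [map_add, map_mul, map_mul, map_mul, ← h, ← h']
      ring
  zero_mem' := ⟨0, 1, one_ne_zero, by rw [m.degree_zero, m.degree_one], by simp⟩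
  neg_mem' := by
    rintro z ⟨a, b, hb, hab, h⟩
    exact ⟨-a, b, hb, by rwa [m.degree_neg], by rw [map_neg, ← h]; ring⟩

theorem valEx_ne {a : MvPolynomial (Fin n) k} (hx : AlgebraicIndependent k x) (ha : a ≠ 0) :
    aeval x a ≠ 0 := fun h => ha (hx (by rw [h, map_zero]))

theorem valEx_local (m : MonomialOrder (Fin n)) (hx : AlgebraicIndependent k x) :
    IsLocalRing (valEx_ring k m x) := by
  refine IsLocalRing.of_isUnit_or_isUnit_one_sub_self fun z => ?_
  obtain ⟨a, b, hb, hab, h⟩ := z.2
  have hb0 := valEx_ne hx hb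
  by_cases hlt : m.toSyn (m.degree a) < m.toSyn (m.degree b)
  · right
    have hba : m.degree (b - a) = m.degree b := m.degree_sub_of_lt hlt
    have hne : b - a ≠ 0 := by
      intro h0
      rw [sub_eq_zero] at h0
      rw [h0] at hlt
      exact lt_irrefl _ hlt
    have hne' := valEx_ne hx hne
    have hmem : aeval x b / aeval x (b - a) ∈ valEx_ring k m x :=
      ⟨b, b - a, hne, by rw [hba], by rw [div_mul_cancel₀ _ hne']⟩
    refine IsUnit.of_mul_eq_one ⟨_, hmem⟩ (Subtype.ext ?_)
    change (1 - (z : K)) * (aeval x b / aeval x (b - a)) = 1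
    have h1 : (1 - (z : K)) * aeval x b = aeval x (b - a) := by
      rw [map_sub, ← h]
      ring
    rw [← mul_div_assoc, h1, div_self hne']
  · by_cases ha : a = 0
    · right
      have hz : (z : K) = 0 := by
        rw [ha, map_zero] at h
        exact (mul_eq_zero.1 h).resolve_right hb0
      have hz' : z = 0 := Subtype.ext hz
      rw [hz', sub_zero]
      exact isUnit_one
    · left
      have ha0 := valEx_ne hx ha
      have hmem : aeval x b / aeval x a ∈ valEx_ring k m x :=
        ⟨b, a, ha, not_lt.1 hlt, by rw [div_mul_cancel₀ _ ha0]⟩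
      refine IsUnit.of_mul_eq_one ⟨_, hmem⟩ (Subtype.ext ?_)
      change (z : K) * (aeval x b / aeval x a) = 1
      rw [← mul_div_assoc, h, div_self ha0]

theorem valEx_main (m : MonomialOrder (Fin n)) (hx : AlgebraicIndependent k x) :
    ∃ B : ValuationSubring K, (∀ c : k, c ≠ 0 → B.valuation (algebraMap k K c) = 1) ∧
      ∀ a b : MvPolynomial (Fin n) k, a ≠ 0 → b ≠ 0 →
        B.valuation (aeval x a) = B.valuation (aeval x b) → m.degree a = m.degree b := by
  haveI := valEx_local m hx
  obtain ⟨B, hB, hloc⟩ := LocalSubring.exists_le_valuationSubring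
    (LocalSubring.mk (valEx_ring k m x))
  have hmem : ∀ c : k, algebraMap k K c ∈ B := by
    intro c
    refine hB ⟨C c, 1, one_ne_zero, ?_, ?_⟩
    · rw [m.degree_C, m.degree_one]
    · rw [map_one, mul_one, aeval_C]
  refine ⟨B, ?_, ?_⟩
  · intro c hc
    refine le_antisymm ((B.valuation_le_one_iff _).2 (hmem c)) ?_
    have h1 := (B.valuation_le_one_iff _).2 (hmem c⁻¹)
    rw [map_inv₀, map_inv₀] at h1
    have h2 : B.valuation (algebraMap k K c) ≠ 0 := by
      rw [Ne, Valuation.zero_iff, map_eq_zero]
      exact hc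
    have h3 := mul_le_mul_right h1 (B.valuation (algebraMap k K c))
    rwa [mul_inv_cancel₀ h2, mul_one] at h3
  · -- the key step
    have key : ∀ a b : MvPolynomial (Fin n) k, a ≠ 0 → b ≠ 0 →
        B.valuation (aeval x a) = B.valuation (aeval x b) →
        m.toSyn (m.degree a) ≤ m.toSyn (m.degree b) → m.degree a = m.degree b := by
      intro a b ha hb hv hab
      have ha0 := valEx_ne hx ha
      have hb0 := valEx_ne hx hb
      have hz : aeval x a / aeval x b ∈ valEx_ring k m x :=
        ⟨a, b, hb, hab, by rw [div_mul_cancel₀ _ hb0]⟩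
      have hvz : B.valuation (aeval x a / aeval x b) = 1 := by
        rw [map_div₀, hv, div_self ((Valuation.ne_zero_iff _).2 hb0)]
      have hu : IsUnit (Subring.inclusion hB ⟨_, hz⟩) :=
        (B.valuation_eq_one_iff ⟨_, hB hz⟩).2 hvz
      obtain ⟨w, hw⟩ := isUnit_iff_exists_inv.1 (hloc.1 _ hu)
      have hw' : aeval x a / aeval x b * (w : K) = 1 := congrArg Subtype.val hw
      obtain ⟨a', b', hb', hab', h'⟩ := w.2
      have hb0' := valEx_ne hx hb'
      have hw0 : (w : K) ≠ 0 := by
        intro h0
        rw [h0, mul_zero] at hw'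
        exact zero_ne_one hw'
      have ha' : a' ≠ 0 := by
        rintro rfl
        rw [map_zero] at h'
        exact hw0 ((mul_eq_zero.1 h').resolve_right hb0')
      have h1 : aeval x a * aeval x a' = aeval x b * aeval x b' := by
        have h2 : aeval x a * (w : K) = aeval x b := by
          have h3 : aeval x a / aeval x b * (w : K) * aeval x b = aeval x b := by
            rw [hw', one_mul]
          rw [← h3]
          field_simp
        rw [← h', ← h2]
        ring
      rw [← map_mul, ← map_mul] at h1
      have h2 : a * a' = b * b' := hx h1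
      have h3 : m.toSyn (m.degree a) + m.toSyn (m.degree a') =
          m.toSyn (m.degree b) + m.toSyn (m.degree b') := by
        rw [← map_add, ← map_add, ← m.degree_mul ha ha', ← m.degree_mul hb hb', h2]
      have h4 : m.toSyn (m.degree b) ≤ m.toSyn (m.degree a) := by
        by_contra h5
        have h6 := add_lt_add_of_lt_of_le (not_le.1 h5) hab'
        rw [h3] at h6
        exact lt_irrefl _ h6
      exact m.toSyn.injective (le_antisymm hab h4)
    intro a b ha hb hv
    rcases le_total (m.toSyn (m.degree a)) (m.toSyn (m.degree b)) with h | h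
    · exact key a b ha hb hv h
    · exact (key b a hb ha hv.symm h).symm

theorem exists_val {k K : Type*} [Field k] [Field K] [Algebra k K] {n : ℕ} {x : Fin n → K}
    (hx : AlgebraicIndependent k x) :
    ∃ B : ValuationSubring K, (∀ c : k, c ≠ 0 → B.valuation (algebraMap k K c) = 1) ∧
      ∀ a b : MvPolynomial (Fin n) k, a ≠ 0 → b ≠ 0 →
        B.valuation (MvPolynomial.aeval x a) = B.valuation (MvPolynomial.aeval x b) →
          (MonomialOrder.lex : MonomialOrder (Fin n)).degree a =
            (MonomialOrder.lex : MonomialOrder (Fin n)).degree b :=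
  valEx_main _ hx

end RS
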