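import Pool.Agent.H20.RS.DclVal
import Pool.Agent.H20.RS.ValEx
import Pool.Agent.H20.RS.ConjVal
import Pool.Agent.H45.ALG.Fix

/-!
An element of `K` fixed by all `e`-th powers of the automorphisms over `F`, `e` prime to `N`, has, up to an exponent prime to `N`, the
value of an element of `F`.
-/

set_option linter.style.haveILetI false

namespace RS

open Polynomial IntermediateField

section

variable {k K : Type*} [Field k] [Field K] [Algebra k K] {Γ₀ : Type*} [LinearOrderedCommGroupWithZero Γ₀]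
  (w : Valuation K Γ₀)

/-- a sum whose nonzero terms have distinct values has the value of a dominating term -/
theorem CopVal.dom {ι : Type*} [DecidableEq ι] (s : Finset ι) (hs : s.Nonempty) (t : ι → K)
    (hd : ∀ i ∈ s, ∀ j ∈ s, i ≠ j → t i ≠ 0 → w (t i) ≠ w (t j)) :
    ∃ i ∈ s, w (∑ j ∈ s, t j) = w (t i) ∧ ∀ j ∈ s, w (t j) ≤ w (t i) := by
  obtain ⟨i, hi, hmax⟩ := Finset.exists_max_image s (fun i => w (t i)) hs
  refine ⟨i, hi, ?_, hmax⟩
  by_cases hti : t i = 0
  · have h0 : ∀ j ∈ s, t j = 0 := by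
      intro j hj
      have h1 := hmax j hj
      rw [hti, map_zero, le_zero_iff] at h1
      exact (Valuation.zero_iff w).1 h1
    rw [Finset.sum_eq_zero h0, hti]
  · have hpos : w (t i) ≠ 0 := (Valuation.ne_zero_iff w).2 hti
    have hlt : ∀ j ∈ s.erase i, w (t j) < w (t i) := by
      intro j hj
      obtain ⟨hji, hjs⟩ := Finset.mem_erase.1 hj
      exact lt_of_le_of_ne (hmax j hjs) fun h => hd i hi j hjs hji.symm hti h.symm
    have h2 := Valuation.map_sum_lt w hpos hlt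
    rw [← Finset.add_sum_erase s t hi]
    exact Valuation.map_add_eq_of_lt_left w h2

theorem CopVal.sum_eq {ι : Type*} [DecidableEq ι] (s : Finset ι) (hs : s.Nonempty) (t t' : ι → K)
    (htt : ∀ i ∈ s, w (t i) = w (t' i))
    (hd : ∀ i ∈ s, ∀ j ∈ s, i ≠ j → t i ≠ 0 → w (t i) ≠ w (t j)) :
    w (∑ j ∈ s, t j) = w (∑ j ∈ s, t' j) := by
  obtain ⟨i, hi, h1, h2⟩ := CopVal.dom w s hs t hd
  obtain ⟨i', hi', h1', h2'⟩ := CopVal.dom w s hs t' (by
    intro i hi j hj hij hti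
    rw [← htt i hi, ← htt j hj]
    refine hd i hi j hj hij ?_
    rw [← Valuation.ne_zero_iff w, htt i hi, Valuation.ne_zero_iff w]
    exact hti)
  rw [h1, h1']
  refine le_antisymm ?_ ?_
  · rw [htt i hi]; exact h2' i hi
  · rw [← htt i' hi']; exact h2 i' hi'

/-- elements of `F(β)`, `β ^ N ∈ F` -/
theorem CopVal.expand (F : IntermediateField k K) {β b : K} {N : ℕ} (hN : 0 < N) (hb : b ∈ F)
    (hβ : β ^ N = b) {a : K} (ha : a ∈ (adjoin F {β}).restrictScalars k) :
    ∃ c : ℕ → K, (∀ i, c i ∈ F) ∧ a = ∑ i ∈ Finset.range N, c i * β ^ i := by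
  set b' : F := ⟨b, hb⟩ with hb'
  set P : F[X] := X ^ N - C b' with hP
  have hmon : P.Monic := monic_X_pow_sub_C b' hN.ne'
  have hroot : aeval β P = 0 := by
    rw [hP, map_sub, map_pow, aeval_X, aeval_C, hβ]
    exact sub_self b
  have hint : IsIntegral F β := ⟨P, hmon, hroot⟩
  rw [mem_restrictScalars] at ha
  have h1 : a ∈ (adjoin F {β}).toSubalgebra := ha
  rw [adjoin_simple_toSubalgebra_of_isAlgebraic hint.isAlgebraic,
    Algebra.adjoin_singleton_eq_range_aeval] at h1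
  obtain ⟨q, rfl⟩ := h1
  have h2 : aeval β (q %ₘ P) = aeval β q := aeval_modByMonic_eq_self_of_root hroot
  have h3 : (q %ₘ P).natDegree < N := by
    have h4 : P.natDegree = N := natDegree_X_pow_sub_C
    have h5 : P ≠ 1 := by
      intro h
      rw [h, natDegree_one] at h4
      omega
    rw [← h4]
    exact natDegree_modByMonic_lt q hmon h5
  refine ⟨fun i => ((q %ₘ P).coeff i : F), fun i => ((q %ₘ P).coeff i).2, ?_⟩
  change aeval β q = _
  rw [← h2, aeval_eq_sum_range' h3]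
  refine Finset.sum_congr rfl fun i _ => ?_
  rw [Algebra.smul_def]
  rfl

end

theorem CopVal.lt_one_iff {K : Type*} [Field K] (B : ValuationSubring K) (z : K) :
    B.valuation z < 1 ↔ z = 0 ∨ z⁻¹ ∉ B := by
  by_cases hz : z = 0
  · simp [hz]
  · have h0 : B.valuation z ≠ 0 := (Valuation.ne_zero_iff _).2 hz
    rw [← B.valuation_le_one_iff, map_inv₀, not_le, one_lt_inv₀ (zero_lt_iff.2 h0)]
    simp [hz]

theorem CopVal.main {k K : Type*} [Field k] [IsAlgClosed k] [Field K] [IsAlgClosed K] [Algebra k K]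
    (hconj : ∀ (V : IntermediateField k K), Algebra.IsAlgebraic V K → ∀ (B B' : ValuationSubring K),
      (∀ z ∈ V, z ∈ B ↔ z ∈ B') → ∃ g ∈ V.fixingSubgroup, ∀ z : K, z ∈ B ↔ g z ∈ B')
    (F : IntermediateField k K) [Algebra.IsAlgebraic F K] (B : ValuationSubring K)
    (hB1 : ∀ c : k, c ≠ 0 → B.valuation (algebraMap k K c) = 1)
    (hB3 : ∀ z : K, B.valuation z = 1 → ∃ c : k, c ≠ 0 ∧ B.valuation (z - algebraMap k K c) < 1)
    (N : ℕ) (hN : N.Prime) (hNk : (N : k) ≠ 0) {z : K} (hz0 : z ≠ 0)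
    (hz : ∃ e, Nat.Coprime e N ∧ ∀ g ∈ F.fixingSubgroup, (g ^ e) z = z) :
    ∃ c : ℕ, Nat.Coprime c N ∧ ∃ b ∈ F, B.valuation z ^ c = B.valuation b := by
  classical
  set w := B.valuation with hw
  obtain ⟨e, heN, he⟩ := hz
  -- a minimal exponent
  have hex : ∃ c : ℕ, c ≠ 0 ∧ ∃ b ∈ F, w z ^ c = w b := by
    obtain ⟨P, hP, hPz⟩ := (Algebra.IsAlgebraic.isAlgebraic (R := F) z)
    obtain ⟨c, hc0, -, a, haF, -, hwa⟩ := DclVal.root w F P hP le_rfl hz0 hPz
    exact ⟨c, hc0, a, haF, hwa⟩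
  set c := Nat.find hex with hc
  obtain ⟨hc0, b, hbF, hcb⟩ : c ≠ 0 ∧ ∃ b ∈ F, w z ^ c = w b := Nat.find_spec hex
  have hmin : ∀ i, 0 < i → i < c → ∀ a ∈ F, w z ^ i ≠ w a := by
    intro i h0 hi a ha h
    exact Nat.find_min hex hi ⟨h0.ne', a, ha, h⟩
  by_cases hNc : N ∣ c
  swap
  · exact ⟨c, ((Nat.Prime.coprime_iff_not_dvd hN).2 hNc).symm, b, hbF, hcb⟩
  exfalso
  obtain ⟨m, hm⟩ := hNc
  have hm0 : 0 < m := by
    rcases Nat.eq_zero_or_pos m with h | h
    · rw [h, mul_zero] at hm; exact absurd hm hc0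
    · exact h
  set f : K := z ^ m with hf
  have hf0 : f ≠ 0 := pow_ne_zero _ hz0
  have hfN : w f ^ N = w b := by
    rw [hf, map_pow, ← pow_mul, mul_comm m N, ← hm, hcb]
  have hfi : ∀ i, 0 < i → i < N → ∀ a ∈ F, w f ^ i ≠ w a := by
    intro i h0 hi a ha h
    rw [hf, map_pow, ← pow_mul] at h
    refine hmin (m * i) (Nat.mul_pos hm0 h0) ?_ a ha h
    rw [hm, mul_comm N m]
    exact Nat.mul_lt_mul_of_pos_left hi hm0
  obtain ⟨β, hβ⟩ := IsAlgClosed.exists_pow_nat_eq b hN.pos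
  have hb0 : b ≠ 0 := by
    rw [← Valuation.ne_zero_iff w, ← hfN]
    exact pow_ne_zero _ ((Valuation.ne_zero_iff w).2 hf0)
  have hβ0 : β ≠ 0 := by
    intro h
    rw [h, zero_pow hN.ne_zero] at hβ
    exact hb0 hβ.symm
  have hwβ0 : w β ≠ 0 := (Valuation.ne_zero_iff w).2 hβ0
  set u : K := f / β with hu
  have hwu : w u = 1 := by
    have h1 : w u ^ N = 1 := by
      rw [hu, map_div₀, div_pow, hfN, ← map_pow, hβ, div_self ((Valuation.ne_zero_iff w).2 hb0)]
    exact (pow_eq_one_iff.1 h1).resolve_right hN.ne_zero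
  have hwβ : w β = w f := by
    have h1 : w f = w u * w β := by
      rw [← map_mul, hu, div_mul_cancel₀ _ hβ0]
    rw [h1, hwu, one_mul]
  have hβi : ∀ i, 0 < i → i < N → ∀ a ∈ F, w β ^ i ≠ w a := by
    rw [hwβ]; exact hfi
  obtain ⟨c0, hc00, hc0u⟩ := hB3 u hwu
  -- an automorphism moving `β`
  obtain ⟨s0, hs0F, hs0β⟩ : ∃ s ∈ F.fixingSubgroup, s β ≠ β := by
    by_contra hcon
    push Not at hcon
    obtain ⟨p, hp⟩ := ExpChar.exists k
    obtain ⟨a, ha⟩ := ALG.pow_mem_of_fixed p F hcon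
    have hNp : ¬ N ∣ p ^ a := by
      intro h
      have h1 : N ∣ p := hN.dvd_of_dvd_pow h
      rcases hp with _ | ⟨hpp⟩
      · exact hN.one_lt.ne' (Nat.dvd_one.1 h1)
      · have h2 : N = p := (Nat.prime_dvd_prime_iff_eq hN hpp).1 h1
        apply hNk
        rw [h2]
        exact CharP.cast_eq_zero k p
    have hr0 : 0 < p ^ a % N := Nat.pos_of_ne_zero fun h => hNp (Nat.dvd_of_mod_eq_zero h)
    refine hβi (p ^ a % N) hr0 (Nat.mod_lt _ hN.pos) (β ^ p ^ a / b ^ (p ^ a / N))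
      (F.div_mem ha (pow_mem hbF _)) ?_
    have h3 : β ^ p ^ a = β ^ (p ^ a % N) * b ^ (p ^ a / N) := by
      rw [← hβ, ← pow_mul, ← pow_add, Nat.mod_add_div]
    rw [h3, mul_div_cancel_right₀ _ (pow_ne_zero _ hb0), map_pow]
  obtain ⟨ζ, hζ⟩ := ALG.exists_algebraMap_of_pow (k := k) (a := s0 β) (b := β) N hN.pos (by
    rw [← map_pow, hβ, ALG.mem_fs.1 hs0F _ hbF])
  have hζ1 : ζ ≠ 1 := by
    rintro rfl
    rw [map_one, one_mul] at hζ
    exact hs0β hζ
  have hζN : ζ ^ N = 1 := by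
    have h1 : (s0 β) ^ N = β ^ N := by rw [← map_pow, hβ, ALG.mem_fs.1 hs0F _ hbF]
    rw [hζ, mul_pow] at h1
    have h2 : (algebraMap k K ζ) ^ N = 1 := mul_right_cancel₀ (pow_ne_zero N hβ0) (by rw [h1, one_mul])
    rw [← map_pow] at h2
    exact (algebraMap k K).injective (by rw [h2, map_one])
  have hζ0 : ζ ≠ 0 := by
    rintro rfl
    rw [zero_pow hN.ne_zero] at hζN
    exact zero_ne_one hζN
  -- the valuation ring and its image agree on `F(β)`
  set V : IntermediateField k K := (adjoin F {β}).restrictScalars k with hV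
  have hFV : F ≤ V := fun v hv => by
    rw [hV, mem_restrictScalars]
    exact (adjoin F {β}).algebraMap_mem ⟨v, hv⟩
  have hβV : β ∈ V := by
    rw [hV, mem_restrictScalars]
    exact mem_adjoin_simple_self F β
  have hVal : ∀ a ∈ V, w (s0 a) = w a := by
    intro a ha
    obtain ⟨q, hq, rfl⟩ := CopVal.expand F hN.pos hbF hβ ha
    rw [map_sum]
    symm
    refine CopVal.sum_eq w (Finset.range N) ⟨0, Finset.mem_range.2 hN.pos⟩ _ _ ?_ ?_
    · intro i hi
      rw [map_mul, map_mul, map_mul, map_pow, map_pow, hζ, ALG.mem_fs.1 hs0F _ (hq i), map_pow,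
        map_mul, hB1 ζ hζ0, one_mul]
    · intro i hi j hj hij hti h
      have hqi : q i ≠ 0 := left_ne_zero_of_mul hti
      have hqj : q j ≠ 0 := by
        intro hj0
        rw [hj0, zero_mul, map_zero] at h
        exact hti ((Valuation.zero_iff w).1 h)
      have key : ∀ i j : ℕ, i < N → j < N → i < j → q i ≠ 0 → q j ≠ 0 →
          w (q i * β ^ i) ≠ w (q j * β ^ j) := by
        intro i j hi hj hlt hqi hqj h
        refine hβi (j - i) (by omega) (by omega) (q i / q j) (F.div_mem (hq i) (hq j)) ?_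
        rw [map_div₀, eq_div_iff ((Valuation.ne_zero_iff w).2 hqj)]
        rw [map_mul, map_mul, map_pow, map_pow] at h
        have h1 : w β ^ j = w β ^ (j - i) * w β ^ i := by
          rw [← pow_add]; congr 1; omega
        rw [h1] at h
        apply mul_right_cancel₀ (pow_ne_zero i hwβ0)
        rw [h]
        exact mul_right_comm _ _ _ |>.trans (by rw [mul_comm (w β ^ (j - i) * w β ^ i)])
      rcases lt_or_gt_of_ne hij with hlt | hlt
      · exact key i j (Finset.mem_range.1 hi) (Finset.mem_range.1 hj) hlt hqi hqj h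
      · exact key j i (Finset.mem_range.1 hj) (Finset.mem_range.1 hi) hlt hqj hqi h.symm
  have hVK : Algebra.IsAlgebraic V K := by
    refine ⟨fun y => ?_⟩
    obtain ⟨P, hP, hPy⟩ := (Algebra.IsAlgebraic.isAlgebraic (R := F) y)
    refine ⟨P.map (inclusion hFV).toRingHom, ?_, ?_⟩
    · rwa [Ne, Polynomial.map_eq_zero]
    · rw [aeval_def, eval₂_map]
      exact hPy
  obtain ⟨ρ, hρV, hρ⟩ := hconj V hVK B (B.comap (s0 : K →+* K)) (by
    intro y hy
    rw [ValuationSubring.mem_comap, ← B.valuation_le_one_iff, ← B.valuation_le_one_iff]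
    change w y ≤ 1 ↔ w (s0 y) ≤ 1
    rw [hVal y hy])
  set g : Gal(K/k) := s0 * ρ with hg
  have hgF : g ∈ F.fixingSubgroup := by
    refine mul_mem hs0F ?_
    rw [ALG.mem_fs]
    exact fun y hy => ALG.mem_fs.1 hρV y (hFV hy)
  have hgβ : g β = algebraMap k K ζ * β := by
    rw [hg, AlgEquiv.mul_apply, ALG.mem_fs.1 hρV β hβV, hζ]
  have hgB : ∀ y : K, y ∈ B ↔ g y ∈ B := by
    intro y
    rw [hρ y, ValuationSubring.mem_comap]
    rfl
  have hgeB : ∀ n : ℕ, ∀ y : K, y ∈ B ↔ (g ^ n) y ∈ B := by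
    intro n
    induction n with
    | zero => intro y; simp
    | succ n ih =>
      intro y
      rw [pow_succ, AlgEquiv.mul_apply, ← ih (g y), ← hgB y]
  have hgeβ : ∀ n : ℕ, (g ^ n) β = algebraMap k K (ζ ^ n) * β := by
    intro n
    induction n with
    | zero => simp
    | succ n ih =>
      rw [pow_succ, AlgEquiv.mul_apply, hgβ, map_mul, AlgEquiv.commutes, ih, ← mul_assoc, ← map_mul,
        ← pow_succ']
  have hsz : (g ^ e) z = z := he g hgF
  have hsf : (g ^ e) f = f := by rw [hf, map_pow, hsz]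
  have hsβ := hgeβ e
  have hζe : ζ ^ e ≠ 1 := by
    intro h
    have h1 := pow_gcd_eq_one.2 ⟨h, hζN⟩
    rw [Nat.Coprime.gcd_eq_one heN, pow_one] at h1
    exact hζ1 h1
  have hζe0 : ζ ^ e ≠ 0 := pow_ne_zero _ hζ0
  have hsu : (g ^ e) u = algebraMap k K (ζ ^ e)⁻¹ * u := by
    rw [hu, map_div₀, hsf, hsβ, map_inv₀]
    have h1 : algebraMap k K (ζ ^ e) ≠ 0 := (_root_.map_ne_zero _).2 hζe0
    field_simp
  have hlt : w ((g ^ e) (u - algebraMap k K c0)) < 1 := by
    rw [hw, CopVal.lt_one_iff] at hc0u ⊢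
    rcases hc0u with h | h
    · left
      rw [h, map_zero]
    · right
      rw [← map_inv₀, ← hgeB e]
      exact h
  rw [map_sub, AlgEquiv.commutes, hsu] at hlt
  have hdiff : w ((algebraMap k K ((ζ ^ e)⁻¹ - 1)) * u) < 1 := by
    have h1 : algebraMap k K ((ζ ^ e)⁻¹ - 1) * u =
        (algebraMap k K (ζ ^ e)⁻¹ * u - algebraMap k K c0) - (u - algebraMap k K c0) := by
      rw [map_sub, map_one]; ring
    rw [h1]
    exact (w.map_sub _ _).trans_lt (max_lt hlt hc0u)
  rw [map_mul, hwu, mul_one, hB1 _ (by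
    rw [sub_ne_zero]
    intro h
    apply hζe
    rw [← inv_inv (ζ ^ e), h, inv_one])] at hdiff
  exact lt_irrefl _ hdiff

theorem exists_coprime_val {k K : Type*} [Field k] [IsAlgClosed k] [Field K] [IsAlgClosed K]
    [Algebra k K] {n : ℕ} {x : Fin n → K} (hx : IsTranscendenceBasis k x) (B : ValuationSubring K)
    (hB1 : ∀ c : k, c ≠ 0 → B.valuation (algebraMap k K c) = 1)
    (hB3 : ∀ z : K, B.valuation z = 1 → ∃ c : k, c ≠ 0 ∧ B.valuation (z - algebraMap k K c) < 1)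
    (N : ℕ) (hN : N.Prime) (hNk : (N : k) ≠ 0) {z : K} (hz0 : z ≠ 0)
    (hz : ∃ e, Nat.Coprime e N ∧
      ∀ g ∈ (IntermediateField.adjoin k (Set.range x)).fixingSubgroup, (g ^ e) z = z) :
    ∃ c : ℕ, Nat.Coprime c N ∧
      ∃ b ∈ IntermediateField.adjoin k (Set.range x), B.valuation z ^ c = B.valuation b := by
  obtain ⟨p, hp⟩ := ExpChar.exists k
  haveI : Algebra.IsAlgebraic (IntermediateField.adjoin k (Set.range x)) K := hx.isAlgebraic_field
  refine CopVal.main (fun V hV B B' h => ?_) _ B hB1 hB3 N hN hNk hz0 hz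
  refine exists_conj_val p V ?_ B B' h
  rw [eq_top_iff]
  intro y _
  rw [ALG.mem_ac]
  exact hV.isAlgebraic y

end RS
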