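import Pool.Agent.H20.RS.AllExt

/-!
The closure of a field under roots of polynomials of degree at most `d`.
-/

set_option linter.style.haveILetI false

namespace RS

open Polynomial IntermediateField

variable {k K : Type*} [Field k] [Field K] [Algebra k K]

/-- the closure of `F` in `K` under equations of degree at most `d`: the least intermediate field
which contains `F` and all roots in `K` of the nonzero polynomials of degree at most `d` over it -/
noncomputable def dcl (d : ℕ) (F : IntermediateField k K) : IntermediateField k K :=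
  sInf {L : IntermediateField k K | F ≤ L ∧ ∀ f : L[X], f ≠ 0 → f.natDegree ≤ d →
    ∀ z : K, aeval z f = 0 → z ∈ L}

/-- all prime factors are at most `d` -/
def Smooth (d c : ℕ) : Prop := c ≠ 0 ∧ ∀ q : ℕ, q.Prime → q ∣ c → q ≤ d

theorem Smooth.one (d : ℕ) : Smooth d 1 :=
  ⟨one_ne_zero, fun q hq h => absurd (Nat.dvd_one.1 h) hq.ne_one⟩

theorem Smooth.mul {d a b : ℕ} (ha : Smooth d a) (hb : Smooth d b) : Smooth d (a * b) :=
  ⟨mul_ne_zero ha.1 hb.1, fun q hq h => ((hq.dvd_mul).1 h).elim (ha.2 q hq) (hb.2 q hq)⟩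

theorem Smooth.of_le {d a : ℕ} (h0 : a ≠ 0) (h : a ≤ d) : Smooth d a :=
  ⟨h0, fun _ _ hqa => (Nat.le_of_dvd (Nat.pos_of_ne_zero h0) hqa).trans h⟩

theorem Smooth.factorial (d : ℕ) : Smooth d d.factorial :=
  ⟨Nat.factorial_ne_zero d, fun _ hq h => (hq.dvd_factorial).1 h⟩

theorem Smooth.coprime {d a N : ℕ} (ha : Smooth d a) (hN : N.Prime) (hd : d < N) :
    Nat.Coprime a N := by
  rw [Nat.coprime_comm, Nat.Prime.coprime_iff_not_dvd hN]
  intro h
  exact absurd (ha.2 N hN h) (by omega)

theorem le_dcl (d : ℕ) (F : IntermediateField k K) : F ≤ dcl d F :=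
  le_sInf (fun _ hL => hL.1)

theorem dcl_le {d : ℕ} {F L : IntermediateField k K} (hF : F ≤ L)
    (hL : ∀ f : L[X], f ≠ 0 → f.natDegree ≤ d → ∀ z : K, aeval z f = 0 → z ∈ L) : dcl d F ≤ L :=
  sInf_le ⟨hF, hL⟩

end RS
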