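import Pool.Agent.H20.RS.Dcl

/-!
Valuations of the elements of `dcl d F`: up to a `d`-smooth exponent they are valuations of elements of `F`.
-/

namespace RS

open Polynomial IntermediateField

section

variable {k K : Type*} [Field k] [Field K] [Algebra k K] {Γ₀ : Type*} [LinearOrderedCommGroupWithZero Γ₀]
  (w : Valuation K Γ₀)

/-- in a vanishing sum, not all terms zero, two terms have the same nonzero value -/
theorem DclVal.two_terms {ι : Type*} [DecidableEq ι] (s : Finset ι) (t : ι → K)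
    (h0 : ∑ i ∈ s, t i = 0) (hne : ∃ i ∈ s, t i ≠ 0) :
    ∃ i ∈ s, ∃ j ∈ s, i ≠ j ∧ w (t i) = w (t j) := by
  obtain ⟨i₀, hi₀, hti₀⟩ := hne
  obtain ⟨i, hi, hmax⟩ := Finset.exists_max_image s (fun i => w (t i)) ⟨i₀, hi₀⟩
  have hpos : w (t i) ≠ 0 := by
    have h1 : 0 < w (t i₀) := zero_lt_iff.2 ((Valuation.ne_zero_iff w).2 hti₀)
    exact (lt_of_lt_of_le h1 (hmax i₀ hi₀)).ne'
  by_contra hcon
  push Not at hcon
  have hlt : ∀ j ∈ s.erase i, w (t j) < w (t i) := by
    intro j hj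
    obtain ⟨hji, hjs⟩ := Finset.mem_erase.1 hj
    exact lt_of_le_of_ne (hmax j hjs) fun h => hcon i hi j hjs hji.symm h.symm
  have h2 := Valuation.map_sum_lt w hpos hlt
  have h3 : ∑ j ∈ s.erase i, t j = - t i := by
    have := Finset.add_sum_erase s t hi
    rw [h0] at this
    linear_combination this
  rw [h3, Valuation.map_neg] at h2
  exact lt_irrefl _ h2

/-- if `f ≠ 0` is a root of a nonzero polynomial of degree at most `d` over `V`, then `w f ^ e = w a` with `1 ≤ e ≤ d` and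
`a ∈ V`, `a ≠ 0` -/
theorem DclVal.root {d : ℕ} (V : IntermediateField k K) (p : V[X]) (hp : p ≠ 0) (hd : p.natDegree ≤ d)
    {f : K} (hf : f ≠ 0) (hroot : aeval f p = 0) :
    ∃ e : ℕ, e ≠ 0 ∧ e ≤ d ∧ ∃ a ∈ V, a ≠ 0 ∧ w f ^ e = w a := by
  classical
  have hsum : ∑ i ∈ p.support, ((p.coeff i : V) : K) * f ^ i = 0 := by
    rw [aeval_def, eval₂_eq_sum, sum_def] at hroot
    exact hroot
  have hne0 : ∀ i ∈ p.support, ((p.coeff i : V) : K) * f ^ i ≠ 0 := by
    intro i hi
    refine mul_ne_zero ?_ (pow_ne_zero _ hf)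
    have := mem_support_iff.1 hi
    exact fun h => this (by exact_mod_cast h)
  obtain ⟨i₀, hi₀⟩ := support_nonempty.2 hp
  obtain ⟨i, hi, j, hj, hij, hw⟩ := DclVal.two_terms w p.support
    (fun i => ((p.coeff i : V) : K) * f ^ i) hsum ⟨i₀, hi₀, hne0 i₀ hi₀⟩
  wlog hlt : i < j generalizing i j
  · exact this j hj i hi hij.symm hw.symm (lt_of_le_of_ne (not_lt.1 hlt) hij.symm)
  have hci : ((p.coeff i : V) : K) ≠ 0 := left_ne_zero_of_mul (hne0 i hi)
  have hcj : ((p.coeff j : V) : K) ≠ 0 := left_ne_zero_of_mul (hne0 j hj)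
  refine ⟨j - i, by omega, ?_, ((p.coeff i : V) : K) / ((p.coeff j : V) : K),
    V.div_mem (p.coeff i).2 (p.coeff j).2, div_ne_zero hci hcj, ?_⟩
  · have := le_natDegree_of_mem_supp j hj
    omega
  · have hwf : w f ≠ 0 := (Valuation.ne_zero_iff w).2 hf
    have hwj : w ((p.coeff j : V) : K) ≠ 0 := (Valuation.ne_zero_iff w).2 hcj
    rw [map_mul, map_mul, map_pow, map_pow] at hw
    rw [map_div₀, eq_div_iff hwj]
    have h1 : w f ^ j = w f ^ (j - i) * w f ^ i := by
      rw [← pow_add]; congr 1; omega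
    rw [h1] at hw
    have h2 : w f ^ i ≠ 0 := pow_ne_zero _ hwf
    apply mul_right_cancel₀ h2
    rw [hw]
    exact mul_right_comm _ _ _ |>.trans (by rw [mul_comm (w f ^ (j - i) * w f ^ i)])

end

theorem exists_smooth_val {k K : Type*} [Field k] [Field K] [Algebra k K] (d : ℕ)
    (F : IntermediateField k K) {Γ₀ : Type*} [LinearOrderedCommGroupWithZero Γ₀] (w : Valuation K Γ₀)
    {z : K} (hz : z ∈ dcl d F) (hz0 : z ≠ 0) : ∃ c : ℕ, Smooth d c ∧ ∃ b ∈ F, w z ^ c = w b := by
  set S : Set (IntermediateField k K) := {V | F ≤ V ∧ ∀ z ∈ V, z ≠ 0 →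
    ∃ c : ℕ, Smooth d c ∧ ∃ b ∈ F, w z ^ c = w b} with hS
  have hFS : F ∈ S := ⟨le_refl F, fun z hz _ => ⟨1, Smooth.one d, z, hz, pow_one _⟩⟩
  obtain ⟨V, hFV, hV⟩ := zorn_le_nonempty₀ S (by
    intro C hCS hC V₀ hV₀
    have : Nonempty C := ⟨⟨V₀, hV₀⟩⟩
    refine ⟨sSup C, ⟨?_, ?_⟩, fun V hVC => le_sSup hVC⟩
    · exact le_trans (hCS hV₀).1 (le_sSup hV₀)
    · intro z hz hz0
      have hdir : Directed (· ≤ ·) (fun V : C => (V : IntermediateField k K)) :=
        hC.directed
      rw [sSup_eq_iSup'] at hz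
      have h1 : z ∈ ⋃ V : C, ((V : IntermediateField k K) : Set K) := by
        rw [← IntermediateField.coe_iSup_of_directed hdir]
        exact hz
      obtain ⟨V, hzV⟩ := Set.mem_iUnion.1 h1
      exact (hCS V.2).2 z hzV hz0) F hFS
  have hVS : V ∈ S := hV.prop
  have hle : dcl d F ≤ V := by
    refine dcl_le hVS.1 fun f hf hfd z₀ hz₀ => ?_
    have hint : IsIntegral V z₀ := IsAlgebraic.isIntegral ⟨f, hf, hz₀⟩
    have hfin : FiniteDimensional V (adjoin V {z₀}) := adjoin.finiteDimensional hint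
    set W : IntermediateField k K := (adjoin V {z₀}).restrictScalars k with hW
    have hVW : V ≤ W := fun v hv => by
      rw [hW, mem_restrictScalars]
      exact (adjoin V {z₀}).algebraMap_mem ⟨v, hv⟩
    have hWS : W ∈ S := by
      refine ⟨le_trans hVS.1 hVW, fun g hg hg0 => ?_⟩
      rw [hW, mem_restrictScalars] at hg
      set g' : adjoin V {z₀} := ⟨g, hg⟩ with hg'
      have hdeg : (minpoly V g').natDegree ≤ d := by
        have h1 : (minpoly V g').natDegree ≤ Module.finrank V (adjoin V {z₀}) :=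
          minpoly.natDegree_le g'
        have h2 : Module.finrank V (adjoin V {z₀}) = (minpoly V z₀).natDegree := adjoin.finrank hint
        have h3 : (minpoly V z₀).natDegree ≤ f.natDegree :=
          natDegree_le_of_dvd (minpoly.dvd _ _ hz₀) hf
        omega
      have hg'int : IsIntegral V g' := IsIntegral.of_finite V g'
      obtain ⟨e, he0, hed, a, haV, ha0, hwa⟩ := DclVal.root w V (minpoly V g')
        (minpoly.ne_zero hg'int) hdeg hg0 (by
          have h1 : aeval (algebraMap (adjoin V {z₀}) K g') (minpoly V g') = 0 := by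
            rw [aeval_algebraMap_apply, minpoly.aeval, map_zero]
          exact h1)
      obtain ⟨c, hc, b, hb, hwb⟩ := hVS.2 a haV ha0
      refine ⟨e * c, (Smooth.of_le he0 hed).mul hc, b, hb, ?_⟩
      rw [pow_mul, hwa, hwb]
    have hWV : W ≤ V := hV.le_of_ge hWS hVW
    apply hWV
    rw [hW, mem_restrictScalars]
    exact mem_adjoin_simple_self V z₀
  exact hVS.2 z (hle hz) hz0

end RS
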