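import Pool.Agent.H20.RS.Kmv
import Pool.Agent.H20.PX.Fin

/-!
Nested radicals outside `M_r^2`.
-/

set_option linter.style.haveILetI false

namespace RS

open Polynomial IntermediateField

variable {k K : Type*} [Field k] [Field K] [Algebra k K]
variable {m n : ℕ} {x : Fin n → K} {y w : Fin m → K} (hmn : m ≤ n) {ℓ N : ℕ}

theorem mult_one_add_X (a : k) [Decidable (a = -1)] :
    rootMultiplicity a (1 + X : k[X]) = if a = -1 then 1 else 0 := by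
  classical
  have h0 : (1 + X : k[X]) = X - C (-1) := by rw [C_neg, C_1]; ring
  rw [h0, rootMultiplicity_X_sub_C]
  congr

/-- the polynomial used for one commutator -/
theorem mult_aux {c : k} (hc0 : c ≠ 0) (hc1 : c ≠ 1) (hN : 2 ≤ N) :
    (rot c (1 + X : k[X]) * (1 + X) ^ (N - 1)) ≠ 0 ∧
    ¬ N ∣ rootMultiplicity (-c⁻¹) (rot c (1 + X : k[X]) * (1 + X) ^ (N - 1)) := by
  classical
  have h1 : (1 + X : k[X]) ≠ 0 := by
    have h0 : (1 + X : k[X]) = X - C (-1) := by rw [C_neg, C_1]; ring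
    rw [h0]; exact X_sub_C_ne_zero _
  have h2 : (rot c (1 + X : k[X]) * (1 + X) ^ (N - 1)) ≠ 0 :=
    mul_ne_zero (rot_ne_zero hc0 h1) (pow_ne_zero _ h1)
  refine ⟨h2, ?_⟩
  rw [rootMultiplicity_mul h2, mult_rot hc0, mult_pow h1, mult_one_add_X, mult_one_add_X, if_pos,
    if_neg, mul_zero, add_zero]
  · intro h
    have := Nat.le_of_dvd one_pos h
    omega
  · intro h
    apply hc1
    have h3 : c⁻¹ = 1 := by linear_combination -h
    rw [← inv_inv c, h3, inv_one]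
  · rw [mul_neg, mul_inv_cancel₀ hc0]

theorem w_ne_zero (hx : IsTranscendenceBasis k x) (hN : 1 ≤ N)
    (hy : ∀ j, y j ^ ℓ = x (Fin.castLE hmn j)) (hw : ∀ j, w j ^ N = 1 + y j) (j : Fin m) :
    w j ≠ 0 := by
  intro h
  have h1 := ALG.one_add_ne_zero hmn hx hy (1 : k) j
  rw [map_one, one_mul, ← hw, h, zero_pow (by omega)] at h1
  exact h1 rfl

theorem y_mem_Om (hℓ : 1 ≤ ℓ) (hy : ∀ j, y j ^ ℓ = x (Fin.castLE hmn j)) {i j : Fin m}
    (h : j ≠ i) : y j ∈ PX.Om k x (Fin.castLE hmn i) := by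
  rw [← PX.ac_Om]
  apply ALG.root_mem_ac hℓ
  rw [hy]
  exact PX.x_mem_Om (fun h' => h (Fin.castLE_injective hmn h'))

theorem w_mem_Om (hℓ : 1 ≤ ℓ) (hN : 1 ≤ N) (hy : ∀ j, y j ^ ℓ = x (Fin.castLE hmn j))
    (hw : ∀ j, w j ^ N = 1 + y j) {i j : Fin m} (h : j ≠ i) :
    w j ∈ PX.Om k x (Fin.castLE hmn i) := by
  rw [← PX.ac_Om]
  apply ALG.root_mem_ac hN
  rw [hw]
  exact add_mem (one_mem _) (y_mem_Om hmn hℓ hy h)

/-- an automorphism over `k(x)` and `[u]` which rotates the product of the `w_j` -/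
theorem exists_g [IsAlgClosed k] [IsAlgClosed K] (hx : IsTranscendenceBasis k x) (p : ℕ)
    [ExpChar k p] (hℓ : 2 ≤ ℓ) (hℓp : ∀ a, Nat.Coprime ℓ (p ^ a)) (hN : 2 ≤ N)
    (hNp : ∀ a, Nat.Coprime N (p ^ a)) (hy : ∀ j, y j ^ ℓ = x (Fin.castLE hmn j))
    (hw : ∀ j, w j ^ N = 1 + y j) {r : ℕ} (hr : r < m) (u : Fin r → K)
    (hu : ∀ i, u i ∈ adjoin k (Set.range x)) :
    ∃ g ∈ (adjoin k (Set.range x)).fixingSubgroup, g ∈ (ALG.bracket (k := k) u).fixingSubgroup ∧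
      ∃ χ : k, χ ^ N = 1 ∧ χ ≠ 1 ∧ g⁻¹ (∏ j, w j) = algebraMap k K χ * ∏ j, w j := by
  classical
  obtain ⟨i, ν, hνF, hνW, hνy⟩ := PX.exists_mover hmn hx p hℓ hℓp hy hr u hu
  set F := adjoin k (Set.range x) with hF
  obtain ⟨c, hc⟩ := ALG.exists_algebraMap_of_pow (k := k) (a := ν⁻¹ (y i)) (b := y i) ℓ (by omega)
    (by rw [← map_pow, hy, ALG.mem_fs.1 (inv_mem hνF) _ (subset_adjoin k _ ⟨_, rfl⟩)])
  have hc1 : c ≠ 1 := by
    rintro rfl
    apply hνy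
    rw [map_one, one_mul] at hc
    have := PX.apply_inv ν (y i)
    rwa [hc] at this
  have hy0 : y i ≠ 0 := ALG.y_ne_zero hmn hx (by omega) hy i
  have hc0 : c ≠ 0 := by
    rintro rfl
    rw [map_zero, zero_mul] at hc
    exact hy0 ((map_eq_zero (ν⁻¹ : Gal(K/k))).1 hc)
  set Ω := PX.Om k x (Fin.castLE hmn i) with hΩ
  obtain ⟨hR0, hRm⟩ := mult_aux (N := N) hc0 hc1 hN
  obtain ⟨g, hgΩ, hgy, hgz⟩ := exists_kummer_mover p (q := N) (by omega) hNp Ω (b := y i)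
    (by rw [hΩ, PX.ac_Om]; exact PX.b_notMem_Om hx (hy i)) (PX.Om_top hx (hy i)) _ hR0 _ hRm
  have hyT : y i ∈ Ω ⊔ k⟮y i⟯ := (le_sup_right : k⟮y i⟯ ≤ _) (mem_adjoin_simple_self k _)
  have hgT : g ∈ (Ω ⊔ k⟮y i⟯).fixingSubgroup := by
    rw [fixingSubgroup_sup, Subgroup.mem_inf]
    exact ⟨hgΩ, ALG.mem_fs_adjoin.2 (by rintro _ rfl; exact hgy)⟩
  have hFT : F ≤ Ω ⊔ k⟮y i⟯ := PX.F_le_Om (hy i)
  have hνT : ∀ z ∈ Ω ⊔ k⟮y i⟯, ν⁻¹ z ∈ Ω ⊔ k⟮y i⟯ := by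
    have h1 : Ω ⊔ k⟮y i⟯ ≤ (Ω ⊔ k⟮y i⟯).comap ((ν⁻¹ : Gal(K/k)) : K →ₐ[k] K) := by
      refine sup_le ?_ ?_
      · intro z hz
        change ν⁻¹ z ∈ Ω ⊔ k⟮y i⟯
        exact (le_sup_left : Ω ≤ _) (PX.Om_stable (inv_mem hνF) hz)
      · rw [adjoin_simple_le_iff]
        change ν⁻¹ (y i) ∈ Ω ⊔ k⟮y i⟯
        rw [hc]
        exact mul_mem (IntermediateField.algebraMap_mem _ _) hyT
    exact fun z hz => h1 hz
  have hgF : g ∈ F.fixingSubgroup := fixingSubgroup_antitone hFT hgT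
  have hDT : PX.cm ν g ∈ (Ω ⊔ k⟮y i⟯).fixingSubgroup := PX.cm_right hgT hνT
  have hDF : PX.cm ν g ∈ F.fixingSubgroup := fixingSubgroup_antitone hFT hDT
  have hβ0 : (1 : K) + y i ≠ 0 := by
    have h1 := ALG.one_add_ne_zero hmn hx hy (1 : k) i
    rwa [map_one, one_mul] at h1
  have hβT : 1 + y i ∈ Ω ⊔ k⟮y i⟯ := add_mem (one_mem _) hyT
  have hDw : PX.cm ν g (w i) ≠ w i := by
    refine comm_step (q := N) (by omega) hβT hβ0 hνT hgT (fun z hz => hgz z ?_) (hw i)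
    rw [hz, map_add, map_one, hc, rot, map_mul, aeval_comp]
    simp
  obtain ⟨a, ha⟩ := ALG.exists_algebraMap_of_pow (k := k) (a := PX.cm ν g (w i)) (b := w i) N
    (by omega) (by rw [← map_pow, hw, ALG.mem_fs.1 hDT _ hβT])
  have hw0 := w_ne_zero hmn hx (by omega : 1 ≤ N) hy hw
  have haN : a ^ N = 1 := by
    apply (algebraMap k K).injective
    have h1 : (PX.cm ν g (w i)) ^ N = (w i) ^ N := by
      rw [← map_pow, hw, ALG.mem_fs.1 hDT _ hβT]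
    rw [ha, mul_pow] at h1
    rw [map_pow, map_one]
    exact mul_right_cancel₀ (pow_ne_zero N (hw0 i)) (by rw [h1, one_mul])
  have ha1 : a ≠ 1 := by
    rintro rfl
    rw [map_one, one_mul] at ha
    exact hDw ha
  have ha0 : a ≠ 0 := by
    rintro rfl
    rw [zero_pow (by omega)] at haN
    exact zero_ne_one haN
  have hDP : PX.cm ν g (∏ j, w j) = algebraMap k K a * ∏ j, w j := by
    rw [← Finset.mul_prod_erase _ _ (Finset.mem_univ i), map_mul, ha, map_prod, mul_assoc]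
    congr 2
    apply Finset.prod_congr rfl
    intro j hj
    exact ALG.mem_fs.1 hDT _ ((le_sup_left : Ω ≤ _)
      (w_mem_Om hmn (by omega) (by omega) hy hw (Finset.ne_of_mem_erase hj)))
  refine ⟨PX.cm ν g, hDF, ?_, a⁻¹, ?_, ?_, ?_⟩
  · exact PX.cm_left hνW (fun z hz => ALG.bracket_stable hu (inv_mem hgF) hz)
  · rw [inv_pow, haN, inv_one]
  · intro h
    exact ha1 (inv_eq_one.1 h)
  · apply PX.inv_apply_eq
    rw [map_mul, AlgEquiv.commutes, hDP, map_inv₀, inv_mul_cancel_left₀]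
    exact (_root_.map_ne_zero _).2 ha0

theorem P_notMem (hx : IsTranscendenceBasis k x) (hℓ : 1 ≤ ℓ) (hN : 1 ≤ N)
    (hy : ∀ j, y j ^ ℓ = x (Fin.castLE hmn j)) (hw : ∀ j, w j ^ N = 1 + y j) (i : Fin m) :
    ∏ j, w j ∉ PX.Om k x (Fin.castLE hmn i) ∧
    adjoin k (Set.range x) ≤ PX.Om k x (Fin.castLE hmn i) ⊔ k⟮∏ j, w j⟯ := by
  classical
  have hw0 := w_ne_zero hmn hx hN hy hw
  have hprod : ∏ j ∈ Finset.univ.erase i, w j ∈ PX.Om k x (Fin.castLE hmn i) :=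
    prod_mem (fun j hj => w_mem_Om hmn hℓ hN hy hw (Finset.ne_of_mem_erase hj))
  have hprod0 : ∏ j ∈ Finset.univ.erase i, w j ≠ 0 := Finset.prod_ne_zero_iff.2 (fun j _ => hw0 j)
  have hwi : w i = (∏ j, w j) / ∏ j ∈ Finset.univ.erase i, w j := by
    rw [← Finset.mul_prod_erase _ _ (Finset.mem_univ i), mul_div_cancel_right₀ _ hprod0]
  have hyi : y i = w i ^ N - 1 := by rw [hw]; ring
  constructor
  · intro h
    apply PX.b_notMem_Om hx (hy i)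
    rw [hyi, hwi]
    exact sub_mem (pow_mem (div_mem h hprod) _) (one_mem _)
  · rw [adjoin_le_iff]
    rintro _ ⟨j, rfl⟩
    have hP : ∏ j, w j ∈ PX.Om k x (Fin.castLE hmn i) ⊔ k⟮∏ j, w j⟯ :=
      (le_sup_right : k⟮∏ j, w j⟯ ≤ _) (mem_adjoin_simple_self k _)
    by_cases hj : j = Fin.castLE hmn i
    · rw [hj, ← hy i, hyi, hwi]
      exact pow_mem (sub_mem (pow_mem (div_mem hP ((le_sup_left : PX.Om k x _ ≤ _) hprod)) _)
        (one_mem _)) _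
    · exact (le_sup_left : PX.Om k x _ ≤ _) (PX.x_mem_Om hj)

/-- stability of `k(P)` -/
theorem simple_stable {P : K} {g : Gal(K/k)} {χ : k} (h : g⁻¹ P = algebraMap k K χ * P) :
    ∀ z ∈ k⟮P⟯, g⁻¹ z ∈ k⟮P⟯ := by
  have h1 : k⟮P⟯ ≤ k⟮P⟯.comap ((g⁻¹ : Gal(K/k)) : K →ₐ[k] K) := by
    rw [adjoin_simple_le_iff]
    change g⁻¹ P ∈ k⟮P⟯
    rw [h]
    exact mul_mem (IntermediateField.algebraMap_mem _ _) (mem_adjoin_simple_self k _)
  exact fun z hz => h1 hz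

/-- automorphisms over finitely many `[u]` which move the `q`-th roots of `R(P)` -/
theorem exists_D [IsAlgClosed k] [IsAlgClosed K] (hx : IsTranscendenceBasis k x) (p : ℕ)
    [ExpChar k p] (hℓ : 2 ≤ ℓ) (hℓp : Nat.Coprime ℓ p) (hN : N.Prime)
    (hNp : Nat.Coprime N p) {q : ℕ} (hq : q.Prime) (hqp : Nat.Coprime q p) (hqN : q ≠ N)
    (hy : ∀ j, y j ^ ℓ = x (Fin.castLE hmn j)) (hw : ∀ j, w j ^ N = 1 + y j) {r : ℕ}
    (hr : r < m) (S : Finset {t : Fin r → K // ∀ i, t i ∈ ALG.M k x r (0 + 1)})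
    (R : k[X]) (hR : Good q N R) :
    ∃ g ∈ (adjoin k (Set.range x)).fixingSubgroup, g ∈ (k⟮∏ j, w j⟯).fixingSubgroup ∧
      (∀ t ∈ S, g ∈ (ALG.bracket (k := k) t.1).fixingSubgroup) ∧
      ∀ z : K, z ^ q = aeval (∏ j, w j) R → g z ≠ z := by
  classical
  set F := adjoin k (Set.range x) with hF
  set P := ∏ j, w j with hP
  let i₀ : Fin m := ⟨0, by omega⟩
  obtain ⟨hPn, hFP⟩ := P_notMem hmn hx (by omega : 1 ≤ ℓ) hN.one_le hy hw i₀
  rw [← hP] at hPn hFP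
  set Ω := PX.Om k x (Fin.castLE hmn i₀) with hΩ
  have hPac : P ∉ ALG.ac Ω := by rw [hΩ, PX.ac_Om]; exact hPn
  have htop : ALG.ac (Ω ⊔ k⟮P⟯) = ⊤ := by
    rw [eq_top_iff, ← ALG.ac_top_of_basis hx]
    exact ALG.ac_mono hFP
  have htr : ∀ R : k[X], R ≠ 0 → aeval P R ≠ 0 := by
    intro R hR h
    apply hPac
    rw [ALG.mem_ac]
    exact IsAlgebraic.tower_top (L := Ω) (⟨R, hR, h⟩ : IsAlgebraic k P)
  exact iter_mul F.fixingSubgroup (q := q) hq.one_le k⟮P⟯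
    (P := {R : k[X] // Good q N R}) (fun R => aeval P R.1)
    (fun R => ALG.aeval_mem_simple P R.1) (fun R => htr _ R.2.1)
    (fun t : {t : Fin r → K // ∀ i, t i ∈ ALG.M k x r (0 + 1)} => ALG.bracket (k := k) t.1)
    (fun t ν hν z hz => ALG.bracket_stable t.2 hν hz) S
    (fun t _ => by
      obtain ⟨g, hgF, hgu, χ, hχN, hχ1, hgP⟩ := exists_g hmn hx p hℓ
        (fun a => Nat.Coprime.pow_right a hℓp) hN.two_le (fun a => Nat.Coprime.pow_right a hNp)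
        hy hw hr t.1 t.2
      rw [← hP] at hgP
      refine ⟨g, hgF, hgu, simple_stable hgP, fun R => ?_⟩
      refine ⟨⟨rot χ R.1 * R.1 ^ (q - 1), R.2.step hq hN hqN hχN hχ1⟩, ?_⟩
      change aeval P (rot χ R.1 * R.1 ^ (q - 1)) = g⁻¹ (aeval P R.1) * aeval P R.1 ^ (q - 1)
      rw [map_mul, map_pow, rot, aeval_comp]
      congr 1
      have h1 : aeval P (C χ * X) = g⁻¹ P := by
        rw [hgP, map_mul, aeval_C, aeval_X]
      rw [h1]
      exact aeval_algHom_apply ((g⁻¹ : Gal(K/k)) : K →ₐ[k] K) P R.1)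
    (fun R => by
      obtain ⟨a, ha⟩ := R.2.exists_not_dvd
      obtain ⟨g, hgΩ, hgP, hgz⟩ := exists_kummer_mover p (q := q) hq.one_le
        (fun a => Nat.Coprime.pow_right a hqp) Ω hPac htop R.1 R.2.1 a ha
      refine ⟨g, ?_, ?_, hgz⟩
      · refine fixingSubgroup_antitone hFP ?_
        rw [fixingSubgroup_sup, Subgroup.mem_inf]
        exact ⟨hgΩ, ALG.mem_fs_adjoin.2 (by rintro _ rfl; exact hgP)⟩
      · exact ALG.mem_fs_adjoin.2 (by rintro _ rfl; exact hgP)) ⟨R, hR⟩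

/-- the radical case -/
theorem main_mul [IsAlgClosed k] [IsAlgClosed K] (hx : IsTranscendenceBasis k x) (p : ℕ)
    [ExpChar k p] (hℓ : 2 ≤ ℓ) (hℓp : Nat.Coprime ℓ p) (hN : N.Prime)
    (hNp : Nat.Coprime N p) {q : ℕ} (hq : q.Prime) (hqp : Nat.Coprime q p) (hqN : q ≠ N)
    (hy : ∀ j, y j ^ ℓ = x (Fin.castLE hmn j)) (hw : ∀ j, w j ^ N = 1 + y j) {r : ℕ}
    (hr : r < m) (R : k[X]) (hR : Good q N R) {e : K} (he : e ^ q = aeval (∏ j, w j) R) :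
    e ∉ ALG.M k x r 2 := by
  classical
  intro hem
  rw [ALG.M] at hem
  obtain ⟨S, hS⟩ := exists_finset_of_mem_iSup hem
  obtain ⟨g, -, -, hgS, hgz⟩ := exists_D hmn hx p hℓ hℓp hN hNp hq hqp hqN hy hw hr S R hR
  apply hgz e he
  have h1 : g ∈ (⨆ t ∈ S, ALG.bracket (k := k) t.1).fixingSubgroup :=
    ALG.fs_iSup_aux S (fun t : {t : Fin r → K // ∀ i, t i ∈ ALG.M k x r (0 + 1)} =>
      ALG.bracket (k := k) t.1) hgS
  exact ALG.mem_fs.1 h1 _ hS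

/-- the Artin-Schreier case -/
theorem main_add [IsAlgClosed k] [IsAlgClosed K] (hx : IsTranscendenceBasis k x) (p : ℕ)
    [Fact p.Prime] [CharP k p] [CharP K p] (hℓ : 2 ≤ ℓ) (hℓp : Nat.Coprime ℓ p) (hN : 2 ≤ N)
    (hNp : Nat.Coprime N p) (hy : ∀ j, y j ^ ℓ = x (Fin.castLE hmn j))
    (hw : ∀ j, w j ^ N = 1 + y j) {r : ℕ} (hr : r < m) {θ : k} (hθ : θ ≠ 0) {e : K}
    (he : e ^ p - e = algebraMap k K θ * ∏ j, w j) : e ∉ ALG.M k x r 2 := by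
  classical
  haveI : ExpChar k p := ExpChar.prime Fact.out
  intro hem
  set F := adjoin k (Set.range x) with hF
  rw [ALG.M] at hem
  obtain ⟨S, hS⟩ := exists_finset_of_mem_iSup hem
  set P := ∏ j, w j with hP
  let i₀ : Fin m := ⟨0, by omega⟩
  obtain ⟨hPn, hFP⟩ := P_notMem hmn hx (by omega : 1 ≤ ℓ) (by omega : 1 ≤ N) hy hw i₀
  rw [← hP] at hPn hFP
  set Ω := PX.Om k x (Fin.castLE hmn i₀) with hΩ
  have htop : ALG.ac (Ω ⊔ k⟮P⟯) = ⊤ := by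
    rw [eq_top_iff, ← ALG.ac_top_of_basis hx]
    exact ALG.ac_mono hFP
  obtain ⟨g, hgF, -, hgS, hgz⟩ := iter_add F.fixingSubgroup p k⟮P⟯
    (P := {θ : k // θ ≠ 0}) (fun θ => algebraMap k K θ.1 * P)
    (fun θ => mul_mem (IntermediateField.algebraMap_mem _ _) (mem_adjoin_simple_self k P))
    (fun t : {t : Fin r → K // ∀ i, t i ∈ ALG.M k x r (0 + 1)} => ALG.bracket (k := k) t.1)
    (fun t ν hν z hz => ALG.bracket_stable t.2 hν hz) S
    (fun t _ => by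
      obtain ⟨g, hgF, hgu, χ, hχN, hχ1, hgP⟩ := exists_g hmn hx p hℓ
        (fun a => Nat.Coprime.pow_right a hℓp) hN (fun a => Nat.Coprime.pow_right a hNp)
        hy hw hr t.1 t.2
      rw [← hP] at hgP
      refine ⟨g, hgF, hgu, simple_stable hgP, fun θ => ?_⟩
      refine ⟨⟨(χ - 1) * θ.1, mul_ne_zero (sub_ne_zero.2 hχ1) θ.2⟩, ?_⟩
      change algebraMap k K ((χ - 1) * θ.1) * P =
        g⁻¹ (algebraMap k K θ.1 * P) - algebraMap k K θ.1 * P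
      rw [map_mul (g⁻¹ : Gal(K/k)), AlgEquiv.commutes, hgP, map_mul, map_sub, map_one]
      ring)
    (fun θ => by
      obtain ⟨z, hz⟩ := PX.exists_as (L := K) p (algebraMap k K θ.1 * P)
      obtain ⟨g, hgΩ, hgP, hgz⟩ := PX.exists_as_mover p Ω (PX.ac_Om _) hPn htop θ.2 hz
      refine ⟨g, ?_, ?_, ?_⟩
      · refine fixingSubgroup_antitone hFP ?_
        rw [fixingSubgroup_sup, Subgroup.mem_inf]
        exact ⟨hgΩ, ALG.mem_fs_adjoin.2 (by rintro _ rfl; exact hgP)⟩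
      · exact ALG.mem_fs_adjoin.2 (by rintro _ rfl; exact hgP)
      · intro z' hz' h
        obtain ⟨c, hc, -⟩ := PX.exists_const_sub (k := k) p hz' hz
        rw [hc, map_add, hgz, AlgEquiv.commutes] at h
        exact one_ne_zero (α := K) (by linear_combination h)) ⟨θ, hθ⟩
  apply hgz e he
  have h1 : g ∈ (⨆ t ∈ S, ALG.bracket (k := k) t.1).fixingSubgroup :=
    ALG.fs_iSup_aux S (fun t : {t : Fin r → K // ∀ i, t i ∈ ALG.M k x r (0 + 1)} =>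
      ALG.bracket (k := k) t.1) hgS
  exact ALG.mem_fs.1 h1 _ hS

end RS
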