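import Pool.Agent.H20.RS.Interp
import Pool.Agent.H20.RS.Fin

/-!
`k(P)` is algebraically closed in `Ω(P)`.
-/

set_option linter.style.haveILetI false

namespace RS

open Polynomial IntermediateField

variable {k K : Type*} [Field k] [Field K] [Algebra k K]

open IntermediateField.algebraAdjoinAdjoin in
/-- an algebraic relation over `k(P)` with polynomial coefficients -/
theorem exists_relation {P v : K} (h : IsAlgebraic k⟮P⟯ v) :
    ∃ (d : ℕ) (φ : ℕ → k[X]), aeval P (φ d) ≠ 0 ∧
      ∑ i ∈ Finset.range (d + 1), aeval P (φ i) * v ^ i = 0 := by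
  have h1 : IsAlgebraic (Algebra.adjoin k {P}) v := by
    have h2 : IsAlgebraic (adjoin k ({P} : Set K)) v := h
    rwa [← IsFractionRing.isAlgebraic_iff (Algebra.adjoin k ({P} : Set K))] at h2
  obtain ⟨f, hf, hfv⟩ := h1
  have h4 : ∀ w ∈ Algebra.adjoin k ({P} : Set K), ∃ φ : k[X], aeval P φ = w := by
    intro w hw
    rw [Algebra.adjoin_singleton_eq_range_aeval] at hw
    exact hw
  have hc : ∀ i, ∃ φ : k[X], aeval P φ = ((f.coeff i : Algebra.adjoin k ({P} : Set K)) : K) :=
    fun i => h4 _ (f.coeff i).2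
  choose φ hφ using hc
  refine ⟨f.natDegree, φ, ?_, ?_⟩
  · rw [hφ]
    intro h0
    apply hf
    rw [← leadingCoeff_eq_zero]
    exact Subtype.ext h0
  · rw [aeval_eq_sum_range] at hfv
    rw [← hfv]
    apply Finset.sum_congr rfl
    intro i _
    rw [hφ]
    rfl

/-- `k(P)` is algebraically closed in `Ω(P)` -/
theorem mem_simple_of_mem_sup [IsAlgClosed k] {Ω : IntermediateField k K} {P v : K}
    (hP : P ∉ ALG.ac Ω) (hv : v ∈ Ω ⊔ k⟮P⟯) (halg : IsAlgebraic k⟮P⟯ v) : v ∈ k⟮P⟯ := by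
  have hle : Ω ⊔ k⟮P⟯ ≤ Ω⟮P⟯.restrictScalars k := by
    refine sup_le ?_ ?_
    · intro x hx
      rw [mem_restrictScalars]
      exact _root_.algebraMap_mem Ω⟮P⟯ (⟨x, hx⟩ : Ω)
    · rw [adjoin_simple_le_iff, mem_restrictScalars]
      exact mem_adjoin_simple_self Ω P
  have hv2 : v ∈ Ω⟮P⟯ := hle hv
  rw [mem_adjoin_simple_iff] at hv2
  obtain ⟨A, B, hAB⟩ := hv2
  have htr : Transcendental Ω P := ALG.tr_of_notMem hP
  have hinj := transcendental_iff_injective.1 htr
  by_cases hB0 : aeval P B = 0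
  · rw [hB0, div_zero] at hAB
    rw [hAB]; exact zero_mem _
  have hB : B ≠ 0 := by rintro rfl; exact hB0 (map_zero _)
  obtain ⟨d, φ, hφd, hφ⟩ := exists_relation halg
  have hrel : ∑ i ∈ Finset.range (d + 1), (φ i).map (algebraMap k Ω) * A ^ i * B ^ (d - i) = 0 := by
    apply hinj
    rw [map_sum, map_zero]
    have h1 : (∑ i ∈ Finset.range (d + 1), aeval P (φ i) * v ^ i) * aeval P B ^ d = 0 := by
      rw [hφ, zero_mul]
    rw [← h1, Finset.sum_mul]
    apply Finset.sum_congr rfl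
    intro i hi
    rw [Finset.mem_range] at hi
    rw [map_mul, map_mul, map_pow, map_pow, aeval_map_algebraMap, hAB, div_pow]
    have h2 : aeval P B ^ d = aeval P B ^ i * aeval P B ^ (d - i) := by
      rw [← pow_add]; congr 1; omega
    rw [h2]
    field_simp
  obtain ⟨A₀, B₀, hB₀, h0⟩ := exists_descent A B hB d φ (by
    intro h; rw [h, map_zero] at hφd; exact hφd rfl) hrel
  have hB₀P : aeval P B₀ ≠ 0 := by
    intro h
    have h1 : aeval P (B₀.map (algebraMap k Ω)) = aeval P (0 : Polynomial Ω) := by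
      rw [aeval_map_algebraMap, h, map_zero]
    exact (Polynomial.map_ne_zero_iff (algebraMap k Ω).injective).2 hB₀ (hinj h1)
  have h1 := congrArg (aeval P) h0
  rw [map_mul, map_mul, aeval_map_algebraMap, aeval_map_algebraMap] at h1
  have h2 : v = aeval P A₀ / aeval P B₀ := by
    rw [hAB, div_eq_div_iff hB0 hB₀P, h1]
  rw [h2]
  exact div_mem (ALG.aeval_mem_simple P A₀) (ALG.aeval_mem_simple P B₀)

end RS
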