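import Pool.Agent.H20.RS.Dcl

/-!
Stability of `dcl d F`, and powers which fix given elements of it; rotations over `dcl d k(x)`.
-/

set_option linter.style.haveILetI false

namespace RS

open Polynomial IntermediateField

variable {k K : Type*} [Field k] [Field K] [Algebra k K]

/-- closedness in terms of polynomials over `K` -/
theorem root_mem_of_coeff {L : IntermediateField k K} {d : ℕ}
    (hL : ∀ f : L[X], f ≠ 0 → f.natDegree ≤ d → ∀ z : K, aeval z f = 0 → z ∈ L) {f : K[X]}
    (hf : f ≠ 0) (hd : f.natDegree ≤ d) (hc : ∀ i, f.coeff i ∈ L) {z : K} (hz : f.eval z = 0) :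
    z ∈ L := by
  have h1 : f ∈ lifts (algebraMap L K) := by
    rw [lifts_iff_coeff_lifts]
    exact fun i => ⟨⟨f.coeff i, hc i⟩, rfl⟩
  obtain ⟨g, hg⟩ := (mem_lifts f).1 h1
  refine hL g ?_ ?_ z ?_
  · rintro rfl
    rw [Polynomial.map_zero] at hg
    exact hf hg.symm
  · rw [← natDegree_map (algebraMap L K) (p := g), hg]
    exact hd
  · rw [aeval_def, ← eval_map, hg, hz]

theorem closed_of_root {L : IntermediateField k K} {d : ℕ}
    (hL : ∀ f : K[X], f ≠ 0 → f.natDegree ≤ d → (∀ i, f.coeff i ∈ L) → ∀ z : K, f.eval z = 0 →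
      z ∈ L) : ∀ f : L[X], f ≠ 0 → f.natDegree ≤ d → ∀ z : K, aeval z f = 0 → z ∈ L := by
  intro f hf hd z hz
  refine hL (f.map (algebraMap L K)) ((Polynomial.map_ne_zero_iff (algebraMap L K).injective).2 hf)
    (by rwa [natDegree_map]) (fun i => ?_) z (by rw [eval_map, ← aeval_def, hz])
  rw [coeff_map]
  exact (f.coeff i).2

/-- `dcl d F` is closed -/
theorem dcl_root {d : ℕ} {F : IntermediateField k K} {f : K[X]} (hf : f ≠ 0)
    (hd : f.natDegree ≤ d) (hc : ∀ i, f.coeff i ∈ dcl d F) {z : K} (hz : f.eval z = 0) :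
    z ∈ dcl d F := by
  rw [dcl, mem_sInf]
  intro L hL
  refine root_mem_of_coeff hL.2 hf hd (fun i => ?_) hz
  exact (sInf_le hL : dcl d F ≤ L) (hc i)

/-- `dcl d F` is stable -/
theorem dcl_stable {d : ℕ} {F : IntermediateField k K} {g : Gal(K/k)} (hg : g ∈ F.fixingSubgroup)
    {z : K} (hz : z ∈ dcl d F) : g z ∈ dcl d F := by
  have h1 : dcl d F ≤ (dcl d F).comap (g : K →ₐ[k] K) := by
    apply dcl_le
    · intro v hv
      change g v ∈ dcl d F
      rw [ALG.mem_fs.1 hg v hv]
      exact le_dcl d F hv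
    · apply closed_of_root
      intro f hf hd hc v hv
      change g v ∈ dcl d F
      refine dcl_root (f := f.map ((g : K →ₐ[k] K) : K →+* K))
        ((Polynomial.map_ne_zero_iff ((g : K →ₐ[k] K) : K →+* K).injective).2 hf)
        (by rwa [natDegree_map]) (fun i => ?_) ?_
      · rw [coeff_map]
        exact hc i
      · have h2 := eval₂_hom (p := f) ((g : K →ₐ[k] K) : K →+* K) v
        rw [hv, map_zero] at h2
        rw [eval_map]
        exact h2
  exact h1 hz

/-- pigeonhole on a finite stable set -/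
theorem pow_factorial_fix {h : Gal(K/k)} {R : Finset K} (hR : ∀ z ∈ R, h z ∈ R) {d : ℕ}
    (hd : R.card ≤ d) {z : K} (hz : z ∈ R) : (h ^ d.factorial) z = z := by
  have hpow : ∀ i : ℕ, (h ^ i) z ∈ R := by
    intro i
    induction i with
    | zero => exact hz
    | succ i ih => rw [pow_succ', AlgEquiv.mul_apply]; exact hR _ ih
  obtain ⟨i, hi, j, hj, hij, he⟩ := Finset.exists_ne_map_eq_of_card_lt_of_maps_to
    (s := Finset.range (R.card + 1)) (t := R) (by rw [Finset.card_range]; omega)
    (f := fun i => (h ^ i) z) (fun i _ => hpow i)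
  have key : ∀ i j : ℕ, i < j → j ≤ d → (h ^ i) z = (h ^ j) z → (h ^ d.factorial) z = z := by
    intro i j hij hjd he
    have h1 : (h ^ (j - i)) z = z := by
      have h2 : (h ^ i) ((h ^ (j - i)) z) = (h ^ i) z := by
        rw [← AlgEquiv.mul_apply, ← pow_add, he]
        congr 2
        omega
      exact (h ^ i).injective h2
    obtain ⟨c, hc⟩ : j - i ∣ d.factorial := Nat.dvd_factorial (by omega) (by omega)
    rw [hc, pow_mul]
    have h3 : h ^ (j - i) ∈ MulAction.stabilizer Gal(K/k) z := h1
    exact pow_mem h3 c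
  rw [Finset.mem_range] at hi hj
  rcases lt_or_gt_of_ne hij with h1 | h1
  · exact key i j h1 (by omega) he
  · exact key j i h1 (by omega) he.symm

/-- some smooth power of every automorphism fixes a given element of `dcl d F` -/
theorem exists_pow_fix {d : ℕ} {F : IntermediateField k K} {z : K} (hz : z ∈ dcl d F) :
    ∃ e, Smooth d e ∧ ∀ g ∈ F.fixingSubgroup, (g ^ e) z = z := by
  have hup : ∀ {g : Gal(K/k)} {z : K} {e : ℕ}, (g ^ e) z = z → ∀ c, (g ^ (e * c)) z = z := by
    intro g z e h c
    rw [pow_mul]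
    have h3 : g ^ e ∈ MulAction.stabilizer Gal(K/k) z := h
    exact pow_mem h3 c
  have hup' : ∀ {g : Gal(K/k)} {z : K} {e : ℕ}, (g ^ e) z = z → ∀ c, (g ^ (c * e)) z = z := by
    intro g z e h c
    rw [mul_comm]
    exact hup h c
  let L₀ : IntermediateField k K :=
    { carrier := {z | ∃ e, Smooth d e ∧ ∀ g ∈ F.fixingSubgroup, (g ^ e) z = z}
      mul_mem' := by
        rintro a b ⟨e, he, h⟩ ⟨e', he', h'⟩
        refine ⟨e * e', he.mul he', fun g hg => ?_⟩
        rw [map_mul, hup (h g hg), hup' (h' g hg)]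
      one_mem' := ⟨1, Smooth.one d, fun g _ => map_one _⟩
      add_mem' := by
        rintro a b ⟨e, he, h⟩ ⟨e', he', h'⟩
        refine ⟨e * e', he.mul he', fun g hg => ?_⟩
        rw [map_add, hup (h g hg), hup' (h' g hg)]
      zero_mem' := ⟨1, Smooth.one d, fun g _ => map_zero _⟩
      algebraMap_mem' := fun c => ⟨1, Smooth.one d, fun g _ => AlgEquiv.commutes _ c⟩
      inv_mem' := by
        rintro a ⟨e, he, h⟩
        exact ⟨e, he, fun g hg => by rw [map_inv₀, h g hg]⟩ }
  have hL₀ : ∀ z, z ∈ L₀ ↔ ∃ e, Smooth d e ∧ ∀ g ∈ F.fixingSubgroup, (g ^ e) z = z :=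
    fun z => Iff.rfl
  have h1 : dcl d F ≤ L₀ := by
    apply dcl_le
    · intro v hv
      refine (hL₀ v).2 ⟨1, Smooth.one d, fun g hg => ?_⟩
      rw [pow_one]
      exact ALG.mem_fs.1 hg v hv
    · apply closed_of_root
      intro f hf hd hc v hv
      classical
      choose e he hef using hc
      set c := ∏ i ∈ Finset.range (f.natDegree + 1), e i with hc'
      have hcs : Smooth d c := by
        rw [hc']
        induction Finset.range (f.natDegree + 1) using Finset.induction_on with
        | empty => exact Smooth.one d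
        | insert i S hi ih => rw [Finset.prod_insert hi]; exact (he i).mul ih
      refine (hL₀ v).2 ⟨c * d.factorial, hcs.mul (Smooth.factorial d), fun g hg => ?_⟩
      rw [pow_mul]
      refine pow_factorial_fix (R := f.roots.toFinset) (fun z hz => ?_) ?_ ?_
      · rw [Multiset.mem_toFinset, mem_roots hf] at hz ⊢
        have h2 : f.map (((g ^ c : Gal(K/k)) : K →ₐ[k] K) : K →+* K) = f := by
          ext i
          rw [coeff_map]
          by_cases hi : i ≤ f.natDegree
          · obtain ⟨c', hc''⟩ : e i ∣ c := Finset.dvd_prod_of_mem e (Finset.mem_range.2 (by omega))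
            change (g ^ c) (f.coeff i) = f.coeff i
            rw [hc'']
            exact hup (hef i g hg) c'
          · rw [coeff_eq_zero_of_natDegree_lt (by omega), map_zero]
        have h3 := eval₂_hom (p := f) (((g ^ c : Gal(K/k)) : K →ₐ[k] K) : K →+* K) z
        have hz' : f.eval z = 0 := hz
        rw [hz', map_zero, ← eval_map, h2] at h3
        exact h3
      · exact (Multiset.toFinset_card_le _).trans ((card_roots' f).trans hd)
      · rw [Multiset.mem_toFinset, mem_roots hf]
        exact hv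
  exact (hL₀ z).1 (h1 hz)

/-- the same for finitely many elements -/
theorem exists_pow_fix_fin {d : ℕ} {F : IntermediateField k K} {r : ℕ} {u : Fin r → K}
    (hu : ∀ i, u i ∈ dcl d F) :
    ∃ e, Smooth d e ∧ ∀ g ∈ F.fixingSubgroup, ∀ i, (g ^ e) (u i) = u i := by
  classical
  choose e he hef using fun i => exists_pow_fix (hu i)
  refine ⟨∏ i, e i, ?_, fun g hg i => ?_⟩
  · induction (Finset.univ : Finset (Fin r)) using Finset.induction_on with
    | empty => exact Smooth.one d
    | insert i S hi ih => rw [Finset.prod_insert hi]; exact (he i).mul ih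
  · obtain ⟨c, hc⟩ : e i ∣ ∏ i, e i := Finset.dvd_prod_of_mem e (Finset.mem_univ i)
    rw [hc, pow_mul]
    have h3 : g ^ e i ∈ MulAction.stabilizer Gal(K/k) (u i) := hef i g hg
    exact pow_mem h3 c

/-- prime-to-`N` powers still move `N`-th roots -/
theorem pow_moves [IsAlgClosed k] {g : Gal(K/k)} {N e : ℕ} (hN : 1 ≤ N)
    (he : Nat.Coprime e N) {z : K} (hzN : g (z ^ N) = z ^ N) (hgz : g z ≠ z) :
    (g ^ e) z ≠ z := by
  intro h
  apply hgz
  have hz0 : z ≠ 0 := by
    rintro rfl
    exact hgz (map_zero g)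
  obtain ⟨ζ, hζ⟩ := ALG.exists_algebraMap_of_pow (k := k) (a := g z) (b := z) N hN
    (by rw [← map_pow, hzN])
  have hζN : ζ ^ N = 1 := by
    apply (algebraMap k K).injective
    have h1 : (g z) ^ N = z ^ N := by rw [← map_pow, hzN]
    rw [hζ, mul_pow] at h1
    rw [map_pow, map_one]
    exact mul_right_cancel₀ (pow_ne_zero N hz0) (by rw [h1, one_mul])
  have hpow : ∀ i : ℕ, (g ^ i) z = algebraMap k K (ζ ^ i) * z := by
    intro i
    induction i with
    | zero => simp
    | succ i ih =>
      rw [pow_succ', AlgEquiv.mul_apply, ih, map_mul, AlgEquiv.commutes, hζ, pow_succ, map_mul]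
      ring
  have hgN : g ^ N ∈ MulAction.stabilizer Gal(K/k) z := by
    change (g ^ N) z = z
    rw [hpow, hζN, map_one, one_mul]
  have hge : g ^ e ∈ MulAction.stabilizer Gal(K/k) z := h
  obtain ⟨a, b, hab⟩ : IsCoprime (e : ℤ) (N : ℤ) := Nat.isCoprime_iff_coprime.2 he
  have h4 : g = (g ^ e) ^ a * (g ^ N) ^ b := by
    rw [← zpow_natCast, ← zpow_natCast, ← zpow_mul, ← zpow_mul, ← zpow_add]
    have h5 : (e : ℤ) * a + N * b = 1 := by linear_combination hab
    rw [h5, zpow_one]
  have h5 : g ∈ MulAction.stabilizer Gal(K/k) z := by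
    rw [h4]
    exact mul_mem (zpow_mem hge a) (zpow_mem hgN b)
  exact h5

end RS
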