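import Pool.Agent.H20.RS.Main

/-!
Existence of the embedding, and the group over `M_r^2`.
-/

set_option linter.style.haveILetI false

namespace RS

open Polynomial IntermediateField

variable {k K : Type*} [Field k] [Field K] [Algebra k K]
variable {m n : ℕ} {x : Fin n → K} {y w : Fin m → K} (hmn : m ≤ n) {ℓ N : ℕ}

/-- the radicals lie in `M_r^2` -/
theorem w_mem_M (r : ℕ) (hr : 1 ≤ r) (hℓ : 1 ≤ ℓ) (hN : 1 ≤ N)
    (hy : ∀ j, y j ^ ℓ = x (Fin.castLE hmn j)) (hw : ∀ j, w j ^ N = 1 + y j) (j : Fin m) :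
    w j ∈ ALG.M k x r 2 := by
  apply ALG.bracket_le_M r 0 (fun _ : Fin r => x (Fin.castLE hmn j))
  · intro _
    exact subset_adjoin k _ ⟨_, rfl⟩
  · rw [ALG.bracket_eq]
    have hyac : y j ∈ ALG.ac (adjoin k (Set.range (fun _ : Fin r => x (Fin.castLE hmn j)))) := by
      apply ALG.root_mem_ac hℓ
      rw [hy]
      exact subset_adjoin k _ ⟨⟨0, hr⟩, rfl⟩
    have h1 : w j ∈ ALG.ac (ALG.ac (adjoin k (Set.range
        (fun _ : Fin r => x (Fin.castLE hmn j))))) := by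
      apply ALG.root_mem_ac hN
      rw [hw]
      exact add_mem (one_mem _) hyac
    rwa [ALG.ac_ac] at h1

theorem P_mem_M (r : ℕ) (hr : 1 ≤ r) (hℓ : 1 ≤ ℓ) (hN : 1 ≤ N)
    (hy : ∀ j, y j ^ ℓ = x (Fin.castLE hmn j)) (hw : ∀ j, w j ^ N = 1 + y j) :
    ∏ j, w j ∈ ALG.M k x r 2 := prod_mem (fun j _ => w_mem_M hmn r hr hℓ hN hy hw j)

theorem P_mem_ac (hℓ : 1 ≤ ℓ) (hN : 1 ≤ N)
    (hy : ∀ j, y j ^ ℓ = x (Fin.castLE hmn j)) (hw : ∀ j, w j ^ N = 1 + y j) :
    ∏ j, w j ∈ ALG.ac (adjoin k (Set.range (fun j => x (Fin.castLE hmn j)))) := by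
  apply prod_mem
  intro j _
  have hyac : y j ∈ ALG.ac (adjoin k (Set.range (fun j => x (Fin.castLE hmn j)))) := by
    apply ALG.root_mem_ac hℓ
    rw [hy]
    exact subset_adjoin k _ ⟨j, rfl⟩
  have h1 : w j ∈ ALG.ac (ALG.ac (adjoin k (Set.range (fun j => x (Fin.castLE hmn j))))) := by
    apply ALG.root_mem_ac hN
    rw [hw]
    exact add_mem (one_mem _) hyac
  rwa [ALG.ac_ac] at h1

/-- the field `M_r^2` is algebraic below `K` -/
theorem ac_M (hx : IsTranscendenceBasis k x) (r : ℕ) (hr : 1 ≤ r) :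
    ALG.ac (ALG.M k x r 2) = ⊤ := by
  rw [eq_top_iff, ← ALG.ac_top_of_basis hx]
  exact ALG.ac_mono (ALG.F_le_M r hr)

section

variable {E : Type*} [Field E] [Algebra k E] [Algebra (RatFunc k) E]
  [IsScalarTower k (RatFunc k) E] [FiniteDimensional (RatFunc k) E] [IsGalois (RatFunc k) E]

/-- an embedding with given image of `T` -/
theorem exists_tau [IsAlgClosed K] {t : K} (ht : Transcendental k t) :
    ∃ τ : E →ₐ[k] K, τ (algebraMap (RatFunc k) E RatFunc.X) = t := by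
  letI : Algebra (RatFunc k) K := (ev t ht).toRingHom.toAlgebra
  haveI : IsScalarTower k (RatFunc k) K :=
    IsScalarTower.of_algebraMap_eq (fun c => ((ev t ht).commutes c).symm)
  let τ₀ : E →ₐ[RatFunc k] K := IsAlgClosed.lift
  refine ⟨τ₀.restrictScalars k, ?_⟩
  change τ₀ (algebraMap (RatFunc k) E RatFunc.X) = t
  rw [τ₀.commutes]
  exact ev_X t ht

/-- the group over `M_r^2` -/
theorem group_of_disj [IsAlgClosed K] (hx : IsTranscendenceBasis k x) (p : ℕ) [ExpChar k p]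
    (r : ℕ) (hr : 1 ≤ r) (τ : E →ₐ[k] K)
    (hT : τ (algebraMap (RatFunc k) E RatFunc.X) ∈ ALG.M k x r 2)
    (hd : ∀ v : E, τ v ∈ ALG.M k x r 2 → v ∈ Set.range (algebraMap (RatFunc k) E))
    (σ : Gal(E/RatFunc k)) :
    ∃ g ∈ (ALG.M k x r 2).fixingSubgroup, ∀ v, τ (σ v) = g (τ v) := by
  haveI : ExpChar K p := expChar_of_injective_algebraMap (algebraMap k K).injective p
  haveI : ExpChar E p := expChar_of_injective_algebraMap (algebraMap k E).injective p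
  haveI : Algebra.IsAlgebraic (ALG.M k x r 2) K :=
    ⟨fun w => ALG.mem_ac.1 ((ac_M hx r hr) ▸ mem_top)⟩
  set A := (ALG.M k x r 2).fixingSubgroup with hA
  have hbot : fixedField (ind τ A) = ⊥ := by
    rw [eq_bot_iff]
    intro v hv
    rw [mem_fixedField_iff] at hv
    obtain ⟨a, ha⟩ := ALG.pow_mem_of_fixed p (ALG.M k x r 2) (z := τ v) (by
      intro g hg
      obtain ⟨σ, hσ⟩ := exists_sigma (F := RatFunc k) (τ : E →+* K) ((g : K →ₐ[k] K) : K →+* K)
        (fun f => ALG.mem_fs.1 hg _ (tau_mem τ hT f))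
      have hσ' : ∀ v, τ (σ v) = g (τ v) := hσ
      rw [← hσ', hv σ ⟨g, hg, hσ'⟩])
    rw [← map_pow] at ha
    obtain ⟨f, hf⟩ := hd _ ha
    rw [IsGalois.mem_bot_iff_fixed]
    intro σ
    apply iterateFrobenius_inj E p a
    rw [iterateFrobenius_def, iterateFrobenius_def, ← map_pow, ← hf, AlgEquiv.commutes]
  have htop : ind τ A = ⊤ := by
    rw [← fixingSubgroup_fixedField (ind τ A), hbot, fixingSubgroup_bot]
  have hσ : σ ∈ ind τ A := by rw [htop]; trivial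
  exact hσ

end

/-- MAIN THEOREM -/
theorem exists_embedding [IsAlgClosed k] [IsAlgClosed K] (hx : IsTranscendenceBasis k x) {r : ℕ}
    (hr : 1 ≤ r) (hrm : r < m) (E : Type*) [Field E] [Algebra k E] [Algebra (RatFunc k) E]
    [IsScalarTower k (RatFunc k) E] [FiniteDimensional (RatFunc k) E] [IsGalois (RatFunc k) E]
    [Group.IsSolvable Gal(E/RatFunc k)] :
    ∃ τ : E →ₐ[k] K, τ (algebraMap (RatFunc k) E RatFunc.X) ∈ ALG.M k x 1 2 ∧
      (∃ (ℓ N : ℕ) (c : k) (y w : Fin m → K), 2 ≤ ℓ ∧ 2 ≤ N ∧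
        (∀ j, y j ^ ℓ = x (Fin.castLE hmn j)) ∧ (∀ j, w j ^ N = 1 + y j) ∧
        τ (algebraMap (RatFunc k) E RatFunc.X) = algebraMap k K c + ∏ j, w j) ∧
      (∀ v : E, τ v ∈ ALG.M k x 1 3 ∧ τ v ∈ ALG.M k x m 2) ∧
      (∀ v : E, τ v ∈ ALG.M k x r 2 ↔ v ∈ Set.range (algebraMap (RatFunc k) E)) ∧
      ∀ σ : Gal(E/RatFunc k), ∃ g ∈ (ALG.M k x r 2).fixingSubgroup, ∀ v, τ (σ v) = g (τ v) := by
  classical
  obtain ⟨p, hp⟩ := ExpChar.exists k
  obtain ⟨ℓ, hℓ, hℓp⟩ : ∃ ℓ : ℕ, 2 ≤ ℓ ∧ Nat.Coprime ℓ p := by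
    by_cases h2 : p = 2
    · exact ⟨3, by norm_num, by rw [h2]; norm_num⟩
    · refine ⟨2, le_rfl, ?_⟩
      rcases hp with _ | hp'
      · norm_num
      · rw [Nat.coprime_primes Nat.prime_two hp']
        exact fun h => h2 h.symm
  obtain ⟨N₀, hN₀⟩ := main_galois (m := m) (E := E) hmn hx p
  obtain ⟨N, hNle, hN⟩ := Nat.exists_infinite_primes (max N₀ p + 1)
  have hNN : N₀ < N := by have := le_max_left N₀ p; omega
  have hNp' : p < N := by have := le_max_right N₀ p; omega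
  have hNp : Nat.Coprime N p := by
    rcases hp with _ | hp'
    · exact Nat.coprime_one_right _
    · rw [Nat.coprime_primes hN hp']
      omega
  have hyex : ∀ j : Fin m, ∃ y : K, y ^ ℓ = x (Fin.castLE hmn j) := fun j =>
    IsAlgClosed.exists_pow_nat_eq _ (by omega)
  choose y hy using hyex
  have hwex : ∀ j : Fin m, ∃ w : K, w ^ N = 1 + y j := fun j =>
    IsAlgClosed.exists_pow_nat_eq _ hN.pos
  choose w hw using hwex
  obtain ⟨c, hc⟩ := (hN₀ ℓ N hℓ hℓp hN hNp hNN).infinite_compl.nonempty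
  have hc' := not_not.1 hc y w hy hw r hrm
  have hP : Transcendental k (∏ j, w j) :=
    transcendental_P hmn hx (by omega) hN.one_le (by omega) hy hw
  have ht : Transcendental k (algebraMap k K c + ∏ j, w j) := by
    intro h
    apply hP
    have h1 := h.sub (isAlgebraic_algebraMap (R := k) (A := K) c)
    rwa [add_sub_cancel_left] at h1
  obtain ⟨τ, hτ⟩ := exists_tau (k := k) (K := K) (E := E) ht
  have hPM : ∀ s, 1 ≤ s → τ (algebraMap (RatFunc k) E RatFunc.X) ∈ ALG.M k x s 2 := by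
    intro s hs
    rw [hτ]
    exact add_mem (IntermediateField.algebraMap_mem _ _)
      (P_mem_M hmn s hs (by omega) hN.one_le hy hw)
  have hTP : τ (algebraMap (RatFunc k) E RatFunc.X) ∈ k⟮∏ j, w j⟯ := by
    rw [hτ]
    exact add_mem (IntermediateField.algebraMap_mem _ _) (mem_adjoin_simple_self k _)
  have hd := hc' τ hτ
  refine ⟨τ, hPM 1 le_rfl, ⟨ℓ, N, c, y, w, hℓ, hN.two_le, hy, hw, hτ⟩, fun v => ⟨?_, ?_⟩,
    fun v => ⟨hd v, ?_⟩,
    group_of_disj hx p r hr τ (hPM r hr) hd⟩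
  · apply ALG.bracket_le_M 1 1 (fun _ : Fin 1 => ∏ j, w j)
      (fun _ => P_mem_M hmn 1 le_rfl (by omega) hN.one_le hy hw)
    rw [ALG.bracket_eq]
    have h1 : τ v ∈ ALG.ac k⟮∏ j, w j⟯ := ALG.mem_ac.2 (isAlgebraic_tau τ hTP v)
    refine ALG.ac_mono ?_ h1
    rw [adjoin_simple_le_iff]
    exact subset_adjoin k _ ⟨0, rfl⟩
  · apply ALG.bracket_le_M m 0 (fun j => x (Fin.castLE hmn j))
      (fun j => subset_adjoin k _ ⟨_, rfl⟩)
    rw [ALG.bracket_eq]
    have h1 : τ v ∈ ALG.ac k⟮∏ j, w j⟯ := ALG.mem_ac.2 (isAlgebraic_tau τ hTP v)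
    refine ALG.ac_le ?_ h1
    rw [adjoin_simple_le_iff]
    exact P_mem_ac hmn (by omega) hN.one_le hy hw
  · rintro ⟨f, rfl⟩
    exact tau_mem τ (hPM r hr) f

end RS
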