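import Pool.Agent.H20.RS.Dcl

/-!
Algebraic independence from a valuation with independent values of the variables.
-/

set_option linter.style.haveILetI false

namespace RS

open MvPolynomial

/-- a vanishing sum of nonzero terms has two terms of equal value -/
theorem exists_val_eq_of_sum_eq_zero {ι K Γ₀ : Type*} [Field K]
    [LinearOrderedCommGroupWithZero Γ₀] (v : Valuation K Γ₀) (S : Finset ι) (hS : S.Nonempty)
    (T : ι → K) (hT : ∀ i ∈ S, T i ≠ 0) (h0 : ∑ i ∈ S, T i = 0) :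
    ∃ i ∈ S, ∃ j ∈ S, i ≠ j ∧ v (T i) = v (T j) := by
  classical
  obtain ⟨i₀, hi₀, hmax⟩ := S.exists_max_image (fun i => v (T i)) hS
  by_contra hcon
  push Not at hcon
  have h1 : T i₀ = -∑ i ∈ S.erase i₀, T i := by
    rw [← Finset.add_sum_erase S T hi₀] at h0
    linear_combination h0
  have h2 : v (∑ i ∈ S.erase i₀, T i) < v (T i₀) := by
    apply v.map_sum_lt ((v.ne_zero_iff).2 (hT i₀ hi₀))
    intro i hi
    have hi' := Finset.mem_erase.1 hi
    exact lt_of_le_of_ne (hmax i hi'.2) (hcon i hi'.2 i₀ hi₀ hi'.1)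
  have h3 : v (T i₀) = v (∑ i ∈ S.erase i₀, T i) := by
    conv_lhs => rw [h1]
    rw [Valuation.map_neg]
  exact absurd h3 (ne_of_gt h2)

/-- products of smooth numbers -/
theorem Smooth.prod {d : ℕ} {ι : Type*} (S : Finset ι) (c : ι → ℕ)
    (hc : ∀ i ∈ S, Smooth d (c i)) : Smooth d (∏ i ∈ S, c i) := by
  classical
  induction S using Finset.induction_on with
  | empty => simpa using Smooth.one d
  | insert i S hi ih =>
    rw [Finset.prod_insert hi]
    exact (hc i (Finset.mem_insert_self i S)).mul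
      (ih (fun j hj => hc j (Finset.mem_insert_of_mem hj)))

/-- algebraic independence of the Kummer generators, by values -/
theorem indep_of_kummer_val {k K : Type*} [Field k] [Field K] [Algebra k K] {m n : ℕ}
    {x : Fin n → K} (hx : AlgebraicIndependent k x) (B : ValuationSubring K)
    (hB1 : ∀ c : k, c ≠ 0 → B.valuation (algebraMap k K c) = 1)
    (hB2 : ∀ a b : MvPolynomial (Fin n) k, a ≠ 0 → b ≠ 0 →
      B.valuation (MvPolynomial.aeval x a) = B.valuation (MvPolynomial.aeval x b) →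
      (MonomialOrder.lex : MonomialOrder (Fin n)).degree a =
        (MonomialOrder.lex : MonomialOrder (Fin n)).degree b)
    (L : IntermediateField k K) (d : ℕ)
    (hsm : ∀ z ∈ L, z ≠ 0 → ∃ c : ℕ, Smooth d c ∧
      ∃ b ∈ IntermediateField.adjoin k (Set.range x), B.valuation z ^ c = B.valuation b)
    (e : Fin m → Fin n) (he : Function.Injective e) (ℓ : ℕ) (hℓ : ℓ.Prime) (hd : d < ℓ)
    (Q : Fin m → ℕ) (hQ : ∀ j, Nat.Coprime ℓ (Q j)) (g h : Fin m → K) (hh : ∀ j, h j ∈ L)
    (hg0 : ∀ j, g j ≠ 0) (hh0 : ∀ j, h j ≠ 0)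
    (heq : ∀ j, x (e j) ^ Q j = g j * h j ^ ℓ) : AlgebraicIndependent k g := by
  classical
  have hinj : Function.Injective (aeval x : MvPolynomial (Fin n) k →ₐ[k] K) :=
    algebraicIndependent_iff_injective_aeval.1 hx
  -- a common smooth exponent
  choose c₀ hc₀ b₀ hb₀ hcb₀ using fun j => hsm (h j) (hh j) (hh0 j)
  set c : ℕ := ∏ j, c₀ j with hc
  have hcs : Smooth d c := Smooth.prod _ _ (fun j _ => hc₀ j)
  have hcℓ : Nat.Coprime ℓ c := (hcs.coprime hℓ hd).symm
  have hb : ∀ j, ∃ b ∈ IntermediateField.adjoin k (Set.range x),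
      B.valuation (h j) ^ c = B.valuation b := by
    intro j
    refine ⟨b₀ j ^ (∏ i ∈ Finset.univ.erase j, c₀ i), pow_mem (hb₀ j) _, ?_⟩
    rw [map_pow, ← hcb₀ j, ← pow_mul, Finset.mul_prod_erase _ _ (Finset.mem_univ j)]
  choose b hbF hcb using hb
  choose A D hAD using fun j => (IntermediateField.mem_adjoin_range_iff k x (b j)).1 (hbF j)
  have hv0 : ∀ j, B.valuation (b j) ≠ 0 := by
    intro j
    rw [← hcb j]
    exact pow_ne_zero _ ((B.valuation.ne_zero_iff).2 (hh0 j))
  have hb0 : ∀ j, b j ≠ 0 := fun j => (B.valuation.ne_zero_iff).1 (hv0 j)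
  have hA0' : ∀ j, aeval x (A j) ≠ 0 := fun j hz => hb0 j (by rw [hAD, hz, zero_div])
  have hD0' : ∀ j, aeval x (D j) ≠ 0 := fun j hz => hb0 j (by rw [hAD, hz, div_zero])
  have hA0 : ∀ j, A j ≠ 0 := fun j hz => hA0' j (by rw [hz, map_zero])
  have hD0 : ∀ j, D j ≠ 0 := fun j hz => hD0' j (by rw [hz, map_zero])
  let E : Fin m → MvPolynomial (Fin n) k := fun j => X (e j) ^ (Q j * c) * D j ^ ℓ
  have hE0 : ∀ j, E j ≠ 0 := fun j =>
    mul_ne_zero (pow_ne_zero _ (X_ne_zero _)) (pow_ne_zero _ (hD0 j))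
  have hval : ∀ j, B.valuation (g j) ^ c * B.valuation (aeval x (A j)) ^ ℓ =
      B.valuation (aeval x (E j)) := by
    intro j
    have h1 : B.valuation (aeval x (A j)) =
        B.valuation (h j) ^ c * B.valuation (aeval x (D j)) := by
      rw [hcb j, hAD, ← map_mul, div_mul_cancel₀ _ (hD0' j)]
    have h2 : B.valuation (x (e j)) ^ (Q j * c) =
        B.valuation (g j) ^ c * (B.valuation (h j) ^ c) ^ ℓ := by
      rw [pow_mul, ← map_pow, heq j, map_mul, map_pow, mul_pow, ← pow_mul, ← pow_mul,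
        mul_comm ℓ c]
    simp only [E]
    rw [map_mul, map_pow, map_pow, map_mul, map_pow, map_pow, aeval_X, h2, h1, mul_pow,
      mul_assoc]
  rw [algebraicIndependent_iff]
  intro P hP
  by_contra hP0
  have hsum : ∑ α ∈ P.support, algebraMap k K (coeff α P) * ∏ j, g j ^ α j = 0 := by
    rw [← hP, aeval_def, eval₂_eq']
  have hcoef : ∀ α ∈ P.support, coeff α P ≠ 0 := fun α hα => mem_support_iff.1 hα
  obtain ⟨α, hα, β, hβ, hαβ, hv⟩ := exists_val_eq_of_sum_eq_zero B.valuation P.support (by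
    rw [Finset.nonempty_iff_ne_empty]; simpa using hP0)
    (fun α => algebraMap k K (coeff α P) * ∏ j, g j ^ α j)
    (fun α hα => mul_ne_zero ((map_ne_zero _).2 (hcoef α hα))
      (Finset.prod_ne_zero_iff.2 (fun j _ => pow_ne_zero _ (hg0 j)))) hsum
  rw [map_mul, map_mul, hB1 _ (hcoef α hα), hB1 _ (hcoef β hβ), one_mul, one_mul, map_prod,
    map_prod] at hv
  simp only [map_pow] at hv
  -- compare degrees
  have hkey : ∀ α : Fin m →₀ ℕ, ∀ β : Fin m →₀ ℕ,
      B.valuation (aeval x (∏ j, (E j ^ α j * A j ^ (ℓ * β j)))) =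
      (∏ j, B.valuation (g j) ^ α j) ^ c *
        ∏ j, B.valuation (aeval x (A j)) ^ (ℓ * (α j + β j)) := by
    intro α β
    rw [map_prod, map_prod, ← Finset.prod_pow, ← Finset.prod_mul_distrib]
    apply Finset.prod_congr rfl
    intro j _
    rw [map_mul, map_pow, map_pow, map_mul, map_pow, map_pow, ← hval j, mul_pow, ← pow_mul,
      ← pow_mul, ← pow_mul, mul_assoc, ← pow_add, mul_comm c (α j), ← mul_add]
  have hne : ∀ α β : Fin m →₀ ℕ, ∀ j ∈ (Finset.univ : Finset (Fin m)),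
      E j ^ α j * A j ^ (ℓ * β j) ≠ 0 := fun α β j _ =>
    mul_ne_zero (pow_ne_zero _ (hE0 j)) (pow_ne_zero _ (hA0 j))
  have hdeg := hB2 (∏ j, (E j ^ α j * A j ^ (ℓ * β j))) (∏ j, (E j ^ β j * A j ^ (ℓ * α j)))
    (Finset.prod_ne_zero_iff.2 (hne α β)) (Finset.prod_ne_zero_iff.2 (hne β α)) (by
      rw [hkey, hkey, hv]
      congr 1
      apply Finset.prod_congr rfl
      intro j _
      rw [add_comm])
  let mo : MonomialOrder (Fin n) := MonomialOrder.lex
  have hE : ∀ j, mo.degree (E j) = (Q j * c) • Finsupp.single (e j) 1 + ℓ • mo.degree (D j) := by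
    intro j
    simp only [E]
    rw [mo.degree_mul (pow_ne_zero _ (X_ne_zero _)) (pow_ne_zero _ (hD0 j)), mo.degree_pow,
      mo.degree_pow, mo.degree_X]
  have hdegT : ∀ α β : Fin m →₀ ℕ, mo.degree (∏ j, (E j ^ α j * A j ^ (ℓ * β j))) =
      ∑ j, (α j • ((Q j * c) • Finsupp.single (e j) 1 + ℓ • mo.degree (D j)) +
        (ℓ * β j) • mo.degree (A j)) := by
    intro α β
    rw [mo.degree_prod (hne α β)]
    apply Finset.sum_congr rfl
    intro j _
    rw [mo.degree_mul (pow_ne_zero _ (hE0 j)) (pow_ne_zero _ (hA0 j)), mo.degree_pow,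
      mo.degree_pow, hE]
  have hdeg' : mo.degree (∏ j, (E j ^ α j * A j ^ (ℓ * β j))) =
      mo.degree (∏ j, (E j ^ β j * A j ^ (ℓ * α j))) := hdeg
  rw [hdegT, hdegT] at hdeg'
  let ν : Fin m → Fin n → ℤ := fun j i => (if e j = i then ((Q j * c : ℕ) : ℤ) else 0) +
    ℓ * ((mo.degree (D j) i : ℤ) - (mo.degree (A j) i : ℤ))
  have hfin := ALG.eq_zero_of_descent e he ℓ hℓ.two_le (fun j => Q j * c)
    (fun j => Nat.Coprime.mul_right (hQ j) hcℓ) ν (fun j i => ⟨_, rfl⟩)
    (fun j => (α j : ℤ) - (β j : ℤ)) (by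
      intro i
      have h2 := congrArg (fun f : Fin n →₀ ℕ => ((f i : ℕ) : ℤ)) hdeg'
      simp only [Finsupp.coe_finsetSum, Finset.sum_apply, Finsupp.add_apply,
        Finsupp.smul_apply, Finsupp.single_apply, smul_eq_mul, Nat.cast_sum, Nat.cast_add,
        Nat.cast_mul, Nat.cast_ite, Nat.cast_zero, mul_ite, mul_one,
        mul_zero] at h2
      have h3 := sub_eq_zero.2 h2
      rw [← Finset.sum_sub_distrib] at h3
      rw [← h3]
      apply Finset.sum_congr rfl
      intro j _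
      simp only [ν]
      push_cast
      split_ifs <;> ring)
  apply hαβ
  ext j
  have h2 := hfin j
  omega

end RS
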