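import Pool.Agent.H20.RS.Sand
import Pool.Agent.H20.RS.ValEx
import Pool.Agent.H20.RS.DclVal
import Pool.Agent.H20.RS.IndepVal

/-!
The final theorem: every finite Galois extension of `k(T)` over `MD k x d r`, and towers.
-/

set_option linter.style.haveILetI false

namespace RS

open Polynomial IntermediateField

variable {k K : Type*} [Field k] [Field K] [Algebra k K]
variable {m n : ℕ} {x : Fin n → K} {y w : Fin m → K} (hmn : m ≤ n) {ℓ N : ℕ}

/-- the independence of the Kummer generators over `dcl d k(x)` -/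
theorem indep_dcl (hx : IsTranscendenceBasis k x) {d q : ℕ} (hq : q.Prime) (hdq : d < q)
    (hqℓ : q ∣ ℓ) : Indep k hmn x ℓ d := by
  obtain ⟨B, hB1, hB2⟩ := exists_val (k := k) hx.1
  intro Q g h hQ hh hg0 hh0 heq
  obtain ⟨c, rfl⟩ := hqℓ
  refine indep_of_kummer_val hx.1 B hB1 hB2 (dcl d (adjoin k (Set.range x))) d
    (fun z hz hz0 => exists_smooth_val d _ B.valuation hz hz0) (Fin.castLE hmn)
    (Fin.castLE_injective hmn) q hq hdq Q
    (fun j => Nat.Coprime.coprime_dvd_left (dvd_mul_right q c) (hQ j)) g (fun j => h j ^ c)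
    (fun j => pow_mem (hh j) c) hg0 (fun j => pow_ne_zero c (hh0 j)) (fun j => ?_)
  rw [heq, ← pow_mul, mul_comm c q]

end RS
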