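import Pool.Agent.H20.RS.Sb
import Pool.Agent.H20.RS.Dsc

/-!
Automorphisms over finitely many `[u]` which move Artin-Schreier elements over `k(P)`.
-/

set_option linter.style.haveILetI false

namespace RS

open Polynomial IntermediateField

variable {k K : Type*} [Field k] [Field K] [Algebra k K]

/-- values of rational functions at `P` are the elements of `k(P)` -/
theorem mem_simple_iff_ev {P : K} (hP : Transcendental k P) (z : K) :
    z ∈ k⟮P⟯ ↔ ∃ f : RatFunc k, ev P hP f = z := by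
  constructor
  · intro hz
    have h1 : k⟮P⟯ ≤ (ev P hP).fieldRange := by
      rw [adjoin_simple_le_iff]
      exact ⟨RatFunc.X, ev_X P hP⟩
    exact h1 hz
  · rintro ⟨f, rfl⟩
    rw [← RatFunc.num_div_denom f, map_div₀, ev_poly, ev_poly]
    exact div_mem (ALG.aeval_mem_simple _ _) (ALG.aeval_mem_simple _ _)

/-- `p`-power descent for Artin-Schreier elements -/
theorem as_descent (p : ℕ) [Fact p.Prime] [CharP K p] (L : IntermediateField k K) {z v : K}
    (hz : z ^ p - z = v) (hv : v ∈ L) (a : ℕ) (ha : z ^ p ^ a ∈ L) : z ∈ L := by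
  induction a with
  | zero => rwa [pow_zero, pow_one] at ha
  | succ a ih =>
    apply ih
    have h1 : (z ^ p - z) ^ p ^ a = z ^ p ^ (a + 1) - z ^ p ^ a := by
      rw [sub_pow_char_pow, ← pow_mul, ← pow_succ']
    have h2 : z ^ p ^ a = z ^ p ^ (a + 1) - v ^ p ^ a := by
      rw [← hz, h1]; ring
    rw [h2]
    exact sub_mem ha (pow_mem hv _)

variable {m n : ℕ} {x : Fin n → K} {y w : Fin m → K} (hmn : m ≤ n) {ℓ N : ℕ}

theorem transcendental_P [IsAlgClosed k] [IsAlgClosed K] (hx : IsTranscendenceBasis k x)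
    (hℓ : 1 ≤ ℓ) (hN : 1 ≤ N) (hm : 0 < m) (hy : ∀ j, y j ^ ℓ = x (Fin.castLE hmn j))
    (hw : ∀ j, w j ^ N = 1 + y j) : Transcendental k (∏ j, w j) := by
  intro h
  obtain ⟨hPn, -⟩ := P_notMem hmn hx hℓ hN hy hw ⟨0, hm⟩
  apply hPn
  rw [← PX.ac_Om, ALG.mem_ac]
  exact IsAlgebraic.tower_top (L := PX.Om k x (Fin.castLE hmn ⟨0, hm⟩)) h

/-- Artin-Schreier version of `exists_D` -/
theorem exists_D_add [IsAlgClosed k] [IsAlgClosed K] (hx : IsTranscendenceBasis k x) (p : ℕ)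
    [Fact p.Prime] [CharP k p] (hℓ : 2 ≤ ℓ) (hℓp : Nat.Coprime ℓ p) (hN : N.Prime)
    (hNp : Nat.Coprime N p) (hy : ∀ j, y j ^ ℓ = x (Fin.castLE hmn j))
    (hw : ∀ j, w j ^ N = 1 + y j) {r : ℕ} (hr : r < m)
    (S : Finset {t : Fin r → K // ∀ i, t i ∈ ALG.M k x r (0 + 1)})
    (hP : Transcendental k (∏ j, w j)) (f : RatFunc k) (hf : GoodA p N f) :
    ∃ g ∈ (adjoin k (Set.range x)).fixingSubgroup, g ∈ (k⟮∏ j, w j⟯).fixingSubgroup ∧
      (∀ t ∈ S, g ∈ (ALG.bracket (k := k) t.1).fixingSubgroup) ∧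
      ∀ z : K, z ^ p - z = ev (∏ j, w j) hP f → g z ≠ z := by
  classical
  haveI : ExpChar k p := ExpChar.prime Fact.out
  haveI : CharP K p := charP_of_injective_algebraMap (algebraMap k K).injective p
  set F := adjoin k (Set.range x) with hF
  set P := ∏ j, w j with hPdef
  let i₀ : Fin m := ⟨0, by omega⟩
  obtain ⟨hPn, hFP⟩ := P_notMem hmn hx (by omega : 1 ≤ ℓ) hN.one_le hy hw i₀
  rw [← hPdef] at hPn hFP
  set Ω := PX.Om k x (Fin.castLE hmn i₀) with hΩ
  have hPac : P ∉ ALG.ac Ω := by rw [hΩ, PX.ac_Om]; exact hPn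
  have htop : ALG.ac (Ω ⊔ k⟮P⟯) = ⊤ := by
    rw [eq_top_iff, ← ALG.ac_top_of_basis hx]
    exact ALG.ac_mono hFP
  haveI : Algebra.IsAlgebraic (Ω ⊔ k⟮P⟯ : IntermediateField k K) K :=
    ⟨fun w => ALG.mem_ac.1 (htop ▸ mem_top)⟩
  exact iter_add F.fixingSubgroup p k⟮P⟯
    (P := {f : RatFunc k // GoodA p N f}) (fun f => ev P hP f.1)
    (fun f => (mem_simple_iff_ev hP _).2 ⟨_, rfl⟩)
    (fun t : {t : Fin r → K // ∀ i, t i ∈ ALG.M k x r (0 + 1)} => ALG.bracket (k := k) t.1)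
    (fun t ν hν z hz => ALG.bracket_stable t.2 hν hz) S
    (fun t _ => by
      obtain ⟨g, hgF, hgu, χ, hχN, hχ1, hgP⟩ := exists_g hmn hx p hℓ
        (fun a => Nat.Coprime.pow_right a hℓp) hN.two_le (fun a => Nat.Coprime.pow_right a hNp)
        hy hw hr t.1 t.2
      rw [← hPdef] at hgP
      refine ⟨g, hgF, hgu, simple_stable hgP, fun f => ?_⟩
      have hχ0 : χ ≠ 0 := by
        rintro rfl
        rw [zero_pow hN.ne_zero] at hχN
        exact zero_ne_one hχN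
      let χ' : kˣ := Units.mk0 χ hχ0
      have h1 : χ' ^ N = 1 := Units.ext (by
        rw [Units.val_pow_eq_pow_val]; exact hχN)
      have h2 : χ' ≠ 1 := fun h => hχ1 (congrArg Units.val h)
      refine ⟨⟨sb χ' 0 f.1 - f.1, f.2.step p hN hNp h1 h2⟩, ?_⟩
      change ev P hP (sb χ' 0 f.1 - f.1) = g⁻¹ (ev P hP f.1) - ev P hP f.1
      rw [map_sub]
      congr 1
      have h3 : (ev P hP).comp (sb χ' 0) = ((g⁻¹ : Gal(K/k)) : K →ₐ[k] K).comp (ev P hP) := by
        apply ratFunc_hom_ext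
        change ev P hP (sb χ' 0 RatFunc.X) = g⁻¹ (ev P hP RatFunc.X)
        rw [sb_X, ev_X, lin, ev_poly, hgP, C_0, add_zero, map_mul, aeval_C, aeval_X]
        rfl
      exact congrArg (fun φ : RatFunc k →ₐ[k] K => φ f.1) h3)
    (fun f => by
      obtain ⟨z, hz⟩ := PX.exists_as (L := K) p (ev P hP f.1)
      have hvP : ev P hP f.1 ∈ k⟮P⟯ := (mem_simple_iff_ev hP _).2 ⟨_, rfl⟩
      have hzP : z ∉ k⟮P⟯ := by
        intro hzP
        obtain ⟨h, hh⟩ := (mem_simple_iff_ev hP z).1 hzP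
        apply f.2.notMem p
        rw [mem_range_wH]
        refine ⟨h, (ev P hP).toRingHom.injective ?_⟩
        change ev P hP f.1 = ev P hP (h ^ p - h)
        rw [map_sub, map_pow, hh, hz]
      have halg : IsAlgebraic k⟮P⟯ z := by
        have h1 : z ∈ PX.pcl p k⟮P⟯ := PX.pcl_closed (by rw [hz]; exact PX.le_pcl p _ hvP)
        exact ALG.mem_ac.1 (PX.pcl_le_ac p _ h1)
      obtain ⟨g, hg, hgz⟩ : ∃ g ∈ (Ω ⊔ k⟮P⟯).fixingSubgroup, g z ≠ z := by
        by_contra hcon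
        push Not at hcon
        obtain ⟨a, ha⟩ := ALG.pow_mem_of_fixed p (Ω ⊔ k⟮P⟯) (z := z) hcon
        have h1 := as_descent p (Ω ⊔ k⟮P⟯) hz
          ((le_sup_right : k⟮P⟯ ≤ Ω ⊔ k⟮P⟯) hvP) a ha
        exact hzP (mem_simple_of_mem_sup hPac h1 halg)
      refine ⟨g, fixingSubgroup_antitone hFP hg, fixingSubgroup_antitone le_sup_right hg, ?_⟩
      intro z' hz' h
      obtain ⟨c, hc, -⟩ := PX.exists_const_sub (k := k) p hz hz'
      apply hgz
      rw [hc, map_add, AlgEquiv.commutes, h]) ⟨f, hf⟩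

end RS
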