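import Pool.Agent.H20.RS.AllI

/-!
The prime-to-`N` extension of a field in `K`.
-/

set_option linter.style.haveILetI false

namespace RS

open Polynomial IntermediateField

variable {k K : Type*} [Field k] [Field K] [Algebra k K]

theorem fix_mul_left {g : Gal(K/k)} {z : K} {e : ℕ} (h : (g ^ e) z = z) (c : ℕ) :
    (g ^ (e * c)) z = z := by
  rw [pow_mul]
  have h3 : g ^ e ∈ MulAction.stabilizer Gal(K/k) z := h
  exact pow_mem h3 c

theorem fix_mul_right {g : Gal(K/k)} {z : K} {e : ℕ} (h : (g ^ e) z = z) (c : ℕ) :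
    (g ^ (c * e)) z = z := by
  rw [mul_comm]
  exact fix_mul_left h c

/-- the prime-to-`N` extension of `F` in `K`: all `z ∈ K` such that, for some `e` prime to `N`,
`g ^ e` fixes `z` for all automorphisms `g` of `K` over `F` -/
def pri (N : ℕ) (F : IntermediateField k K) : IntermediateField k K where
  carrier := {z | ∃ e, Nat.Coprime e N ∧ ∀ g ∈ F.fixingSubgroup, (g ^ e) z = z}
  mul_mem' := by
    rintro a b ⟨e, he, h⟩ ⟨e', he', h'⟩
    refine ⟨e * e', Nat.Coprime.mul_left he he', fun g hg => ?_⟩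
    rw [map_mul, fix_mul_left (h g hg), fix_mul_right (h' g hg)]
  one_mem' := ⟨1, Nat.coprime_one_left N, fun g _ => map_one _⟩
  add_mem' := by
    rintro a b ⟨e, he, h⟩ ⟨e', he', h'⟩
    refine ⟨e * e', Nat.Coprime.mul_left he he', fun g hg => ?_⟩
    rw [map_add, fix_mul_left (h g hg), fix_mul_right (h' g hg)]
  zero_mem' := ⟨1, Nat.coprime_one_left N, fun g _ => map_zero _⟩
  algebraMap_mem' := fun c => ⟨1, Nat.coprime_one_left N, fun g _ => AlgEquiv.commutes _ c⟩
  inv_mem' := by
    rintro a ⟨e, he, h⟩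
    exact ⟨e, he, fun g hg => by rw [map_inv₀, h g hg]⟩

theorem mem_pri {N : ℕ} {F : IntermediateField k K} {z : K} : z ∈ pri N F ↔
    ∃ e, Nat.Coprime e N ∧ ∀ g ∈ F.fixingSubgroup, (g ^ e) z = z := Iff.rfl

theorem le_pri (N : ℕ) (F : IntermediateField k K) : F ≤ pri N F := fun z hz =>
  mem_pri.2 ⟨1, Nat.coprime_one_left N, fun g hg => by
    rw [pow_one]; exact ALG.mem_fs.1 hg z hz⟩

theorem pri_stable {N : ℕ} {F : IntermediateField k K} {h : Gal(K/k)} (hh : h ∈ F.fixingSubgroup)
    {z : K} (hz : z ∈ pri N F) : h z ∈ pri N F := by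
  obtain ⟨e, he, hez⟩ := mem_pri.1 hz
  refine mem_pri.2 ⟨e, he, fun g hg => ?_⟩
  have h1 := hez (h⁻¹ * g * h) (mul_mem (mul_mem (inv_mem hh) hg) hh)
  have h2 : (h⁻¹ * g * h) ^ e = h⁻¹ * g ^ e * h := by
    have h3 := conj_pow (i := e) (a := h⁻¹) (b := g)
    rwa [inv_inv] at h3
  rw [h2] at h1
  have h4 : h⁻¹ ((g ^ e) (h z)) = z := h1
  have h5 := congrArg h h4
  rwa [PX.apply_inv] at h5

/-- closed under equations of degree less than `N` -/
theorem pri_root {N : ℕ} (hN : N.Prime) {F : IntermediateField k K} :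
    ∀ f : (pri N F)[X], f ≠ 0 → f.natDegree < N → ∀ z : K, aeval z f = 0 → z ∈ pri N F := by
  have key : ∀ f : K[X], f ≠ 0 → f.natDegree ≤ N - 1 → (∀ i, f.coeff i ∈ pri N F) →
      ∀ z : K, f.eval z = 0 → z ∈ pri N F := by
    intro f hf hd hc v hv
    classical
    choose e he hef using fun i => mem_pri.1 (hc i)
    set c := ∏ i ∈ Finset.range (f.natDegree + 1), e i with hc'
    have hcs : Nat.Coprime c N := Nat.Coprime.prod_left (fun i _ => he i)
    have hfac : Nat.Coprime (N - 1).factorial N := by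
      rw [Nat.coprime_comm, Nat.Prime.coprime_iff_not_dvd hN]
      intro h
      have := (hN.dvd_factorial).1 h
      have := hN.pos
      omega
    refine mem_pri.2 ⟨c * (N - 1).factorial, Nat.Coprime.mul_left hcs hfac, fun g hg => ?_⟩
    rw [pow_mul]
    refine pow_factorial_fix (R := f.roots.toFinset) (fun z hz => ?_) ?_ ?_
    · rw [Multiset.mem_toFinset, mem_roots hf] at hz ⊢
      have h2 : f.map (((g ^ c : Gal(K/k)) : K →ₐ[k] K) : K →+* K) = f := by
        ext i
        rw [coeff_map]
        by_cases hi : i ≤ f.natDegree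
        · obtain ⟨c', hc''⟩ : e i ∣ c := Finset.dvd_prod_of_mem e (Finset.mem_range.2 (by omega))
          change (g ^ c) (f.coeff i) = f.coeff i
          rw [hc'']
          exact fix_mul_left (hef i g hg) c'
        · rw [coeff_eq_zero_of_natDegree_lt (by omega), map_zero]
      have h3 := eval₂_hom (p := f) (((g ^ c : Gal(K/k)) : K →ₐ[k] K) : K →+* K) z
      have hz' : f.eval z = 0 := hz
      rw [hz', map_zero, ← eval_map, h2] at h3
      exact h3
    · exact (Multiset.toFinset_card_le _).trans ((card_roots' f).trans hd)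
    · rw [Multiset.mem_toFinset, mem_roots hf]
      exact hv
  intro f hf hd z hz
  exact closed_of_root key f hf (by omega) z hz

/-- contains the finite Galois extensions of degree prime to `N` -/
theorem galois_le_pri {N : ℕ} {F : IntermediateField k K} (L : IntermediateField F K)
    [FiniteDimensional F L] [IsGalois F L] (hL : Nat.Coprime (Module.finrank F L) N) :
    L.restrictScalars k ≤ pri N F := by
  intro z hz
  have hzL : z ∈ L := hz
  refine mem_pri.2 ⟨Module.finrank F L, hL, fun g hg => ?_⟩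
  let g' : Gal(K/F) := AlgEquiv.ofRingEquiv (f := (g : K ≃+* K)) (fun f =>
    ALG.mem_fs.1 hg f.1 f.2)
  have h1 : ∀ (i : ℕ) (v : K), (g' ^ i) v = (g ^ i) v := by
    intro i
    induction i with
    | zero => intro v; rfl
    | succ i ih =>
      intro v
      rw [pow_succ', pow_succ', AlgEquiv.mul_apply, AlgEquiv.mul_apply, ih]
      rfl
  have h2 : (AlgEquiv.restrictNormal g' L) ^ (Module.finrank F L) = 1 := by
    rw [← IsGalois.card_aut_eq_finrank]
    exact pow_card_eq_one'
  have h3 : AlgEquiv.restrictNormal (g' ^ (Module.finrank F L)) L = 1 := by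
    have h4 := map_pow (AlgEquiv.restrictNormalHom (F := F) (K₁ := K) L) g'
      (Module.finrank F L)
    change AlgEquiv.restrictNormalHom L (g' ^ (Module.finrank F L)) = 1
    rw [h4]
    exact h2
  have h5 := AlgEquiv.restrictNormal_commutes (g' ^ (Module.finrank F L)) L ⟨z, hzL⟩
  rw [h3] at h5
  rw [← h1]
  exact h5.symm

variable {n : ℕ} {x : Fin n → K} {N : ℕ}

theorem inner_pri (x : Fin n → K) (N : ℕ) : Inner x (pri N (adjoin k (Set.range x))) N :=
  ⟨le_pri N _, fun _ hg _ hz => pri_stable hg hz, fun _ hz => mem_pri.1 hz⟩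

theorem dcl_le_pri {d : ℕ} (hN : N.Prime) (hd : d < N) (F : IntermediateField k K) :
    dcl d F ≤ pri N F := by
  apply dcl_le (le_pri N F)
  intro f hf hfd z hz
  exact pri_root hN f hf (by omega) z hz

end RS
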