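import Pool.Agent.H20.RS.SandI
import Pool.Agent.H20.RS.Pri
import Pool.Agent.H20.RS.ResVal
import Pool.Agent.H20.RS.IndepCop
import Pool.Agent.H20.RS.CopVal

/-!
The final theorems, over the compositum of the `[t_1, …, t_r]` with `t_i` in the prime-to-`N`
extension of `k(x)`.
-/

set_option linter.style.haveILetI false

namespace RS

open Polynomial IntermediateField

variable {k K : Type*} [Field k] [Field K] [Algebra k K]
variable {m n : ℕ} {x : Fin n → K} {y w : Fin m → K} (hmn : m ≤ n) {N : ℕ}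

/-- the independence of the Kummer generators over the prime-to-`N` extension -/
theorem indep_pri [IsAlgClosed k] [IsAlgClosed K] (hx : IsTranscendenceBasis k x)
    (hN : N.Prime) (hNk : (N : k) ≠ 0) :
    IndepI hmn x (pri N (adjoin k (Set.range x))) N := by
  obtain ⟨B, hB1, hB2, hB3⟩ := exists_val_res (k := k) hx
  intro Q g h hQ hh hg0 hh0 heq
  exact indep_of_kummer_cop hx.1 B hB1 hB2 (pri N (adjoin k (Set.range x))) N
    (fun z hz hz0 => exists_coprime_val hx B hB1 hB3 N hN hNk hz0 (mem_pri.1 hz))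
    (Fin.castLE hmn) (Fin.castLE_injective hmn) hN Q hQ g h hh hg0 hh0 heq

/-- FINAL THEOREM -/
theorem main_pri [IsAlgClosed k] [IsAlgClosed K] (hx : IsTranscendenceBasis k x) {r : ℕ}
    (hr1 : 1 ≤ r) (hr : r < m) (hN : N.Prime) (hNk : (N : k) ≠ 0)
    (hy : ∀ j, y j ^ N = x (Fin.castLE hmn j)) (hw : ∀ j, w j ^ N = 1 + y j) (j₀ : Fin m)
    {E : Type*} [Field E] [Algebra k E] [Algebra (RatFunc k) E]
    [IsScalarTower k (RatFunc k) E] [FiniteDimensional (RatFunc k) E] [IsGalois (RatFunc k) E]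
    (hcN : Nat.Coprime (Module.finrank (RatFunc k) E) N) :
    (∃ τ : E →ₐ[k] K, τ (algebraMap (RatFunc k) E RatFunc.X) =
      x (Fin.castLE hmn j₀) + ∏ j, w j) ∧
    ∀ τ : E →ₐ[k] K, τ (algebraMap (RatFunc k) E RatFunc.X) = x (Fin.castLE hmn j₀) + ∏ j, w j →
      τ (algebraMap (RatFunc k) E RatFunc.X) ∈ ALG.M k x 1 2 ∧
      (∀ v : E, τ v ∈ ALG.M k x 1 3 ∧ τ v ∈ ALG.M k x m 2) ∧
      (∀ v : E, τ v ∈ comp (pri N (adjoin k (Set.range x))) r ↔
        v ∈ Set.range (algebraMap (RatFunc k) E)) ∧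
      ∀ σ : Gal(E/RatFunc k), ∃ g ∈ (comp (pri N (adjoin k (Set.range x))) r).fixingSubgroup,
        ∀ v, τ (σ v) = g (τ v) := by
  obtain ⟨hex, hall⟩ := main_all (E := E) hmn hx hr1 hr hN.two_le hNk hN hNk hcN hcN hy hw j₀
  refine ⟨hex, fun τ hτ => ?_⟩
  obtain ⟨h1, h2, -, -⟩ := hall τ hτ
  obtain ⟨h3, h4⟩ := main_comp (E := E) hmn hx hr1 hr hN.two_le hNk hN hNk hcN hcN
    (inner_pri x N) (indep_pri hmn hx hN hNk) hy hw j₀ τ hτ
  exact ⟨h1, h2, h3, h4⟩

include hmn in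
/-- SANDWICH over the prime-to-`N` extension -/
theorem sandwich_pri [IsAlgClosed k] [IsAlgClosed K] (hx : IsTranscendenceBasis k x) {r : ℕ}
    (hr1 : 1 ≤ r) (hr : r < m) {d q : ℕ} (hq : q.Prime) (hdq : d < q) (hq5 : 5 ≤ q) (hqN : q < N)
    (hN : N.Prime) (hNk : (N : k) ≠ 0) :
    ∃ e : K, e ∈ ALG.M k x 1 3 ∧ e ∈ ALG.M k x m 2 ∧
      ∀ L : IntermediateField k K, ALG.Tower d (comp (pri N (adjoin k (Set.range x))) r) L →
        e ∉ L :=
  sandwich hmn hx hr1 hr hq hdq hq5 hqN hN hNk (inner_pri x N) (indep_pri hmn hx hN hNk)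

end RS
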