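import Pool.Agent.H20.RS.ValEx

/-!
Elements of a valuation ring of `K` as fractions of elements integral over `B ∩ V`.
-/

set_option linter.style.haveILetI false

namespace RS

open Polynomial

/-- integral over a subring of a field: enough to lie in all valuation rings containing it -/
theorem isIntegral_of_forall_val {K : Type*} [Field K] (O : Subring K) {u : K}
    (h : ∀ W : ValuationSubring K, O ≤ W.toSubring → u ∈ W) : IsIntegral O u := by
  by_contra hu
  have h1 : u ∉ (integralClosure O K).toSubring := hu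
  obtain ⟨W, hW, huW⟩ := Subring.exists_le_valuationSubring_of_isIntegrallyClosedIn h1
  exact huW (h W (fun r hr => hW ((integralClosure O K).algebraMap_mem ⟨r, hr⟩)))

theorem exists_frac {k K : Type*} [Field k] [Field K] [Algebra k K] (V : IntermediateField k K)
    (hV : ALG.ac V = ⊤) (B : ValuationSubring K) {z : K} (hz : z ∈ B) :
    ∃ u v : K, IsIntegral (B.toSubring ⊓ V.toSubfield.toSubring : Subring K) u ∧
      IsIntegral (B.toSubring ⊓ V.toSubfield.toSubring : Subring K) v ∧
      B.valuation u = 1 ∧ z * u = v := by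
  classical
  by_cases hz0 : z = 0
  · exact ⟨1, 0, isIntegral_one, isIntegral_zero, map_one _, by rw [hz0, zero_mul]⟩
  obtain ⟨f, hf0, hfz⟩ : IsAlgebraic V z := ALG.mem_ac.1 (hV ▸ IntermediateField.mem_top)
  obtain ⟨i₀, hi₀, hmax⟩ := f.support.exists_max_image
    (fun i => B.valuation (algebraMap V K (f.coeff i)))
    (by rw [Finset.nonempty_iff_ne_empty]; simpa using hf0)
  have hc0 : algebraMap V K (f.coeff i₀) ≠ 0 :=
    (_root_.map_ne_zero _).2 (mem_support_iff.1 hi₀)
  set n := f.natDegree with hn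
  let b : ℕ → K := fun i => algebraMap V K (f.coeff i) / algebraMap V K (f.coeff i₀)
  have hbV : ∀ i, b i ∈ V := fun i => div_mem (f.coeff i).2 (f.coeff i₀).2
  have hb1 : ∀ i, B.valuation (b i) ≤ 1 := by
    intro i
    simp only [b]
    rw [map_div₀]
    apply div_le_one_of_le₀ _ zero_le
    by_cases hi : i ∈ f.support
    · exact hmax i hi
    · rw [notMem_support_iff.1 hi, map_zero, map_zero]
      exact zero_le
  have hbO : ∀ i, b i ∈ (B.toSubring ⊓ V.toSubfield.toSubring : Subring K) := fun i =>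
    ⟨(B.valuation_le_one_iff _).1 (hb1 i), hbV i⟩
  have hsum : ∑ i ∈ Finset.range (n + 1), b i * z ^ i = 0 := by
    have h1 : ∑ i ∈ Finset.range (n + 1), algebraMap V K (f.coeff i) * z ^ i = 0 := by
      rw [← hfz, aeval_def, eval₂_eq_sum_range]
    have h2 : ∀ i, b i * z ^ i =
        (algebraMap V K (f.coeff i) * z ^ i) * (algebraMap V K (f.coeff i₀))⁻¹ := by
      intro i
      simp only [b]
      rw [div_eq_mul_inv]
      ring
    rw [Finset.sum_congr rfl (fun i _ => h2 i), ← Finset.sum_mul, h1, zero_mul]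
  have hbi₀ : B.valuation (b i₀) = 1 := by
    simp only [b]
    rw [div_self hc0, map_one]
  obtain ⟨j, hj, hjmax⟩ := ((Finset.range (n + 1)).filter
    (fun i => B.valuation (b i) = 1)).exists_max_image id
    ⟨i₀, Finset.mem_filter.2 ⟨Finset.mem_range.2 (Nat.lt_succ_of_le
      (le_natDegree_of_mem_supp i₀ hi₀)), hbi₀⟩⟩
  obtain ⟨hjn, hj1⟩ := Finset.mem_filter.1 hj
  have hjn' : j < n + 1 := Finset.mem_range.1 hjn
  set u : K := ∑ i ∈ Finset.Ico j (n + 1), b i * z ^ (i - j) with hu
  set v : K := -∑ i ∈ Finset.range j, b i * z⁻¹ ^ (j - 1 - i) with hv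
  have hzj : z ^ j ≠ 0 := pow_ne_zero _ hz0
  have huj : z ^ j * u = -∑ i ∈ Finset.range j, b i * z ^ i := by
    have h1 : z ^ j * u = ∑ i ∈ Finset.Ico j (n + 1), b i * z ^ i := by
      rw [hu, Finset.mul_sum]
      apply Finset.sum_congr rfl
      intro i hi
      have hji := (Finset.mem_Ico.1 hi).1
      have h2 : z ^ i = z ^ j * z ^ (i - j) := by rw [← pow_add, Nat.add_sub_cancel' hji]
      rw [h2]
      ring
    rw [h1, eq_neg_iff_add_eq_zero, add_comm, Finset.sum_range_add_sum_Ico _ hjn'.le, hsum]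
  have hvj : z ^ j * v = z * -∑ i ∈ Finset.range j, b i * z ^ i := by
    rw [hv, mul_neg, mul_neg, Finset.mul_sum, Finset.mul_sum]
    congr 1
    apply Finset.sum_congr rfl
    intro i hi
    have hij := Finset.mem_range.1 hi
    have h2 : z ^ j * z⁻¹ ^ (j - 1 - i) = z * z ^ i := by
      rw [inv_pow, ← div_eq_mul_inv, div_eq_iff (pow_ne_zero _ hz0), ← pow_succ', ← pow_add]
      congr 1
      omega
    calc z ^ j * (b i * z⁻¹ ^ (j - 1 - i)) = b i * (z ^ j * z⁻¹ ^ (j - 1 - i)) := by ring
      _ = z * (b i * z ^ i) := by rw [h2]; ring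
  have hzu : z * u = v := by
    apply mul_left_cancel₀ hzj
    rw [hvj, ← huj]
    ring
  have hval : B.valuation u = 1 := by
    rw [hu, Finset.sum_eq_sum_Ico_succ_bot hjn', Nat.sub_self, pow_zero, mul_one]
    have h1 : B.valuation (∑ i ∈ Finset.Ico (j + 1) (n + 1), b i * z ^ (i - j)) <
        B.valuation (b j) := by
      rw [hj1]
      apply B.valuation.map_sum_lt one_ne_zero
      intro i hi
      obtain ⟨hji, hin⟩ := Finset.mem_Ico.1 hi
      have h2 : B.valuation (b i) < 1 := by
        refine lt_of_le_of_ne (hb1 i) (fun h => ?_)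
        have h3 := hjmax i (Finset.mem_filter.2 ⟨Finset.mem_range.2 hin, h⟩)
        simp only [id] at h3
        omega
      have h4 : B.valuation z ^ (i - j) ≤ 1 := pow_le_one₀ zero_le
        ((B.valuation_le_one_iff z).2 hz)
      rw [map_mul, map_pow]
      exact mul_lt_one_of_lt_of_le h2 h4
    rw [Valuation.map_add_eq_of_lt_left _ h1, hj1]
  have hW : ∀ W : ValuationSubring K, (B.toSubring ⊓ V.toSubfield.toSubring : Subring K) ≤
      W.toSubring → u ∈ W ∧ v ∈ W := by
    intro W hOW
    have hbW : ∀ i, b i ∈ W := fun i => hOW (hbO i)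
    rcases W.mem_or_inv_mem z with h | h
    · have huW : u ∈ W := by
        rw [hu]
        exact sum_mem (fun i _ => mul_mem (hbW i) (pow_mem h _))
      exact ⟨huW, by rw [← hzu]; exact mul_mem h huW⟩
    · have hvW : v ∈ W := by
        rw [hv]
        exact neg_mem (sum_mem (fun i _ => mul_mem (hbW i) (pow_mem h _)))
      refine ⟨?_, hvW⟩
      have h1 : u = v * z⁻¹ := by rw [← hzu]; field_simp
      rw [h1]
      exact mul_mem hvW h
  exact ⟨u, v, isIntegral_of_forall_val _ (fun W h => (hW W h).1),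
    isIntegral_of_forall_val _ (fun W h => (hW W h).2), hval, hzu⟩

end RS
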