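import Mathlib

set_option autoImplicit false

/-!
Normal subgroups of prime index and Kummer generators.
-/

namespace RS

open IntermediateField

/-- A proper normal subgroup of a finite solvable group is contained in a normal subgroup of prime
index. -/
theorem exists_normal_prime_index {G : Type*} [Group G] [Finite G] [Group.IsSolvable G]
    (H : Subgroup G) [H.Normal] (hH : H ≠ ⊤) :
    ∃ M : Subgroup G, M.Normal ∧ H ≤ M ∧ M.index.Prime := by
  have hfin : ({M : Subgroup G | M.Normal ∧ M ≠ ⊤}).Finite := Set.toFinite _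
  obtain ⟨M, hHM, hM⟩ := hfin.exists_le_maximal (a := H) ⟨inferInstance, hH⟩
  obtain ⟨hMn, hMt⟩ := hM.prop
  refine ⟨M, hMn, hHM, ?_⟩
  have hnt : Nontrivial (G ⧸ M) := by
    rw [← not_subsingleton_iff_nontrivial]
    intro h
    exact hMt (QuotientGroup.subgroup_eq_top_of_subsingleton M h)
  have hs : IsSimpleGroup (G ⧸ M) :=
    { eq_bot_or_eq_top_of_normal := by
        intro N hN
        by_cases h : N.comap (QuotientGroup.mk' M) = ⊤
        · right
          rw [← Subgroup.map_comap_eq_self_of_surjective (QuotientGroup.mk'_surjective M) N, h,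
            ← MonoidHom.range_eq_map, MonoidHom.range_eq_top]
          exact QuotientGroup.mk'_surjective M
        · left
          have h1 : M ≤ N.comap (QuotientGroup.mk' M) := by
            intro x hx
            rw [Subgroup.mem_comap]
            have : QuotientGroup.mk' M x = 1 := (QuotientGroup.eq_one_iff x).2 hx
            rw [this]
            exact one_mem N
          have h2 : N.comap (QuotientGroup.mk' M) ≤ M := hM.2 ⟨hN.comap _, h⟩ h1
          rw [eq_bot_iff]
          intro y hy
          obtain ⟨x, rfl⟩ := QuotientGroup.mk'_surjective M y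
          rw [Subgroup.mem_bot]
          exact (QuotientGroup.eq_one_iff x).2 (h2 hy) }
  have hcomm : ∀ a b : G ⧸ M, a * b = b * a := IsSimpleGroup.comm_iff_isSolvable.2 inferInstance
  let _ : CommGroup (G ⧸ M) := { (inferInstance : Group (G ⧸ M)) with mul_comm := hcomm }
  exact IsSimpleGroup.prime_card (α := G ⧸ M)

/-- A normal subgroup of prime index `q` of a Galois group gives a Kummer generator. -/
theorem exists_kummer_of_index {q : ℕ} (hq : q.Prime) {F E : Type*} [Field F] [Field E]
    [Algebra F E] [FiniteDimensional F E] [IsGalois F E] (hmu : (primitiveRoots q F).Nonempty)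
    (M : Subgroup Gal(E/F)) [M.Normal] (hM : M.index = q) :
    ∃ z : E, (∀ σ ∈ M, σ z = z) ∧ z ^ q ∈ Set.range (algebraMap F E) ∧
      z ∉ Set.range (algebraMap F E) := by
  have hfr : Module.finrank F (fixedField M) = q := by
    have h1 := Module.finrank_mul_finrank F (fixedField M) E
    have h2 := M.card_mul_index
    rw [IsGalois.card_aut_eq_finrank, hM] at h2
    rw [finrank_fixedField_eq_card, ← h2, mul_comm] at h1
    exact Nat.eq_of_mul_eq_mul_left Nat.card_pos h1
  have hcard : Nat.card Gal(fixedField M/F) = q := by rw [IsGalois.card_aut_eq_finrank, hfr]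
  have : Fact q.Prime := ⟨hq⟩
  have : IsCyclic Gal(fixedField M/F) := isCyclic_of_prime_card hcard
  obtain ⟨α, ⟨a, ha⟩, hα⟩ := exists_root_adjoin_eq_top_of_isCyclic F (fixedField M)
    (by rw [hfr]; exact hmu)
  rw [hfr] at ha
  refine ⟨α, fun σ hσ => ?_, ⟨a, ?_⟩, ?_⟩
  · exact α.2 ⟨σ, hσ⟩
  · exact congrArg (algebraMap (fixedField M) E) ha
  · rintro ⟨b, hb⟩
    have h3 : algebraMap F (fixedField M) b = α := Subtype.ext hb
    have h4 : F⟮α⟯ = ⊥ := by
      rw [adjoin_simple_eq_bot_iff, ← h3]
      exact IntermediateField.algebraMap_mem _ b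
    rw [h4] at hα
    have h5 : Module.finrank F (fixedField M) = 1 := by
      rw [← IntermediateField.finrank_top', ← hα]
      exact IntermediateField.finrank_bot
    rw [hfr] at h5
    exact hq.one_lt.ne' h5

/-- In a Galois extension of `q`-power degree every proper subgroup of the Galois group fixes a
Kummer generator. -/
theorem exists_kummer_of_ne_top {q : ℕ} (hq : q.Prime) {F E : Type*} [Field F] [Field E]
    [Algebra F E] [FiniteDimensional F E] [IsGalois F E] (hmu : (primitiveRoots q F).Nonempty)
    {s : ℕ} (hs : Module.finrank F E = q ^ s) (H : Subgroup Gal(E/F)) (hH : H ≠ ⊤) :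
    ∃ z : E, (∀ σ ∈ H, σ z = z) ∧ z ^ q ∈ Set.range (algebraMap F E) ∧
      z ∉ Set.range (algebraMap F E) := by
  have : Fact q.Prime := ⟨hq⟩
  have hcard : Nat.card Gal(E/F) = q ^ s := by rw [IsGalois.card_aut_eq_finrank, hs]
  have hp : IsPGroup q Gal(E/F) := IsPGroup.of_card hcard
  have : Group.IsNilpotent Gal(E/F) := hp.isNilpotent
  obtain ⟨N, hN, hHN⟩ := (eq_top_or_exists_le_coatom H).resolve_left hH
  have hNn : N.Normal := Subgroup.NormalizerCondition.normal_of_coatom N
    Group.normalizerCondition_of_isNilpotent hN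
  obtain ⟨M, hM, hNM, hMi⟩ := exists_normal_prime_index N hN.1
  have hMq : M.index = q := by
    have h1 : M.index ∣ q ^ s := by rw [← hcard]; exact M.index_dvd_card
    exact (Nat.prime_dvd_prime_iff_eq hMi hq).1 (hMi.dvd_of_dvd_pow h1)
  obtain ⟨z, hz, h2, h3⟩ := exists_kummer_of_index hq hmu M hMq
  exact ⟨z, fun σ hσ => hz σ (hNM (hHN hσ)), h2, h3⟩

end RS
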