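import Pool.Agent.H20.RS.Mult

/-!
A generic translate of a polynomial which is not a `q`-th power is good.
-/

set_option linter.style.haveILetI false

namespace RS

open Polynomial

variable {k : Type*} [Field k]

theorem comp_ne_zero {R : k[X]} (hR : R ≠ 0) (c : k) : R.comp (X + C c) ≠ 0 := by
  intro h
  apply hR
  have h1 := congrArg (fun Q : k[X] => Q.comp (X - C c)) h
  simpa [comp_assoc] using h1

theorem mult_translate (R : k[X]) (a c : k) :
    rootMultiplicity a (R.comp (X + C c)) = rootMultiplicity (a + c) R := by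
  have := rootMultiplicity_comp_C_mul_X_add_C R 1 c a isUnit_one
  rwa [C_1, one_mul, one_mul] at this

/-- a generic translate is good -/
theorem finite_not_good {q N : ℕ} {R : k[X]} (hR : R ≠ 0) {b : k}
    (hb : ¬ q ∣ rootMultiplicity b R) {ζ : k} (hζ : ζ ^ N = 1) (hζ1 : ζ ≠ 1) :
    {c : k | ¬ Good q N (R.comp (X + C c))}.Finite := by
  classical
  have hfin : ((fun ρ : k => (ρ - ζ * b) / (1 - ζ)) '' (R.rootSet k)).Finite :=
    (rootSet_finite R k).image _
  refine hfin.subset ?_
  intro c hc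
  by_contra hcon
  apply hc
  refine ⟨comp_ne_zero hR c, b - c, ζ, hζ, ?_⟩
  rw [mult_translate, mult_translate, sub_add_cancel]
  have h0 : rootMultiplicity (ζ * (b - c) + c) R = 0 := by
    apply rootMultiplicity_eq_zero
    intro hroot
    apply hcon
    refine ⟨ζ * (b - c) + c, ?_, ?_⟩
    · rw [mem_rootSet]
      exact ⟨hR, by simpa [aeval_def] using hroot⟩
    · have h1 : (1 : k) - ζ ≠ 0 := sub_ne_zero.2 (Ne.symm hζ1)
      change (ζ * (b - c) + c - ζ * b) / (1 - ζ) = c
      rw [div_eq_iff h1]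
      ring
  rw [h0, Nat.cast_zero]
  intro h
  exact hb ((ZMod.natCast_eq_zero_iff _ _).1 h.symm)

/-- a polynomial all of whose multiplicities are divisible by `q` is a `q`-th power -/
theorem exists_pow_of_dvd [IsAlgClosed k] {q : ℕ} (hq : 1 ≤ q) {R : k[X]}
    (h : ∀ b, q ∣ rootMultiplicity b R) : ∃ Q : k[X], R = Q ^ q := by
  classical
  obtain ⟨c, hc⟩ := IsAlgClosed.exists_pow_nat_eq R.leadingCoeff (n := q) (by omega)
  have h1 := (IsAlgClosed.splits R).eq_prod_roots
  refine ⟨C c * ∏ b ∈ R.roots.toFinset, (X - C b) ^ (rootMultiplicity b R / q), ?_⟩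
  rw [mul_pow, ← C_pow, hc, ← Finset.prod_pow]
  conv_lhs => rw [h1, Finset.prod_multiset_map_count]
  congr 1
  apply Finset.prod_congr rfl
  intro b _
  rw [count_roots, ← pow_mul, Nat.div_mul_cancel (h b)]

end RS
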