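import Pool.Agent.H20.RS.Fin
import Pool.Agent.H20.RS.Gen
import Pool.Agent.H20.RS.Frat
import Pool.Agent.H20.RS.Dsc

/-!
Every finite solvable Galois extension of `k(T)` of degree prime to `p` embeds into `M_1^3`,
disjoint from `M_r^2`.
-/

set_option linter.style.haveILetI false

namespace RS

open Polynomial IntermediateField


/-- a prime different from the characteristic is nonzero in the field -/
theorem ne_zero_of_coprime {k : Type*} [Field k] (p : ℕ) [ExpChar k p] {q : ℕ} (hq : q.Prime)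
    (hqp : Nat.Coprime q p) : (q : k) ≠ 0 := by
  intro h
  rcases ‹ExpChar k p› with _ | hp
  · exact hq.ne_zero (by exact_mod_cast h)
  · rename_i hchar
    have h1 := (CharP.cast_eq_zero_iff k p q).1 h
    have h2 := (Nat.prime_dvd_prime_iff_eq hp hq).1 h1
    rw [h2, Nat.coprime_self] at hqp
    exact hq.one_lt.ne' hqp

/-- restriction of an endomorphism to an embedded normal extension -/
theorem exists_sigma {F E K : Type*} [Field F] [Field E] [Field K] [Algebra F E] [Normal F E]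
    (τ : E →+* K) (g : K →+* K) (hg : ∀ f : F, g (τ (algebraMap F E f)) = τ (algebraMap F E f)) :
    ∃ σ : Gal(E/F), ∀ v, τ (σ v) = g (τ v) := by
  letI : Algebra E K := τ.toAlgebra
  letI : Algebra F K := (τ.comp (algebraMap F E)).toAlgebra
  haveI : IsScalarTower F E K := IsScalarTower.of_algebraMap_eq' rfl
  let g' : K →ₐ[F] K := { g with commutes' := fun f => hg f }
  refine ⟨AlgHom.restrictNormal' g' E, fun v => ?_⟩
  exact AlgHom.restrictNormal_commutes g' E v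

variable {k K : Type*} [Field k] [Field K] [Algebra k K]

section

variable {E : Type*} [Field E] [Algebra k E] [Algebra (RatFunc k) E]
  [IsScalarTower k (RatFunc k) E]

/-- the images of polynomials -/
theorem tau_poly (τ : E →ₐ[k] K) (Q : k[X]) :
    τ (algebraMap (RatFunc k) E (algebraMap k[X] (RatFunc k) Q)) =
      aeval (τ (algebraMap (RatFunc k) E RatFunc.X)) Q := by
  let φ : k[X] →ₐ[k] K := (τ.comp (IsScalarTower.toAlgHom k (RatFunc k) E)).comp
    (IsScalarTower.toAlgHom k k[X] (RatFunc k))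
  have h1 : φ = aeval (τ (algebraMap (RatFunc k) E RatFunc.X)) := by
    apply Polynomial.algHom_ext
    rw [aeval_X]
    change τ (algebraMap (RatFunc k) E (algebraMap k[X] (RatFunc k) X)) = _
    rw [RatFunc.algebraMap_X]
  exact congrArg (fun f : k[X] →ₐ[k] K => f Q) h1

/-- the images of rational functions -/
theorem tau_mem (τ : E →ₐ[k] K) {L : IntermediateField k K}
    (hT : τ (algebraMap (RatFunc k) E RatFunc.X) ∈ L) (f : RatFunc k) :
    τ (algebraMap (RatFunc k) E f) ∈ L := by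
  have hpoly : ∀ Q : k[X], τ (algebraMap (RatFunc k) E (algebraMap k[X] (RatFunc k) Q)) ∈ L := by
    intro Q
    rw [tau_poly]
    exact (adjoin_simple_le_iff.2 hT) (ALG.aeval_mem_simple _ Q)
  rw [← RatFunc.num_div_denom f, map_div₀, map_div₀]
  exact div_mem (hpoly _) (hpoly _)

variable [IsAlgClosed k]

/-- the Kummer generators of the subextensions -/
theorem exists_kummer_poly [FiniteDimensional (RatFunc k) E] [IsGalois (RatFunc k) E] {q : ℕ}
    (hq : q.Prime) (hqk : (q : k) ≠ 0) (H : Subgroup Gal(E/RatFunc k)) [H.Normal]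
    (hH : H.index = q) :
    ∃ (z : E) (R : k[X]) (b : k), (∀ σ ∈ H, σ z = z) ∧ R ≠ 0 ∧
      z ^ q = algebraMap (RatFunc k) E (algebraMap k[X] (RatFunc k) R) ∧
      ¬ q ∣ rootMultiplicity b R := by
  have hmu : (primitiveRoots q (RatFunc k)).Nonempty := by
    haveI : NeZero (q : k) := ⟨hqk⟩
    haveI : NeZero q := ⟨hq.ne_zero⟩
    obtain ⟨ζ, hζ⟩ := HasEnoughRootsOfUnity.exists_primitiveRoot k q
    refine ⟨algebraMap k (RatFunc k) ζ, ?_⟩
    rw [mem_primitiveRoots hq.pos]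
    exact hζ.map_of_injective (algebraMap k (RatFunc k)).injective
  obtain ⟨z, hzH, ⟨f, hf⟩, hz⟩ := exists_kummer_of_index hq hmu H hH
  have hd0 : algebraMap k[X] (RatFunc k) f.denom ≠ 0 := RatFunc.algebraMap_ne_zero f.denom_ne_zero
  have hd0E : algebraMap (RatFunc k) E (algebraMap k[X] (RatFunc k) f.denom) ≠ 0 :=
    (_root_.map_ne_zero _).2 hd0
  have hz0 : z ≠ 0 := by
    rintro rfl
    exact hz ⟨0, map_zero _⟩
  have hR : (z * algebraMap (RatFunc k) E (algebraMap k[X] (RatFunc k) f.denom)) ^ q =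
      algebraMap (RatFunc k) E (algebraMap k[X] (RatFunc k) (f.num * f.denom ^ (q - 1))) := by
    rw [mul_pow, ← hf, ← map_pow, ← map_mul]
    congr 1
    have h1 : algebraMap k[X] (RatFunc k) f.denom ^ q =
        algebraMap k[X] (RatFunc k) f.denom ^ (q - 1) * algebraMap k[X] (RatFunc k) f.denom := by
      rw [← pow_succ, Nat.sub_add_cancel hq.one_le]
    have h2 : algebraMap k[X] (RatFunc k) f.num = f * algebraMap k[X] (RatFunc k) f.denom :=
      (div_eq_iff hd0).1 (RatFunc.num_div_denom f)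
    rw [h1, map_mul, map_pow, h2]
    ring
  have hR0 : f.num * f.denom ^ (q - 1) ≠ 0 := by
    intro h0
    rw [h0, map_zero, map_zero] at hR
    exact pow_ne_zero q (mul_ne_zero hz0 hd0E) hR
  have hnd : ∃ b, ¬ q ∣ rootMultiplicity b (f.num * f.denom ^ (q - 1)) := by
    by_contra hcon
    push Not at hcon
    obtain ⟨Q, hQ⟩ := exists_pow_of_dvd hq.one_le hcon
    rw [hQ, map_pow, map_pow] at hR
    obtain ⟨c, hc⟩ := ALG.exists_algebraMap_of_pow (k := k) q hq.one_le hR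
    apply hz
    refine ⟨algebraMap k (RatFunc k) c * algebraMap k[X] (RatFunc k) Q /
      algebraMap k[X] (RatFunc k) f.denom, ?_⟩
    rw [map_div₀, map_mul, ← IsScalarTower.algebraMap_apply k (RatFunc k) E, ← hc,
      mul_div_cancel_right₀ _ hd0E]
  obtain ⟨b, hb⟩ := hnd
  refine ⟨z * algebraMap (RatFunc k) E (algebraMap k[X] (RatFunc k) f.denom), _, b, ?_, hR0, hR, hb⟩
  intro σ hσ
  rw [map_mul, hzH σ hσ, AlgEquiv.commutes]

end

variable {m n : ℕ} {x : Fin n → K} {y w : Fin m → K} (hmn : m ≤ n) {ℓ N : ℕ}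

/-- the automorphisms of `E` induced by the elements of `A` -/
def ind {E : Type*} [Field E] [Algebra k E] [Algebra (RatFunc k) E] (τ : E →ₐ[k] K)
    (A : Subgroup Gal(K/k)) : Subgroup Gal(E/RatFunc k) where
  carrier := {σ | ∃ g ∈ A, ∀ v, τ (σ v) = g (τ v)}
  one_mem' := ⟨1, one_mem _, fun v => rfl⟩
  mul_mem' := by
    rintro σ σ' ⟨g, hg, h⟩ ⟨g', hg', h'⟩
    refine ⟨g * g', mul_mem hg hg', fun v => ?_⟩
    change τ (σ (σ' v)) = g (g' (τ v))
    rw [h, h']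
  inv_mem' := by
    rintro σ ⟨g, hg, h⟩
    refine ⟨g⁻¹, inv_mem hg, fun v => ?_⟩
    rw [eq_comm]
    apply PX.inv_apply_eq
    rw [← h]
    congr 1
    change (σ * σ⁻¹) v = v
    rw [mul_inv_cancel, AlgEquiv.one_apply]

theorem mem_ind {E : Type*} [Field E] [Algebra k E] [Algebra (RatFunc k) E] {τ : E →ₐ[k] K}
    {A : Subgroup Gal(K/k)} {σ : Gal(E/RatFunc k)} :
    σ ∈ ind τ A ↔ ∃ g ∈ A, ∀ v, τ (σ v) = g (τ v) := Iff.rfl

section

variable {E : Type*} [Field E] [Algebra k E] [Algebra (RatFunc k) E]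
  [IsScalarTower k (RatFunc k) E]

/-- automorphisms over `k(P)` induce automorphisms of `E` -/
theorem exists_sigma_of_mem [Normal (RatFunc k) E] (τ : E →ₐ[k] K) {P : K}
    (hTP : τ (algebraMap (RatFunc k) E RatFunc.X) ∈ k⟮P⟯) {g : Gal(K/k)}
    (hg : g ∈ (k⟮P⟯).fixingSubgroup) : ∃ σ : Gal(E/RatFunc k), ∀ v, τ (σ v) = g (τ v) :=
  exists_sigma (F := RatFunc k) (τ : E →+* K) ((g : K →ₐ[k] K) : K →+* K)
    (fun f => ALG.mem_fs.1 hg _ (tau_mem τ hTP f))

/-- normality of the induced group -/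
theorem ind_normal (τ : E →ₐ[k] K) {A A₀ : Subgroup Gal(K/k)}
    (hA : ∀ g₀ ∈ A₀, ∀ g ∈ A, g₀ * g * g₀⁻¹ ∈ A) (htop : ind τ A₀ = ⊤) : (ind τ A).Normal := by
  constructor
  rintro σ ⟨g, hg, h⟩ ρ
  have hρ : ρ ∈ ind τ A₀ := by rw [htop]; trivial
  obtain ⟨g₀, hg₀, h₀⟩ := hρ
  refine ⟨g₀ * g * g₀⁻¹, hA g₀ hg₀ g hg, fun v => ?_⟩
  have h1 : τ (ρ⁻¹ v) = g₀⁻¹ (τ v) := by
    rw [eq_comm]
    apply PX.inv_apply_eq
    rw [← h₀]
    congr 1
    change (ρ * ρ⁻¹) v = v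
    rw [mul_inv_cancel, AlgEquiv.one_apply]
  change τ (ρ (σ (ρ⁻¹ v))) = g₀ (g (g₀⁻¹ (τ v)))
  rw [h₀, h, h1]

/-- algebraic over `k(P)` -/
theorem isAlgebraic_tau [Algebra.IsAlgebraic (RatFunc k) E] (τ : E →ₐ[k] K) {P : K}
    (hTP : τ (algebraMap (RatFunc k) E RatFunc.X) ∈ k⟮P⟯) (v : E) : IsAlgebraic k⟮P⟯ (τ v) := by
  obtain ⟨f, hf, hfv⟩ := Algebra.IsAlgebraic.isAlgebraic (R := RatFunc k) v
  let ρ : RatFunc k →+* k⟮P⟯ :=
    ((τ : E →+* K).comp (algebraMap (RatFunc k) E)).codRestrict k⟮P⟯.toSubring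
      (fun g => tau_mem τ hTP g)
  refine ⟨f.map ρ, (Polynomial.map_ne_zero_iff ρ.injective).2 hf, ?_⟩
  rw [aeval_def, eval₂_map]
  have h1 : (algebraMap k⟮P⟯ K).comp ρ = (τ : E →+* K).comp (algebraMap (RatFunc k) E) := rfl
  rw [h1]
  have h2 := Polynomial.hom_eval₂ f (algebraMap (RatFunc k) E) (τ : E →+* K) v
  have h3 : eval₂ (algebraMap (RatFunc k) E) v f = 0 := hfv
  rw [h3, map_zero] at h2
  exact h2.symm

/-- the whole group is induced by the automorphisms over `Ω(P)` -/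
theorem ind_top [IsAlgClosed k] [IsAlgClosed K] (p : ℕ) [ExpChar k p]
    [FiniteDimensional (RatFunc k) E] [IsGalois (RatFunc k) E] (τ : E →ₐ[k] K) {P : K} {c : k}
    (hτ : τ (algebraMap (RatFunc k) E RatFunc.X) = algebraMap k K c + P)
    {Ω : IntermediateField k K} (hP : P ∉ ALG.ac Ω) (htop : ALG.ac (Ω ⊔ k⟮P⟯) = ⊤)
    {A : Subgroup Gal(K/k)} (hA : (Ω ⊔ k⟮P⟯).fixingSubgroup ≤ A) : ind τ A = ⊤ := by
  have hTP : τ (algebraMap (RatFunc k) E RatFunc.X) ∈ k⟮P⟯ := by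
    rw [hτ]
    exact add_mem (IntermediateField.algebraMap_mem _ _) (mem_adjoin_simple_self k P)
  haveI : ExpChar K p := expChar_of_injective_algebraMap (algebraMap k K).injective p
  haveI : ExpChar E p := expChar_of_injective_algebraMap (algebraMap k E).injective p
  haveI : Algebra.IsAlgebraic (Ω ⊔ k⟮P⟯ : IntermediateField k K) K :=
    ⟨fun w => ALG.mem_ac.1 (htop ▸ mem_top)⟩
  have hbot : fixedField (ind τ A) = ⊥ := by
    rw [eq_bot_iff]
    intro v hv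
    rw [mem_fixedField_iff] at hv
    obtain ⟨a, ha⟩ := ALG.pow_mem_of_fixed p (Ω ⊔ k⟮P⟯) (z := τ v) (by
      intro g hg
      have hgP : g ∈ (k⟮P⟯).fixingSubgroup := fixingSubgroup_antitone le_sup_right hg
      obtain ⟨σ, hσ⟩ := exists_sigma_of_mem τ hTP hgP
      rw [← hσ, hv σ ⟨g, hA hg, hσ⟩])
    have h1 : τ (v ^ p ^ a) ∈ k⟮P⟯ := by
      rw [map_pow]
      exact mem_simple_of_mem_sup hP ha ((isAlgebraic_tau τ hTP v).pow _)
    have h2 : k⟮P⟯ ≤ (τ.comp (IsScalarTower.toAlgHom k (RatFunc k) E)).fieldRange := by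
      rw [adjoin_simple_le_iff]
      refine ⟨RatFunc.X - algebraMap k (RatFunc k) c, ?_⟩
      change τ (algebraMap (RatFunc k) E (RatFunc.X - algebraMap k (RatFunc k) c)) = P
      rw [map_sub, map_sub, hτ, ← IsScalarTower.algebraMap_apply, AlgHom.commutes]
      ring
    obtain ⟨f, hf⟩ := h2 h1
    have hf' : τ (algebraMap (RatFunc k) E f) = τ (v ^ p ^ a) := hf
    have hvf : v ^ p ^ a = algebraMap (RatFunc k) E f := (τ.toRingHom.injective hf').symm
    rw [IsGalois.mem_bot_iff_fixed]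
    intro σ
    apply iterateFrobenius_inj E p a
    rw [iterateFrobenius_def, iterateFrobenius_def, ← map_pow, hvf, AlgEquiv.commutes]
  rw [← fixingSubgroup_fixedField (ind τ A), hbot, fixingSubgroup_bot]

end

/-- one embedding -/
theorem main_tau [IsAlgClosed k] [IsAlgClosed K] (hx : IsTranscendenceBasis k x) (p : ℕ)
    [ExpChar k p] (hℓ : 2 ≤ ℓ) (hN : 1 ≤ N) (hy : ∀ j, y j ^ ℓ = x (Fin.castLE hmn j))
    (hw : ∀ j, w j ^ N = 1 + y j) {r : ℕ} (hr : r < m) {E : Type*} [Field E] [Algebra k E]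
    [Algebra (RatFunc k) E] [IsScalarTower k (RatFunc k) E] [FiniteDimensional (RatFunc k) E]
    [IsGalois (RatFunc k) E] [Group.IsSolvable Gal(E/RatFunc k)] (c : k) (τ : E →ₐ[k] K)
    (hτ : τ (algebraMap (RatFunc k) E RatFunc.X) = algebraMap k K c + ∏ j, w j)
    (hmv : ∀ M : Subgroup Gal(E/RatFunc k), M.Normal → M.index.Prime →
      ∃ z : E, (∀ σ ∈ M, σ z = z) ∧
        ∀ S : Finset {t : Fin r → K // ∀ i, t i ∈ ALG.M k x r (0 + 1)},
        ∃ g ∈ (adjoin k (Set.range x)).fixingSubgroup, g ∈ (k⟮∏ j, w j⟯).fixingSubgroup ∧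
          (∀ t ∈ S, g ∈ (ALG.bracket (k := k) t.1).fixingSubgroup) ∧ g (τ z) ≠ τ z)
    {v : E} (hv : τ v ∈ ALG.M k x r 2) : v ∈ Set.range (algebraMap (RatFunc k) E) := by
  classical
  set P := ∏ j, w j with hP
  rw [ALG.M] at hv
  obtain ⟨S, hS⟩ := exists_finset_of_mem_iSup hv
  have hTP : τ (algebraMap (RatFunc k) E RatFunc.X) ∈ k⟮P⟯ := by
    rw [hτ]
    exact add_mem (IntermediateField.algebraMap_mem _ _) (mem_adjoin_simple_self k P)
  -- the automorphisms over `k(x)` and `P`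
  let i₀ : Fin m := ⟨0, by omega⟩
  obtain ⟨hPn, hFP⟩ := P_notMem hmn hx (by omega : 1 ≤ ℓ) hN hy hw i₀
  rw [← hP] at hPn hFP
  set Ω := PX.Om k x (Fin.castLE hmn i₀) with hΩ
  have hPac : P ∉ ALG.ac Ω := by rw [hΩ, PX.ac_Om]; exact hPn
  have htop : ALG.ac (Ω ⊔ k⟮P⟯) = ⊤ := by
    rw [eq_top_iff, ← ALG.ac_top_of_basis hx]
    exact ALG.ac_mono hFP
  let A₀ : Subgroup Gal(K/k) := (adjoin k (Set.range x)).fixingSubgroup ⊓ (k⟮P⟯).fixingSubgroup
  have hA₀ : ind τ A₀ = ⊤ := ind_top p τ hτ hPac htop (by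
    refine le_inf (fixingSubgroup_antitone hFP) (fixingSubgroup_antitone le_sup_right))
  -- the automorphisms over the `[u]`
  let B : Subgroup Gal(K/k) := ⨅ t ∈ S, (ALG.bracket (k := k) t.1).fixingSubgroup
  have hB : ∀ g, g ∈ B ↔ ∀ t ∈ S, g ∈ (ALG.bracket (k := k) t.1).fixingSubgroup := by
    intro g
    simp only [B, Subgroup.mem_iInf]
  have hnorm : (ind τ (A₀ ⊓ B)).Normal := by
    refine ind_normal τ ?_ hA₀
    intro g₀ hg₀ g hg
    rw [Subgroup.mem_inf] at hg ⊢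
    refine ⟨mul_mem (mul_mem hg₀ hg.1) (inv_mem hg₀), (hB _).2 (fun t ht => ?_)⟩
    rw [ALG.mem_fs]
    intro z hz
    have h1 : g₀⁻¹ z ∈ ALG.bracket (k := k) t.1 :=
      ALG.bracket_stable t.2 (inv_mem (Subgroup.mem_inf.1 hg₀).1) hz
    have h2 : g (g₀⁻¹ z) = g₀⁻¹ z := ALG.mem_fs.1 ((hB g).1 hg.2 t ht) _ h1
    change g₀ (g (g₀⁻¹ z)) = z
    rw [h2, PX.apply_inv]
  have hHtop : ind τ (A₀ ⊓ B) = ⊤ := by
    by_contra hne
    obtain ⟨M, hMn, hHM, hMp⟩ := exists_normal_prime_index (ind τ (A₀ ⊓ B)) hne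
    obtain ⟨z, hzM, hzS⟩ := hmv M hMn hMp
    obtain ⟨g, hgF, hgP, hgS, hgz⟩ := hzS S
    obtain ⟨σ, hσ⟩ := exists_sigma_of_mem τ hTP hgP
    have hσH : σ ∈ ind τ (A₀ ⊓ B) :=
      ⟨g, Subgroup.mem_inf.2 ⟨Subgroup.mem_inf.2 ⟨hgF, hgP⟩, (hB g).2 hgS⟩, hσ⟩
    apply hgz
    rw [← hσ, hzM σ (hHM hσH)]
  -- all automorphisms fix `v`
  have hfix : ∀ σ : Gal(E/RatFunc k), σ v = v := by
    intro σ
    have hσ : σ ∈ ind τ (A₀ ⊓ B) := by rw [hHtop]; trivial
    obtain ⟨g, hg, h⟩ := hσ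
    apply τ.toRingHom.injective
    change τ (σ v) = τ v
    rw [h]
    have h1 : g ∈ (⨆ t ∈ S, ALG.bracket (k := k) t.1).fixingSubgroup :=
      ALG.fs_iSup_aux S (fun t : {t : Fin r → K // ∀ i, t i ∈ ALG.M k x r (0 + 1)} =>
        ALG.bracket (k := k) t.1) ((hB g).1 (Subgroup.mem_inf.1 hg).2)
    exact ALG.mem_fs.1 h1 _ hS
  exact IntermediateField.mem_bot.1 ((IsGalois.mem_bot_iff_fixed v).2 hfix)

end RS
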