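import Pool.Agent.H20.RS.Gt
import Pool.Agent.H20.RS.Gal
import Pool.Agent.H20.RS.Ext

/-!
Every finite Galois extension of `k(T)`, with `T` sent to `x_1 + w_1 ⋯ w_m`.
-/

set_option linter.style.haveILetI false

namespace RS

open Polynomial IntermediateField
open scoped commutatorElement

variable {k K : Type*} [Field k] [Field K] [Algebra k K]
variable {m n : ℕ} {x : Fin n → K} {y w : Fin m → K} (hmn : m ≤ n) {ℓ N : ℕ}

/-- the algebraic closure of `k(T, x_j : j ≠ i₀, i₁)` -/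
noncomputable def Psi (k : Type*) [Field k] [Algebra k K] {n : ℕ} (x : Fin n → K) (i₀ i₁ : Fin n)
    (T : K) : IntermediateField k K :=
  ALG.ac (adjoin k (Set.range (fun j : {j : Fin n // j ≠ i₁} => if j.1 = i₀ then T else x j)))

theorem ac_Psi (i₀ i₁ : Fin n) (T : K) : ALG.ac (Psi k x i₀ i₁ T) = Psi k x i₀ i₁ T :=
  ALG.ac_ac _

theorem x_mem_Psi {i₀ i₁ j : Fin n} {T : K} (h0 : j ≠ i₀) (h1 : j ≠ i₁) :
    x j ∈ Psi k x i₀ i₁ T :=
  ALG.le_ac _ (subset_adjoin k _ ⟨⟨j, h1⟩, if_neg h0⟩)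

theorem T_mem_Psi {i₀ i₁ : Fin n} {T : K} (h : i₀ ≠ i₁) : T ∈ Psi k x i₀ i₁ T :=
  ALG.le_ac _ (subset_adjoin k _ ⟨⟨i₀, h⟩, if_pos rfl⟩)

theorem Psi_ne_top (hx : IsTranscendenceBasis k x) (i₀ i₁ : Fin n) (T : K) :
    Psi k x i₀ i₁ T ≠ ⊤ := by
  intro h1
  have h2 := ALG.le_card_of_ac_top hx _ h1
  have h3 : Nat.card {j : Fin n // j ≠ i₁} = n - 1 := by
    rw [Nat.card_eq_fintype_card, Fintype.card_subtype_compl]
    simp
  have h4 : 0 < n := i₁.pos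
  omega

include hmn in
/-- a field containing `T`, `T'` and the `y_j`, `j ≠ j₁`, contains `k(x)` and `W` -/
theorem all_mem (hx : IsTranscendenceBasis k x) (hN : 1 ≤ N)
    (hy : ∀ j, y j ^ ℓ = x (Fin.castLE hmn j)) (hw : ∀ j, w j ^ N = 1 + y j) {j₀ j₁ : Fin m}
    {χ : k} (hχ : χ ≠ 1) (Λ : IntermediateField k K)
    (h1 : x (Fin.castLE hmn j₀) + ∏ j, w j ∈ Λ)
    (h2 : x (Fin.castLE hmn j₀) + algebraMap k K χ * ∏ j, w j ∈ Λ)
    (h3 : ∀ j, j ≠ Fin.castLE hmn j₀ → j ≠ Fin.castLE hmn j₁ → x j ∈ Λ)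
    (h4 : ∏ j, w j ∈ Λ → x (Fin.castLE hmn j₀) ∈ Λ → ∀ j, j ≠ j₁ → y j ∈ Λ) :
    adjoin k (Set.range x) ≤ Λ ∧ ∏ j, w j ∈ Λ := by
  classical
  have hw0 := w_ne_zero hmn hx hN hy hw
  have hW : ∏ j, w j ∈ Λ := by
    have h5 : (χ - 1 : k) ≠ 0 := sub_ne_zero.2 hχ
    have h6 : ∏ j, w j = ((x (Fin.castLE hmn j₀) + algebraMap k K χ * ∏ j, w j) -
        (x (Fin.castLE hmn j₀) + ∏ j, w j)) / algebraMap k K (χ - 1) := by
      rw [eq_div_iff ((_root_.map_ne_zero _).2 h5), map_sub, map_one]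
      ring
    rw [h6]
    exact div_mem (sub_mem h2 h1) (IntermediateField.algebraMap_mem _ _)
  have hx0 : x (Fin.castLE hmn j₀) ∈ Λ := by
    have h5 := sub_mem h1 hW
    rwa [add_sub_cancel_right] at h5
  have hyj := h4 hW hx0
  have hwN : w j₁ ^ N ∈ Λ := by
    have h5 : w j₁ ^ N = (∏ j, w j) ^ N / ∏ j ∈ Finset.univ.erase j₁, (1 + y j) := by
      have h6 : ∏ j ∈ Finset.univ.erase j₁, (1 + y j) = (∏ j ∈ Finset.univ.erase j₁, w j) ^ N := by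
        rw [← Finset.prod_pow]
        exact Finset.prod_congr rfl (fun j _ => (hw j).symm)
      rw [h6, ← div_pow, ← Finset.mul_prod_erase _ _ (Finset.mem_univ j₁), mul_div_cancel_right₀]
      exact Finset.prod_ne_zero_iff.2 (fun j _ => hw0 j)
    rw [h5]
    exact div_mem (pow_mem hW _) (prod_mem (fun j hj => add_mem (one_mem _)
      (hyj j (Finset.ne_of_mem_erase hj))))
  have hx1 : x (Fin.castLE hmn j₁) ∈ Λ := by
    rw [← hy j₁]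
    apply pow_mem
    have h5 : y j₁ = w j₁ ^ N - 1 := by rw [hw]; ring
    rw [h5]
    exact sub_mem hwN (one_mem _)
  refine ⟨?_, hW⟩
  rw [adjoin_le_iff]
  rintro _ ⟨j, rfl⟩
  by_cases hj0 : j = Fin.castLE hmn j₀
  · rw [hj0]; exact hx0
  · by_cases hj1 : j = Fin.castLE hmn j₁
    · rw [hj1]; exact hx1
    · exact h3 j hj0 hj1

section

variable {E : Type*} [Field E] [Algebra k E] [Algebra (RatFunc k) E]
  [IsScalarTower k (RatFunc k) E] [FiniteDimensional (RatFunc k) E] [IsGalois (RatFunc k) E]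

include hmn in
/-- automorphisms over `k(x)` and `W` which fix `τ(E)` and act on a rotated copy as given -/
theorem single [IsAlgClosed k] [IsAlgClosed K] (hx : IsTranscendenceBasis k x) (p : ℕ)
    [ExpChar k p] (hℓ : 1 ≤ ℓ) (hN : 1 ≤ N) (hy : ∀ j, y j ^ ℓ = x (Fin.castLE hmn j))
    (hw : ∀ j, w j ^ N = 1 + y j) (hcard : Nat.Coprime (Nat.card Gal(E/RatFunc k)) ℓ)
    {j₀ j₁ : Fin m} (hj : j₀ ≠ j₁) (τ : E →ₐ[k] K)
    (hτ : τ (algebraMap (RatFunc k) E RatFunc.X) = x (Fin.castLE hmn j₀) + ∏ j, w j)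
    (γ : Gal(K/k)) (hγF : γ ∈ (adjoin k (Set.range x)).fixingSubgroup) {χ : k} (hχ : χ ≠ 1)
    (hγ : γ⁻¹ (∏ j, w j) = algebraMap k K χ * ∏ j, w j) (σ : Gal(E/RatFunc k)) :
    ∃ h ∈ (adjoin k (Set.range x)).fixingSubgroup, h (∏ j, w j) = ∏ j, w j ∧
      (∀ v, h (τ v) = τ v) ∧ ∀ v, γ (h (γ⁻¹ (τ v))) = τ (σ v) := by
  classical
  set F := adjoin k (Set.range x) with hF
  set T := x (Fin.castLE hmn j₀) + ∏ j, w j with hT
  set T' := x (Fin.castLE hmn j₀) + algebraMap k K χ * ∏ j, w j with hT'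
  have hij : Fin.castLE hmn j₀ ≠ Fin.castLE hmn j₁ := fun h => hj (Fin.castLE_injective hmn h)
  set Ψ := Psi k x (Fin.castLE hmn j₀) (Fin.castLE hmn j₁) T with hΨ
  have hΨac : ALG.ac Ψ = Ψ := ac_Psi _ _ _
  have hTΨ : T ∈ Ψ := T_mem_Psi hij
  have hyΨ : ∀ j, j ≠ j₀ → j ≠ j₁ → y j ∈ Ψ := by
    intro j h0 h1
    rw [← hΨac]
    apply ALG.root_mem_ac hℓ
    rw [hy]
    exact x_mem_Psi (fun h => h0 (Fin.castLE_injective hmn h))
      (fun h => h1 (Fin.castLE_injective hmn h))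
  -- `T'` is transcendental over `Ψ`
  have hT'Ψ : T' ∉ ALG.ac Ψ := by
    intro h
    rw [hΨac] at h
    apply Psi_ne_top hx (Fin.castLE hmn j₀) (Fin.castLE hmn j₁) T
    rw [← hΨ]
    obtain ⟨h1, -⟩ := all_mem hmn hx hN hy hw (j₁ := j₁) hχ Ψ hTΨ h
      (fun j h0 h1 => x_mem_Psi h0 h1) (by
        intro _ hx0 j hj1
        by_cases hj0 : j = j₀
        · rw [← hΨac]
          apply ALG.root_mem_ac hℓ
          rw [hj0, hy]
          exact hx0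
        · exact hyΨ j hj0 hj1)
    rw [← hΨac, eq_top_iff, ← ALG.ac_top_of_basis hx]
    exact ALG.ac_mono h1
  -- everything is algebraic over `Ψ(T')`
  have hmT' : T' ∈ Ψ ⊔ k⟮T'⟯ := (le_sup_right : k⟮T'⟯ ≤ _) (mem_adjoin_simple_self k _)
  have htop : ALG.ac (Ψ ⊔ k⟮T'⟯) = ⊤ := by
    obtain ⟨h1, -⟩ := all_mem hmn hx hN hy hw (j₁ := j₁) hχ (ALG.ac (Ψ ⊔ k⟮T'⟯))
      (ALG.le_ac _ ((le_sup_left : Ψ ≤ _) hTΨ)) (ALG.le_ac _ hmT')
      (fun j h0 h1 => ALG.le_ac _ ((le_sup_left : Ψ ≤ _) (x_mem_Psi h0 h1))) (by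
        intro _ hx0 j hj1
        by_cases hj0 : j = j₀
        · rw [← ALG.ac_ac]
          apply ALG.root_mem_ac hℓ
          rw [hj0, hy]
          exact hx0
        · exact ALG.le_ac _ ((le_sup_left : Ψ ≤ _) (hyΨ j hj0 hj1)))
    rw [← ALG.ac_ac, eq_top_iff, ← ALG.ac_top_of_basis hx]
    exact ALG.ac_mono h1
  -- the rotated embedding
  let τ' : E →ₐ[k] K := ((γ⁻¹ : Gal(K/k)) : K →ₐ[k] K).comp τ
  have hτ'v : ∀ v, τ' v = γ⁻¹ (τ v) := fun v => rfl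
  have hτ' : τ' (algebraMap (RatFunc k) E RatFunc.X) = algebraMap k K 0 + T' := by
    rw [hτ'v, hτ, map_zero, zero_add, hT, map_add, hγ,
      ALG.mem_fs.1 (inv_mem hγF) _ (subset_adjoin k _ ⟨_, rfl⟩)]
  have hind : ind τ' (Ψ ⊔ k⟮T'⟯).fixingSubgroup = ⊤ := ind_top p τ' hτ' hT'Ψ htop le_rfl
  -- an `ℓ`-th root of `σ`
  set σ' := (powCoprime hcard).symm σ with hσ'
  have hσσ : σ' ^ ℓ = σ := by
    have h1 := (powCoprime hcard).apply_symm_apply σ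
    rwa [powCoprime_apply] at h1
  obtain ⟨a, ha, haσ⟩ : σ' ∈ ind τ' (Ψ ⊔ k⟮T'⟯).fixingSubgroup := by rw [hind]; trivial
  have haΨ : a ∈ Ψ.fixingSubgroup := fixingSubgroup_antitone le_sup_left ha
  have haT' : a ∈ (k⟮T'⟯).fixingSubgroup := fixingSubgroup_antitone le_sup_right ha
  have hapow : ∀ (i : ℕ) (v : E), (a ^ i) (τ' v) = τ' ((σ' ^ i) v) := by
    intro i
    induction i with
    | zero => intro v; rfl
    | succ i ih =>
      intro v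
      rw [pow_succ, pow_succ, AlgEquiv.mul_apply, AlgEquiv.mul_apply, ← haσ, ih]
  -- `a` multiplies `y_{j₀}` by a root of unity
  have hax0 : a (x (Fin.castLE hmn j₀)) = x (Fin.castLE hmn j₀) := by
    have hWm : ∏ j, w j ∈ Ψ ⊔ k⟮T'⟯ := by
      have h5 : (χ - 1 : k) ≠ 0 := sub_ne_zero.2 hχ
      have h6 : ∏ j, w j = (T' - T) / algebraMap k K (χ - 1) := by
        rw [eq_div_iff ((_root_.map_ne_zero _).2 h5), map_sub, map_one, hT, hT']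
        ring
      rw [h6]
      exact div_mem (sub_mem hmT' ((le_sup_left : Ψ ≤ _) hTΨ)) (IntermediateField.algebraMap_mem _ _)
    have h7 : x (Fin.castLE hmn j₀) ∈ Ψ ⊔ k⟮T'⟯ := by
      have h8 := sub_mem ((le_sup_left : Ψ ≤ Ψ ⊔ k⟮T'⟯) hTΨ) hWm
      rwa [hT, add_sub_cancel_right] at h8
    exact ALG.mem_fs.1 ha _ h7
  obtain ⟨ζ, hζ⟩ := ALG.exists_algebraMap_of_pow (k := k) (a := a (y j₀)) (b := y j₀) ℓ hℓ
    (by rw [← map_pow, hy, hax0])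
  have hy0 : y j₀ ≠ 0 := ALG.y_ne_zero hmn hx hℓ hy j₀
  have hζℓ : ζ ^ ℓ = 1 := by
    apply (algebraMap k K).injective
    have h1 : (a (y j₀)) ^ ℓ = y j₀ ^ ℓ := by rw [← map_pow, hy, hax0]
    rw [hζ, mul_pow] at h1
    rw [map_pow, map_one]
    exact mul_right_cancel₀ (pow_ne_zero ℓ hy0) (by rw [h1, one_mul])
  have hay : ∀ i : ℕ, (a ^ i) (y j₀) = algebraMap k K (ζ ^ i) * y j₀ := by
    intro i
    induction i with
    | zero => simp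
    | succ i ih =>
      rw [pow_succ', AlgEquiv.mul_apply, ih, map_mul, AlgEquiv.commutes, hζ, pow_succ, map_mul]
      ring
  have hhy : (a ^ ℓ) (y j₀) = y j₀ := by rw [hay, hζℓ, map_one, one_mul]
  have hhΨ : a ^ ℓ ∈ Ψ.fixingSubgroup := pow_mem haΨ _
  have hhT' : a ^ ℓ ∈ (k⟮T'⟯).fixingSubgroup := pow_mem haT' _
  set Λ := Ψ ⊔ k⟮T'⟯ ⊔ k⟮y j₀⟯ with hΛ
  have hhΛ : a ^ ℓ ∈ Λ.fixingSubgroup := by
    rw [hΛ, fixingSubgroup_sup, fixingSubgroup_sup]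
    refine Subgroup.mem_inf.2 ⟨Subgroup.mem_inf.2 ⟨hhΨ, hhT'⟩, ?_⟩
    rw [ALG.mem_fs_adjoin]
    rintro z hz
    rw [Set.mem_singleton_iff] at hz
    rw [hz]
    exact hhy
  have hΨΛ : Ψ ≤ Λ := le_sup_left.trans le_sup_left
  obtain ⟨hFΛ, hWΛ⟩ := all_mem hmn hx hN hy hw (j₁ := j₁) hχ Λ (hΨΛ hTΨ)
    ((le_sup_left : Ψ ⊔ k⟮T'⟯ ≤ Λ) hmT') (fun j h0 h1 => hΨΛ (x_mem_Psi h0 h1)) (by
      intro _ _ j hj1
      by_cases hj0 : j = j₀
      · rw [hj0]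
        exact (le_sup_right : k⟮y j₀⟯ ≤ Λ) (mem_adjoin_simple_self k _)
      · exact hΨΛ (hyΨ j hj0 hj1))
  refine ⟨a ^ ℓ, fixingSubgroup_antitone hFΛ hhΛ, ALG.mem_fs.1 hhΛ _ hWΛ, ?_, ?_⟩
  · intro v
    have h1 : τ v ∈ ALG.ac k⟮T⟯ := ALG.mem_ac.2 (isAlgebraic_tau τ (by
      rw [hτ]; exact mem_adjoin_simple_self k T) v)
    have h2 : τ v ∈ Ψ := by
      rw [← hΨac]
      exact ALG.ac_mono (adjoin_simple_le_iff.2 hTΨ) h1
    exact ALG.mem_fs.1 hhΨ _ h2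
  · intro v
    rw [← hτ'v, hapow, hσσ, hτ'v, PX.apply_inv]

end

end RS
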