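import Mathlib

/-!
Artin-Schreier normal forms of rational functions.
-/

set_option autoImplicit false

namespace RS

open Polynomial

/-- The three normal forms. -/
def NF {k : Type*} [Field k] (p : ℕ) (f : RatFunc k) : Prop :=
  (∃ g : RatFunc k, f = g ^ p - g) ∨
  (∃ (g : RatFunc k) (A B : k[X]) (b : k) (n : ℕ), A.eval b ≠ 0 ∧ B.eval b ≠ 0 ∧ ¬ (p ∣ n) ∧
    f = g ^ p - g + algebraMap k[X] (RatFunc k) A /
      algebraMap k[X] (RatFunc k) ((X - C b) ^ n * B)) ∨
  (∃ (g : RatFunc k) (A : k[X]), ¬ (p ∣ A.natDegree) ∧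
    f = g ^ p - g + algebraMap k[X] (RatFunc k) A)

section

variable {k : Type*} [Field k] (p : ℕ) [Fact p.Prime] [CharP k p]

lemma charP_ratFunc : CharP (RatFunc k) p :=
  charP_of_injective_algebraMap (RatFunc.algebraMap_injective k) p

variable {p}

lemma NF.shift {f : RatFunc k} (h : RatFunc k) (hf : NF p f) : NF p (f + (h ^ p - h)) := by
  have := charP_ratFunc (k := k) p
  rcases hf with ⟨g, rfl⟩ | ⟨g, A, B, b, n, h1, h2, h3, rfl⟩ | ⟨g, A, h1, rfl⟩
  · exact Or.inl ⟨g + h, by rw [add_pow_char]; ring⟩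
  · exact Or.inr (Or.inl ⟨g + h, A, B, b, n, h1, h2, h3, by rw [add_pow_char]; ring⟩)
  · exact Or.inr (Or.inr ⟨g + h, A, h1, by rw [add_pow_char]; ring⟩)

variable [IsAlgClosed k]

lemma nf_poly : ∀ (J : ℕ) (A : k[X]), A.natDegree = J →
    NF p (algebraMap k[X] (RatFunc k) A) := by
  have hp : 2 ≤ p := (Fact.out : p.Prime).two_le
  intro J
  induction J using Nat.strong_induction_on with
  | _ J ih =>
  intro A hA
  rcases Nat.eq_zero_or_pos J with hJ | hJ
  · -- a constant
    rw [hJ] at hA
    obtain ⟨a, rfl⟩ := natDegree_eq_zero.1 hA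
    have hdeg : (X ^ p - X - C a : k[X]).natDegree = p := by
      have h1 : (X ^ p - X - C a : k[X]) = X ^ p - (X + C a) := by ring
      rw [h1, natDegree_sub_eq_left_of_natDegree_lt, natDegree_X_pow]
      rw [natDegree_X_pow, natDegree_X_add_C]
      omega
    have hd0 : (X ^ p - X - C a : k[X]).degree ≠ 0 := by
      intro h0
      have h2 := natDegree_eq_of_degree_eq_some (n := 0) h0
      omega
    obtain ⟨c, hc⟩ := IsAlgClosed.exists_root (X ^ p - X - C a : k[X]) hd0
    have hc' : c ^ p - c = a := by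
      simp only [IsRoot.def, eval_sub, eval_pow, eval_X, eval_C] at hc
      exact sub_eq_zero.1 hc
    refine Or.inl ⟨algebraMap k[X] (RatFunc k) (C c), ?_⟩
    rw [← map_pow, ← map_sub, ← C_pow, ← C_sub, hc']
  · by_cases hpJ : p ∣ J
    · obtain ⟨J', rfl⟩ := hpJ
      have hJ' : 1 ≤ J' := Nat.pos_of_mul_pos_left hJ
      obtain ⟨c, hc⟩ := IsAlgClosed.exists_pow_nat_eq A.leadingCoeff (show 0 < p by omega)
      have hA0 : A ≠ 0 := by
        rintro rfl
        rw [natDegree_zero] at hA
        omega
      have hc0 : c ≠ 0 := by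
        rintro rfl
        rw [zero_pow (by omega)] at hc
        exact hA0 (leadingCoeff_eq_zero.1 hc.symm)
      let Q : k[X] := C c * X ^ J'
      have hQ : Q.natDegree = J' := natDegree_C_mul_X_pow J' c hc0
      have hQp : Q ^ p = C (A.leadingCoeff) * X ^ (p * J') := by
        show (C c * X ^ J') ^ p = _
        rw [mul_pow, ← C_pow, hc, ← pow_mul, mul_comm J' p]
      have hlt : (A - Q ^ p).natDegree < p * J' ∨ A - Q ^ p = 0 := by
        by_cases h0 : A - Q ^ p = 0
        · exact Or.inr h0
        · left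
          have h1 : (A - Q ^ p).degree < A.degree := by
            refine degree_sub_lt ?_ hA0 ?_
            · rw [hQp, degree_C_mul_X_pow _ (leadingCoeff_ne_zero.2 hA0), degree_eq_natDegree hA0,
                hA]
            · rw [hQp, leadingCoeff_C_mul_X_pow]
          rw [← hA]
          exact natDegree_lt_natDegree h0 h1
      have hJJ : J' < p * J' := by nlinarith
      have hlt' : (A - Q ^ p + Q).natDegree < p * J' := by
        refine lt_of_le_of_lt (natDegree_add_le _ _) (max_lt ?_ ?_)
        · rcases hlt with h | h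
          · exact h
          · rw [h, natDegree_zero]; exact hJ
        · rw [hQ]; exact hJJ
      have h2 := (ih _ hlt' _ rfl).shift (algebraMap k[X] (RatFunc k) Q)
      have h3 : algebraMap k[X] (RatFunc k) A =
          algebraMap k[X] (RatFunc k) (A - Q ^ p + Q) +
            (algebraMap k[X] (RatFunc k) Q ^ p - algebraMap k[X] (RatFunc k) Q) := by
        rw [map_add, map_sub, map_pow]; ring
      rw [h3]
      exact h2
    · have := Fact.out (p := p.Prime)
      exact Or.inr (Or.inr ⟨0, A, by rw [hA]; exact hpJ, by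
        rw [zero_pow (by omega), sub_zero, zero_add]⟩)

lemma nf_frac : ∀ (J : ℕ) (A D : k[X]), D ≠ 0 → D.natDegree = J →
    NF p (algebraMap k[X] (RatFunc k) A / algebraMap k[X] (RatFunc k) D) := by
  have hp : 2 ≤ p := (Fact.out : p.Prime).two_le
  have hinj := RatFunc.algebraMap_injective k
  have hne : ∀ D : k[X], D ≠ 0 → algebraMap k[X] (RatFunc k) D ≠ 0 := fun D hD h =>
    hD (hinj (by rw [h, map_zero]))
  intro J
  induction J using Nat.strong_induction_on with
  | _ J ih =>
  intro A D hD hJ
  rcases Nat.eq_zero_or_pos J with hJ0 | hJ0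
  · rw [hJ0] at hJ
    obtain ⟨d, rfl⟩ := natDegree_eq_zero.1 hJ
    have hd : d ≠ 0 := fun h => hD (by rw [h, C_0])
    have h1 : algebraMap k[X] (RatFunc k) A / algebraMap k[X] (RatFunc k) (C d) =
        algebraMap k[X] (RatFunc k) (A * C d⁻¹) := by
      rw [div_eq_iff (hne _ hD), ← map_mul, mul_assoc, ← C_mul, inv_mul_cancel₀ hd, C_1, mul_one]
    rw [h1]
    exact nf_poly _ _ rfl
  · have hd0 : D.degree ≠ 0 := by
      intro h0
      have h2 := natDegree_eq_of_degree_eq_some (n := 0) h0
      omega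
    obtain ⟨b, hb⟩ := IsAlgClosed.exists_root D hd0
    have hXb : (X - C b : k[X]) ≠ 0 := X_sub_C_ne_zero b
    -- cancelling
    have hcancel : ∀ A' D' : k[X], D' ≠ 0 → D'.natDegree = J → D'.eval b = 0 → A'.eval b = 0 →
        NF p (algebraMap k[X] (RatFunc k) A' / algebraMap k[X] (RatFunc k) D') := by
      intro A' D' hD' hJ' h1 h2
      obtain ⟨D1, rfl⟩ := dvd_iff_isRoot.2 (show IsRoot D' b from h1)
      obtain ⟨A1, rfl⟩ := dvd_iff_isRoot.2 (show IsRoot A' b from h2)
      have hD1 : D1 ≠ 0 := right_ne_zero_of_mul hD'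
      rw [natDegree_mul hXb hD1, natDegree_X_sub_C] at hJ'
      rw [map_mul, map_mul, mul_div_mul_left _ _ (hne _ hXb)]
      exact ih D1.natDegree (by omega) A1 D1 hD1 rfl
    by_cases hA : A.eval b = 0
    · exact hcancel A D hD hJ hb hA
    · obtain ⟨B, hB1, hB2⟩ := exists_eq_pow_rootMultiplicity_mul_and_not_dvd D hD b
      have hBb : B.eval b ≠ 0 := fun h => hB2 (dvd_iff_isRoot.2 h)
      have hn1 : 0 < rootMultiplicity b D := (rootMultiplicity_pos hD).2 hb
      generalize rootMultiplicity b D = n at *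
      have hB0 : B ≠ 0 := by
        rintro rfl
        rw [eval_zero] at hBb
        exact hBb rfl
      by_cases hpn : p ∣ n
      · obtain ⟨n', rfl⟩ := hpn
        have hn' : 1 ≤ n' := Nat.pos_of_mul_pos_left hn1
        obtain ⟨c, hc⟩ := IsAlgClosed.exists_pow_nat_eq (A.eval b / B.eval b)
          (show 0 < p by omega)
        have hnn : n' < p * n' := by nlinarith
        obtain ⟨m, hm⟩ : ∃ m, p * n' = n' + (m + 1) := ⟨p * n' - n' - 1, by omega⟩
        let A' : k[X] := A - C (c ^ p) * B + C c * (X - C b) ^ (m + 1) * B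
        have hA'b : A'.eval b = 0 := by
          simp only [A', eval_add, eval_sub, eval_mul, eval_C, eval_pow, eval_X, sub_self]
          rw [zero_pow (Nat.succ_ne_zero m), hc, div_mul_cancel₀ _ hBb]
          ring
        have h2 := (hcancel A' D hD hJ hb hA'b).shift
          (algebraMap k[X] (RatFunc k) (C c) / algebraMap k[X] (RatFunc k) ((X - C b) ^ n'))
        have h3 : algebraMap k[X] (RatFunc k) A / algebraMap k[X] (RatFunc k) D =
            algebraMap k[X] (RatFunc k) A' / algebraMap k[X] (RatFunc k) D +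
            ((algebraMap k[X] (RatFunc k) (C c) /
              algebraMap k[X] (RatFunc k) ((X - C b) ^ n')) ^ p -
            algebraMap k[X] (RatFunc k) (C c) /
              algebraMap k[X] (RatFunc k) ((X - C b) ^ n')) := by
          have hx : algebraMap k[X] (RatFunc k) (X - C b) ≠ 0 := hne _ hXb
          have hBn : algebraMap k[X] (RatFunc k) B ≠ 0 := hne _ hB0
          rw [hB1]
          simp only [A', map_add, map_sub, map_mul, map_pow, C_pow]
          set x := algebraMap k[X] (RatFunc k) X - algebraMap k[X] (RatFunc k) (C b) with hxdef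
          have hx' : x ≠ 0 := by rw [hxdef, ← map_sub]; exact hx
          rw [div_pow, ← pow_mul, mul_comm n' p]
          have h4 : x ^ (p * n') = x ^ n' * x ^ (m + 1) := by rw [← pow_add, hm]
          have h5 : x ^ (p * n') ≠ 0 := pow_ne_zero _ hx'
          have h6 : x ^ n' ≠ 0 := pow_ne_zero _ hx'
          have h7 : x ^ (m + 1) ≠ 0 := pow_ne_zero _ hx'
          have h8 : algebraMap k[X] (RatFunc k) (C c) / x ^ n' =
              (algebraMap k[X] (RatFunc k) (C c) * x ^ (m + 1) *
                algebraMap k[X] (RatFunc k) B) /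
                (x ^ (p * n') * algebraMap k[X] (RatFunc k) B) := by
            rw [h4, div_eq_div_iff h6 (mul_ne_zero (mul_ne_zero h6 h7) hBn)]
            ring
          have h9 : algebraMap k[X] (RatFunc k) (C c) ^ p / x ^ (p * n') =
              (algebraMap k[X] (RatFunc k) (C c) ^ p * algebraMap k[X] (RatFunc k) B) /
                (x ^ (p * n') * algebraMap k[X] (RatFunc k) B) :=
            (mul_div_mul_right _ _ hBn).symm
          rw [h8, h9, ← sub_div, ← add_div]
          congr 1
          ring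
        rw [h3]
        exact h2
      · refine Or.inr (Or.inl ⟨0, A, B, b, n, hA, hBb, hpn, ?_⟩)
        rw [zero_pow (by omega), sub_zero, zero_add, ← hB1]

end

theorem exists_normal_form {k : Type*} [Field k] [IsAlgClosed k] (p : ℕ) [Fact p.Prime]
    [CharP k p] (f : RatFunc k) :
    (∃ g : RatFunc k, f = g ^ p - g) ∨
    (∃ (g : RatFunc k) (A B : k[X]) (b : k) (n : ℕ), A.eval b ≠ 0 ∧ B.eval b ≠ 0 ∧ ¬ (p ∣ n) ∧
      f = g ^ p - g + algebraMap k[X] (RatFunc k) A /
        algebraMap k[X] (RatFunc k) ((X - C b) ^ n * B)) ∨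
    (∃ (g : RatFunc k) (A : k[X]), ¬ (p ∣ A.natDegree) ∧
      f = g ^ p - g + algebraMap k[X] (RatFunc k) A) := by
  have h := nf_frac (p := p) f.denom.natDegree f.num f.denom f.denom_ne_zero rfl
  rw [RatFunc.num_div_denom] at h
  exact h

end RS
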