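import Pool.Agent.H20.RS.Sb
import Pool.Agent.H20.RS.As
import Pool.Agent.H20.RS.Nf

/-!
A generic translate of a nontrivial Artin-Schreier class is good.
-/

set_option linter.style.haveILetI false

namespace RS

open Polynomial

variable {k : Type*} [Field k] (p : ℕ) [Fact p.Prime] [CharP k p]

/-- the pole case -/
theorem finite_not_goodA_pole {N : ℕ} (A B : k[X]) (b : k) (n : ℕ) (hA : A.eval b ≠ 0)
    (hB : B.eval b ≠ 0) (hn : ¬ p ∣ n) {ζ : kˣ} (hζ : ζ ^ N = 1) (hζ1 : ζ ≠ 1) :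
    {c : k | ¬ GoodA p N (sb 1 c (algebraMap k[X] (RatFunc k) A /
      algebraMap k[X] (RatFunc k) ((X - C b) ^ n * B)))}.Finite := by
  classical
  have hB0 : B ≠ 0 := by rintro rfl; exact hB (eval_zero)
  have hζ1' : (ζ : k) ≠ 1 := fun h => hζ1 (Units.ext h)
  have hζ0 : (ζ : k) ≠ 0 := ζ.ne_zero
  have hn0 : n ≠ 0 := by rintro rfl; exact hn (dvd_zero p)
  have hfin : (insert b ((fun ρ : k => (ρ - (ζ : k)⁻¹ * b) / (1 - (ζ : k)⁻¹)) ''
      (B.rootSet k))).Finite := ((rootSet_finite B k).image _).insert b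
  refine hfin.subset ?_
  intro c hc
  by_contra hcon
  rw [Set.mem_insert_iff, not_or] at hcon
  obtain ⟨hcb, hcB⟩ := hcon
  apply hc
  refine ⟨ζ, hζ, ?_⟩
  rw [mem_range_wH]
  rintro ⟨h, hh⟩
  set x₀ : k := (ζ : k)⁻¹ * (b - c) with hx₀
  have hinv1 : (1 : k) - (ζ : k)⁻¹ ≠ 0 := by
    intro h0
    apply hζ1'
    have h1 : (ζ : k)⁻¹ = 1 := by linear_combination -h0
    rw [← inv_inv (ζ : k), h1, inv_one]
  -- the second function is regular at `x₀`
  have h2 : c + x₀ - b ≠ 0 := by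
    have h3 : c + x₀ - b = (c - b) * (1 - (ζ : k)⁻¹) := by rw [hx₀]; ring
    rw [h3]
    exact mul_ne_zero (sub_ne_zero.2 hcb) hinv1
  have hB2 : B.eval (c + x₀) ≠ 0 := by
    intro h0
    apply hcB
    refine ⟨c + x₀, ?_, ?_⟩
    · rw [mem_rootSet]
      exact ⟨hB0, by simpa [aeval_def] using h0⟩
    · change (c + x₀ - (ζ : k)⁻¹ * b) / (1 - (ζ : k)⁻¹) = c
      rw [div_eq_iff hinv1, hx₀]
      ring
  -- polynomials
  set A₁ : k[X] := A.comp (C (ζ : k) * X + C c) with hA₁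
  set B₁ : k[X] := C ((ζ : k) ^ n) * B.comp (C (ζ : k) * X + C c) with hB₁
  set A₂ : k[X] := A.comp (X + C c) with hA₂
  set D₂ : k[X] := (X + C c - C b) ^ n * B.comp (X + C c) with hD₂
  have hev1 : ∀ Q : k[X], (Q.comp (C (ζ : k) * X + C c)).eval x₀ = Q.eval b := by
    intro Q
    rw [eval_comp]
    congr 1
    simp only [eval_add, eval_mul, eval_C, eval_X]
    rw [hx₀, mul_inv_cancel_left₀ hζ0]
    ring
  have hB₁e : B₁.eval x₀ ≠ 0 := by
    rw [hB₁, eval_mul, eval_C, hev1]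
    exact mul_ne_zero (pow_ne_zero _ hζ0) hB
  have hD₂e : D₂.eval x₀ ≠ 0 := by
    rw [hD₂, eval_mul, eval_pow, eval_comp]
    simp only [eval_sub, eval_add, eval_X, eval_C]
    refine mul_ne_zero (pow_ne_zero _ ?_) ?_
    · rwa [add_comm x₀ c]
    · rwa [add_comm x₀ c]
  have hsb1 : sb ζ 0 (sb 1 c (algebraMap k[X] (RatFunc k) A /
      algebraMap k[X] (RatFunc k) ((X - C b) ^ n * B))) =
      algebraMap k[X] (RatFunc k) A₁ / algebraMap k[X] (RatFunc k) ((X - C x₀) ^ n * B₁) := by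
    rw [sb_sb, one_mul, Units.val_one, mul_zero, zero_add, map_div₀, sb_poly, sb_poly]
    congr 2
    rw [mul_comp, pow_comp, sub_comp, X_comp, C_comp, hB₁]
    have h3 : (C (ζ : k) * X + C c - C b : k[X]) = C (ζ : k) * (X - C x₀) := by
      rw [hx₀, mul_sub, ← C_mul, mul_inv_cancel_left₀ hζ0, C_sub]
      ring
    rw [h3, mul_pow, ← C_pow]
    ring
  have hsb2 : sb 1 c (algebraMap k[X] (RatFunc k) A /
      algebraMap k[X] (RatFunc k) ((X - C b) ^ n * B)) =
      algebraMap k[X] (RatFunc k) A₂ / algebraMap k[X] (RatFunc k) D₂ := by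
    rw [map_div₀, sb_poly, sb_poly, Units.val_one, C_1, one_mul]
    congr 2
    rw [mul_comp, pow_comp, sub_comp, X_comp, C_comp]
  have hX0 : (X - C x₀ : k[X]) ≠ 0 := X_sub_C_ne_zero _
  have hB₁0 : B₁ ≠ 0 := by
    intro h0
    rw [h0, eval_zero] at hB₁e
    exact hB₁e rfl
  have hD₂0 : D₂ ≠ 0 := by
    intro h0
    rw [h0, eval_zero] at hD₂e
    exact hD₂e rfl
  have hd1 : algebraMap k[X] (RatFunc k) ((X - C x₀) ^ n * B₁) ≠ 0 :=
    RatFunc.algebraMap_ne_zero (mul_ne_zero (pow_ne_zero _ hX0) hB₁0)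
  have hd2 : algebraMap k[X] (RatFunc k) D₂ ≠ 0 := RatFunc.algebraMap_ne_zero hD₂0
  rw [hsb1, hsb2, div_sub_div _ _ hd1 hd2, ← map_mul, ← map_mul, ← map_mul, ← map_sub,
    mul_assoc] at hh
  refine not_as_of_pole p (A₁ * D₂ - (X - C x₀) ^ n * (B₁ * A₂)) (B₁ * D₂) x₀ n ?_ ?_ hn h ?_
  · have e1 : ((X - C x₀ : k[X]) ^ n * (B₁ * A₂)).eval x₀ = 0 := by
      rw [eval_mul, eval_pow, eval_sub, eval_X, eval_C, sub_self, zero_pow hn0, zero_mul]
    have e2 : (A₁ * D₂).eval x₀ = A.eval b * D₂.eval x₀ := by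
      rw [eval_mul, hA₁, hev1]
    rw [eval_sub, e1, e2, sub_zero]
    exact mul_ne_zero hA hD₂e
  · rw [eval_mul]
    exact mul_ne_zero hB₁e hD₂e
  · rw [← hh]
    congr 2
    ring

/-- the polynomial case -/
theorem goodA_of_degree {N : ℕ} (A : k[X]) (hA : ¬ p ∣ A.natDegree) {ζ : kˣ} (hζ : ζ ^ N = 1)
    (hζA : (ζ : k) ^ A.natDegree ≠ 1) (c : k) :
    GoodA p N (sb 1 c (algebraMap k[X] (RatFunc k) A)) := by
  refine ⟨ζ, hζ, ?_⟩
  rw [mem_range_wH]
  rintro ⟨h, hh⟩
  rw [sb_sb, one_mul, Units.val_one, mul_zero, zero_add, sb_poly, sb_poly, Units.val_one, C_1,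
    one_mul, ← map_sub] at hh
  refine not_as_of_degree p _ ?_ h hh
  have hA0 : A ≠ 0 := by
    rintro rfl
    rw [natDegree_zero] at hA
    exact hA (dvd_zero p)
  have hJ : A.natDegree ≠ 0 := by
    intro h0
    rw [h0] at hA
    exact hA (dvd_zero p)
  have hd1 : (C (ζ : k) * X + C c : k[X]).natDegree = 1 := natDegree_linear ζ.ne_zero
  have hd2 : (X + C c : k[X]).natDegree = 1 := natDegree_X_add_C c
  have hn1 : (A.comp (C (ζ : k) * X + C c)).natDegree = A.natDegree := by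
    rw [natDegree_comp, hd1, mul_one]
  have hn2 : (A.comp (X + C c)).natDegree = A.natDegree := by
    rw [natDegree_comp, hd2, mul_one]
  have hl1 : (A.comp (C (ζ : k) * X + C c)).leadingCoeff =
      A.leadingCoeff * (ζ : k) ^ A.natDegree := by
    rw [leadingCoeff_comp (by rw [hd1]; exact one_ne_zero), leadingCoeff_linear ζ.ne_zero]
  have hl2 : (A.comp (X + C c)).leadingCoeff = A.leadingCoeff := by
    rw [leadingCoeff_comp (by rw [hd2]; exact one_ne_zero), leadingCoeff_X_add_C, one_pow, mul_one]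
  have hcoef : (A.comp (C (ζ : k) * X + C c) - A.comp (X + C c)).coeff A.natDegree ≠ 0 := by
    have h1 : (A.comp (C (ζ : k) * X + C c)).coeff A.natDegree =
        A.leadingCoeff * (ζ : k) ^ A.natDegree := by
      rw [← hl1, leadingCoeff, hn1]
    have h2 : (A.comp (X + C c)).coeff A.natDegree = A.leadingCoeff := by
      rw [← hl2, leadingCoeff, hn2]
    rw [coeff_sub, h1, h2]
    have h3 : A.leadingCoeff * (ζ : k) ^ A.natDegree - A.leadingCoeff =
        A.leadingCoeff * ((ζ : k) ^ A.natDegree - 1) := by ring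
    rw [h3]
    exact mul_ne_zero (leadingCoeff_ne_zero.2 hA0) (sub_ne_zero.2 hζA)
  have hdeg : (A.comp (C (ζ : k) * X + C c) - A.comp (X + C c)).natDegree = A.natDegree := by
    apply le_antisymm
    · refine (natDegree_sub_le _ _).trans ?_
      rw [hn1, hn2, max_self]
    · exact le_natDegree_of_ne_zero hcoef
  rw [hdeg]
  exact hA

/-- a generic translate of a nontrivial class is good, if `N` is large -/
theorem exists_bound_goodA [IsAlgClosed k] (f : RatFunc k) (hf : ∀ h, f ≠ h ^ p - h) :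
    ∃ N₀ : ℕ, ∀ N : ℕ, N₀ < N → ∀ ζ : kˣ, IsPrimitiveRoot (ζ : k) N →
      {c : k | ¬ GoodA p N (sb 1 c f)}.Finite := by
  rcases exists_normal_form p f with ⟨g, hg⟩ | ⟨g, A, B, b, n, hA, hB, hn, hg⟩ | ⟨g, A, hA, hg⟩
  · exact absurd hg (hf g)
  · refine ⟨1, fun N hN ζ hζ => ?_⟩
    have hζ' : ζ ^ N = 1 := Units.ext (by rw [Units.val_pow_eq_pow_val, hζ.pow_eq_one,
      Units.val_one])
    have hζ1 : ζ ≠ 1 := by
      rintro rfl
      exact hζ.ne_one hN (Units.val_one)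
    refine (finite_not_goodA_pole p A B b n hA hB hn hζ' hζ1).subset ?_
    intro c hc hgood
    apply hc
    refine GoodA.congr p hgood ?_
    rw [← map_sub]
    apply sb_mem
    rw [mem_range_wH]
    exact ⟨g, by rw [hg]; ring⟩
  · refine ⟨A.natDegree, fun N hN ζ hζ => ?_⟩
    have hζ' : ζ ^ N = 1 := Units.ext (by rw [Units.val_pow_eq_pow_val, hζ.pow_eq_one,
      Units.val_one])
    have hJ : A.natDegree ≠ 0 := by
      intro h0
      rw [h0] at hA
      exact hA (dvd_zero p)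
    have hζA : (ζ : k) ^ A.natDegree ≠ 1 := by
      intro h
      have h1 := Nat.le_of_dvd (Nat.pos_of_ne_zero hJ) (hζ.dvd_of_pow_eq_one _ h)
      omega
    have hempty : {c : k | ¬ GoodA p N (sb 1 c f)} = ∅ := by
      rw [Set.eq_empty_iff_forall_notMem]
      intro c hc
      apply hc
      refine GoodA.congr p (goodA_of_degree p A hA hζ' hζA c) ?_
      rw [← map_sub]
      apply sb_mem
      rw [mem_range_wH]
      exact ⟨g, by rw [hg]; ring⟩
    rw [hempty]
    exact Set.finite_empty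

end RS
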