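import Mathlib

/-!
Group theory: coprime action and iterated commutators with normal subgroups.
-/

set_option linter.style.haveILetI false

namespace RS

open Subgroup
open scoped commutatorElement

/-- the coprime action lemma -/
theorem comm_le_comm {Q : Type*} [Group Q] (A : Subgroup Q) [A.Normal] {e N : ℕ}
    (hcop : Nat.Coprime e N) (hA : ∀ a ∈ A, a ^ e = 1) (g : Q) (hg : g ^ N = 1)
    (hQ : ∀ γ : Q, ∃ a ∈ A, ∃ i : ℕ, γ = a * g ^ i) :
    ⁅normalClosure {g}, A⁆ ≤ ⁅normalClosure {g}, ⁅normalClosure {g}, A⁆⁆ := by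
  set T := normalClosure ({g} : Set Q) with hT
  set D := ⁅T, A⁆ with hD
  haveI hDn : D.Normal := by rw [hD]; infer_instance
  set D₂ := ⁅T, D⁆ with hD₂
  haveI hD₂n : D₂.Normal := by rw [hD₂]; infer_instance
  set π := QuotientGroup.mk' D₂ with hπ
  have hgT : g ∈ T := subset_normalClosure (Set.mem_singleton g)
  -- `D` is central in `T` modulo `D₂`
  have hcomm : ∀ t ∈ T, ∀ d ∈ D, Commute (π t) (π d) := by
    intro t ht d hd
    rw [← commutatorElement_eq_one_iff_commute, ← map_commutatorElement]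
    exact (QuotientGroup.eq_one_iff _).2 (commutator_mem_commutator ht hd)
  have hDT : D ≤ T := commutator_le_left T A
  -- conjugates of `g`
  have hconj : ∀ γ : Q, ∃ d ∈ D, γ * g * γ⁻¹ = d * g := by
    intro γ
    obtain ⟨a, ha, i, rfl⟩ := hQ γ
    refine ⟨⁅g, a⁆⁻¹, inv_mem (commutator_mem_commutator hgT ha), ?_⟩
    rw [commutatorElement_inv, commutatorElement_def]
    have h1 : g ^ i * g * (g ^ i)⁻¹ = g := by
      rw [← pow_succ, pow_succ', mul_assoc, mul_inv_cancel, mul_one]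
    calc a * g ^ i * g * (a * g ^ i)⁻¹ = a * (g ^ i * g * (g ^ i)⁻¹) * a⁻¹ := by group
      _ = a * g * a⁻¹ * g⁻¹ * g := by rw [h1]; group
  have hTD : ∀ t ∈ T, ∃ d ∈ D, ∃ j : ℤ, t = d * g ^ j := by
    intro t ht
    rw [hT, normalClosure] at ht
    induction ht using closure_induction with
    | mem t ht =>
      obtain ⟨s, hs, hst⟩ := Group.mem_conjugatesOfSet_iff.1 ht
      rw [Set.mem_singleton_iff] at hs
      subst hs
      obtain ⟨γ, rfl⟩ := isConj_iff.1 hst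
      obtain ⟨d, hd, h⟩ := hconj γ
      exact ⟨d, hd, 1, by rw [zpow_one, h]⟩
    | one => exact ⟨1, one_mem _, 0, by simp⟩
    | mul t t' _ _ h h' =>
      obtain ⟨d, hd, j, rfl⟩ := h
      obtain ⟨d', hd', j', rfl⟩ := h'
      refine ⟨d * (g ^ j * d' * (g ^ j)⁻¹), mul_mem hd (hDn.conj_mem _ hd' _), j + j', ?_⟩
      rw [zpow_add]
      group
    | inv t _ h =>
      obtain ⟨d, hd, j, rfl⟩ := h
      refine ⟨(g ^ j)⁻¹ * d⁻¹ * ((g ^ j)⁻¹)⁻¹, hDn.conj_mem _ (inv_mem hd) _, -j, ?_⟩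
      rw [zpow_neg]
      group
  have hTT : ∀ t ∈ T, ∀ t' ∈ T, Commute (π t) (π t') := by
    intro t ht t' ht'
    obtain ⟨d, hd, j, rfl⟩ := hTD t ht
    obtain ⟨d', hd', j', rfl⟩ := hTD t' ht'
    rw [map_mul, map_mul]
    refine Commute.mul_left (Commute.mul_right ?_ ?_) (Commute.mul_right ?_ ?_)
    · exact hcomm _ (hDT hd) _ hd'
    · exact (hcomm _ (zpow_mem hgT j') _ hd).symm
    · exact hcomm _ (zpow_mem hgT j) _ hd'
    · rw [map_zpow, map_zpow]
      exact (Commute.refl (π g)).zpow_zpow j j'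
  have hTN : ∀ t ∈ T, (π t) ^ N = 1 := by
    intro t ht
    have hlt := ht
    rw [hT, normalClosure] at ht
    induction ht using closure_induction with
    | mem t ht =>
      obtain ⟨s, hs, hst⟩ := Group.mem_conjugatesOfSet_iff.1 ht
      rw [Set.mem_singleton_iff] at hs
      subst hs
      obtain ⟨γ, rfl⟩ := isConj_iff.1 hst
      rw [← map_pow, conj_pow, hg, mul_one, mul_inv_cancel, map_one]
    | one => rw [map_one, one_pow]
    | mul t t' ht₁ ht₂ h h' =>
      have h1 : t ∈ T := ht₁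
      have h2 : t' ∈ T := ht₂
      rw [map_mul, (hTT t h1 t' h2).mul_pow, h h1, h' h2, one_mul]
    | inv t ht₁ h =>
      have h1 : t ∈ T := ht₁
      rw [map_inv, inv_pow, h h1, inv_one]
  intro d hd
  have h1 : (π d) ^ N = 1 := hTN d (hDT hd)
  have h2 : (π d) ^ e = 1 := by rw [← map_pow, hA d ((commutator_le_right T A) hd), map_one]
  have h3 : π d = 1 := by
    have h4 : (π d) ^ (Nat.gcd e N) = 1 := pow_gcd_eq_one.2 ⟨h2, h1⟩
    rwa [Nat.Coprime.gcd_eq_one hcop, pow_one] at h4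
  exact (QuotientGroup.eq_one_iff d).1 h3

/-- the main group theoretic lemma -/
theorem exists_in_inter {Γ : Type*} [Group Γ] (A C : Subgroup Γ) [A.Normal] [C.Normal] {e N : ℕ}
    (hcop : Nat.Coprime e N) (hA : ∀ a ∈ A, a ^ e ∈ C)
    (hΓ : ∀ g ∉ A, ∀ γ : Γ, ∃ a ∈ A, ∃ i : ℕ, γ = a * g ^ i) (hΓN : ∀ γ : Γ, γ ^ N ∈ A)
    {ι : Type*} (B : ι → Subgroup Γ) (hBn : ∀ i, (B i).Normal) (hB : ∀ i, ∃ g ∈ B i, g ∉ A)
    (S : Finset ι) (g₀ : Γ) (hg₀ : g₀ ∉ A) :
    ∃ g ∉ A, ∀ h ∈ A, ∃ d ∈ A ⊓ ⨅ i ∈ S, B i, ∃ c ∈ C, d = ⁅g, h⁆ * c := by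
  classical
  obtain ⟨a, b, hab⟩ : IsCoprime (e : ℤ) (N : ℤ) := Nat.isCoprime_iff_coprime.2 hcop
  set g : Γ := g₀ ^ (a * e) with hg
  have hg1 : g = g₀ * (g₀ ^ N) ^ (-b) := by
    rw [hg, ← zpow_natCast, ← zpow_mul, ← zpow_one_add]
    congr 1
    linear_combination hab
  have hgA : g ∉ A := by
    intro h
    apply hg₀
    rw [hg1] at h
    exact (Subgroup.mul_mem_cancel_right _ (zpow_mem (hΓN g₀) _)).1 h
  have hgN : g ^ N ∈ C := by
    have h1 : g ^ N = ((g₀ ^ N) ^ e) ^ a := by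
      rw [hg, ← zpow_natCast, ← zpow_natCast, ← zpow_natCast, ← zpow_mul, ← zpow_mul, ← zpow_mul]
      congr 1
      ring
    rw [h1]
    exact zpow_mem (hA _ (hΓN g₀)) _
  refine ⟨g, hgA, ?_⟩
  set π := QuotientGroup.mk' C with hπ
  have hπs : Function.Surjective π := QuotientGroup.mk'_surjective C
  set A' := A.map π with hA'
  haveI hA'n : A'.Normal := Subgroup.Normal.map inferInstance π hπs
  have hA'e : ∀ a ∈ A', a ^ e = 1 := by
    rintro _ ⟨a, ha, rfl⟩
    rw [← map_pow]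
    exact (QuotientGroup.eq_one_iff _).2 (hA a ha)
  have hgN' : (π g) ^ N = 1 := by
    rw [← map_pow]
    exact (QuotientGroup.eq_one_iff _).2 hgN
  have hQ : ∀ γ : Γ ⧸ C, ∃ a ∈ A', ∃ i : ℕ, γ = a * (π g) ^ i := by
    intro γ
    obtain ⟨γ, rfl⟩ := hπs γ
    obtain ⟨a, ha, i, rfl⟩ := hΓ g hgA γ
    exact ⟨π a, mem_map_of_mem π ha, i, by rw [map_mul, map_pow]⟩
  have key := comm_le_comm A' hcop hA'e (π g) hgN' hQ
  set T := normalClosure ({π g} : Set (Γ ⧸ C)) with hT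
  -- `T` lies in the image of every `B i`
  have hTB : ∀ i, T ≤ (B i).map π := by
    intro i
    haveI := hBn i
    haveI hBn' : ((B i).map π).Normal := Subgroup.Normal.map inferInstance π hπs
    apply normalClosure_le_normal
    rw [Set.singleton_subset_iff]
    obtain ⟨b, hb, hbA⟩ := hB i
    obtain ⟨a, ha, j, hj⟩ := hΓ b hbA g
    set ϖ := QuotientGroup.mk' ((B i).map π) with hϖ
    have h1 : ϖ (π g) = ϖ (π a) := by
      rw [hj, map_mul, map_mul]
      have h2 : ϖ (π (b ^ j)) = 1 :=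
        (QuotientGroup.eq_one_iff _).2 (mem_map_of_mem π (pow_mem hb j))
      rw [h2, mul_one]
    have h2 : (ϖ (π g)) ^ e = 1 := by
      rw [h1, ← map_pow, hA'e _ (mem_map_of_mem π ha), map_one]
    have h3 : (ϖ (π g)) ^ N = 1 := by rw [← map_pow, hgN', map_one]
    have h4 : (ϖ (π g)) ^ (Nat.gcd e N) = 1 := pow_gcd_eq_one.2 ⟨h2, h3⟩
    rw [Nat.Coprime.gcd_eq_one hcop, pow_one] at h4
    exact (QuotientGroup.eq_one_iff _).1 h4
  have hDS : ⁅T, A'⁆ ≤ (A ⊓ ⨅ i ∈ S, B i).map π := by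
    induction S using Finset.induction_on with
    | empty =>
      have h1 : A ⊓ ⨅ i ∈ (∅ : Finset ι), B i = A := by simp
      rw [h1]
      exact commutator_le_right T A'
    | insert i S _ ih =>
      haveI := hBn i
      haveI hXn : (A ⊓ ⨅ i ∈ S, B i).Normal := by
        haveI : (⨅ i ∈ S, B i).Normal := by
          apply Subgroup.normal_iInf_normal
          intro i
          apply Subgroup.normal_iInf_normal
          intro _
          exact hBn i
        infer_instance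
      refine key.trans ((commutator_mono (hTB i) ih).trans ?_)
      rw [← map_commutator]
      apply Subgroup.map_mono
      rw [Finset.iInf_insert]
      have h1 : ⁅B i, A ⊓ ⨅ i ∈ S, B i⁆ ≤ A ⊓ ⨅ i ∈ S, B i := commutator_le_right _ _
      have h2 : ⁅B i, A ⊓ ⨅ i ∈ S, B i⁆ ≤ B i := commutator_le_left _ _
      exact le_inf (h1.trans inf_le_left) (le_inf h2 (h1.trans inf_le_right))
  intro h hh
  have h1 : π ⁅g, h⁆ ∈ ⁅T, A'⁆ := by
    rw [map_commutatorElement]
    exact commutator_mem_commutator (subset_normalClosure (Set.mem_singleton _))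
      (mem_map_of_mem π hh)
  obtain ⟨d, hd, hdg⟩ := hDS h1
  refine ⟨d, hd, ⁅g, h⁆⁻¹ * d, ?_, by group⟩
  rw [← QuotientGroup.eq_one_iff]
  change π (⁅g, h⁆⁻¹ * d) = 1
  rw [map_mul, map_inv, hdg, inv_mul_cancel]

end RS
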