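import Mathlib

/-!
A rational function over a bigger field which is algebraic over `k(X)` is a rational function
over `k` (algebraically closed).
-/

set_option autoImplicit false

namespace RS

open Polynomial

/-- An element of `L` which is a root of a nonzero polynomial over an algebraically closed
subfield `k` lies in `k`. -/
lemma mem_of_root {k L : Type*} [Field k] [IsAlgClosed k] [Field L] [Algebra k L] (t : L)
    (p : Polynomial k) (hp : p ≠ 0) (h : aeval t p = 0) : ∃ c : k, algebraMap k L c = t := by
  have hi : IsIntegral k t := (isAlgebraic_iff_isIntegral).1 ⟨p, hp, h⟩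
  have h1 : (minpoly k t).degree = 1 :=
    IsAlgClosed.degree_eq_one_of_irreducible k (minpoly.irreducible hi)
  exact minpoly.mem_range_of_degree_eq_one k t h1

theorem exists_descent {k L : Type*} [Field k] [IsAlgClosed k] [Field L] [Algebra k L]
    (A B : Polynomial L) (hB : B ≠ 0) (d : ℕ) (φ : ℕ → Polynomial k) (hφ : φ d ≠ 0)
    (h : ∑ i ∈ Finset.range (d + 1), (φ i).map (algebraMap k L) * A ^ i * B ^ (d - i) = 0) :
    ∃ A0 B0 : Polynomial k, B0 ≠ 0 ∧
      A * B0.map (algebraMap k L) = A0.map (algebraMap k L) * B := by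
  classical
  have hinj : Function.Injective (algebraMap k L) := (algebraMap k L).injective
  have hinf : Infinite k := IsAlgClosed.instInfinite
  -- the good points
  let bad : Finset k := (φ d).roots.toFinset ∪
    (B.roots.toFinset.preimage (algebraMap k L) hinj.injOn)
  have hbad : ∀ a, a ∉ bad → (φ d).eval a ≠ 0 ∧ B.eval (algebraMap k L a) ≠ 0 := by
    intro a ha
    rw [Finset.mem_union, not_or] at ha
    refine ⟨fun h0 => ha.1 ?_, fun h0 => ha.2 ?_⟩
    · rw [Multiset.mem_toFinset, mem_roots hφ]; exact h0
    · rw [Finset.mem_preimage, Multiset.mem_toFinset, mem_roots hB]; exact h0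
  have ht : ∀ a, a ∉ bad → ∃ c : k, algebraMap k L c * B.eval (algebraMap k L a) =
      A.eval (algebraMap k L a) := by
    intro a ha
    obtain ⟨h1, h2⟩ := hbad a ha
    have h3 := congrArg (Polynomial.eval (algebraMap k L a)) h
    simp only [eval_finsetSum, eval_mul, eval_pow, eval_zero, eval_map_algebraMap,
      aeval_algebraMap_apply] at h3
    set α := A.eval (algebraMap k L a)
    set β := B.eval (algebraMap k L a)
    suffices hm : ∃ c : k, algebraMap k L c = α / β by
      obtain ⟨c, hc⟩ := hm
      exact ⟨c, by rw [hc, div_mul_cancel₀ _ h2]⟩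
    refine mem_of_root (k := k) (α / β)
      (∑ i ∈ Finset.range (d + 1), C ((φ i).eval a) * X ^ i) ?_ ?_
    · intro h0
      have h4 := congrArg (fun p => p.coeff d) h0
      simp only [finsetSum_coeff, coeff_C_mul, coeff_X_pow, coeff_zero] at h4
      rw [Finset.sum_eq_single d] at h4
      · simp only [if_true, mul_one] at h4
        exact h1 h4
      · intro i _ hi
        rw [if_neg (Ne.symm hi), mul_zero]
      · intro hd
        exact absurd (Finset.mem_range.2 (Nat.lt_succ_self d)) hd
    · rw [map_sum]
      have h5 : ∀ i ∈ Finset.range (d + 1), aeval (α / β) (C ((φ i).eval a) * X ^ i) =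
          (algebraMap k L ((φ i).eval a) * α ^ i * β ^ (d - i)) / β ^ d := by
        intro i hi
        have hi' : i ≤ d := Nat.lt_succ_iff.1 (Finset.mem_range.1 hi)
        rw [map_mul, aeval_C, map_pow, aeval_X, div_pow, eq_div_iff (pow_ne_zero _ h2)]
        have h6 : β ^ d = β ^ i * β ^ (d - i) := by rw [← pow_add, Nat.add_sub_cancel' hi']
        rw [h6]
        have h7 : β ^ i ≠ 0 := pow_ne_zero i h2
        rw [mul_assoc (algebraMap k L ((φ i).eval a)), mul_assoc (algebraMap k L ((φ i).eval a)),
          ← mul_assoc (α ^ i / β ^ i), div_mul_cancel₀ _ h7]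
      rw [Finset.sum_congr rfl h5, ← Finset.sum_div]
      have h8 : ∑ i ∈ Finset.range (d + 1),
          algebraMap k L ((φ i).eval a) * α ^ i * β ^ (d - i) = 0 := by
        rw [← h3]
        refine Finset.sum_congr rfl fun i _ => ?_
        rw [coe_aeval_eq_eval]
      rw [h8, zero_div]
  choose! τ hτ using ht
  let D : ℕ := max A.natDegree B.natDegree
  obtain ⟨S, hS, hcard⟩ := Infinite.exists_superset_card_eq bad (bad.card + (2 * D + 1)) (by omega)
  let R : Finset k := S \ bad
  have hR : R.card = 2 * D + 1 := by
    rw [Finset.card_sdiff_of_subset hS, hcard]; omega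
  have hRb : ∀ a ∈ R, a ∉ bad := fun a ha => (Finset.mem_sdiff.1 ha).2
  let M : (degreeLT k (D + 1) × degreeLT k (D + 1)) →ₗ[k] (R → k) :=
    { toFun := fun P a => (P.1 : k[X]).eval a.1 - τ a.1 * (P.2 : k[X]).eval a.1
      map_add' := by
        intro P Q
        funext a
        simp only [Prod.fst_add, Prod.snd_add, Submodule.coe_add, eval_add, Pi.add_apply]
        ring
      map_smul' := by
        intro c P
        funext a
        simp only [Prod.smul_fst, Prod.smul_snd, Submodule.coe_smul, eval_smul, Pi.smul_apply,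
          smul_eq_mul, RingHom.id_apply]
        ring }
  have hker : LinearMap.ker M ≠ ⊥ := by
    have hf : FiniteDimensional k (degreeLT k (D + 1)) :=
      (degreeLTEquiv k (D + 1)).symm.finiteDimensional
    apply LinearMap.ker_ne_bot_of_finrank_lt
    rw [Module.finrank_prod, (degreeLTEquiv k (D + 1)).finrank_eq,
      Module.finrank_fintype_fun_eq_card, Module.finrank_fintype_fun_eq_card, Fintype.card_fin,
      Fintype.card_coe, hR]
    omega
  obtain ⟨P, hP, hP0⟩ := Submodule.exists_mem_ne_zero_of_ne_bot hker
  have hPa : ∀ a ∈ R, (P.1 : k[X]).eval a = τ a * (P.2 : k[X]).eval a := by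
    intro a ha
    have := congrFun (LinearMap.mem_ker.1 hP) ⟨a, ha⟩
    exact sub_eq_zero.1 this
  have hdeg : ∀ Q : degreeLT k (D + 1), ((Q : k[X]).map (algebraMap k L)).natDegree ≤ D := by
    intro Q
    rw [natDegree_map]
    have h1 : (Q : k[X]).degree < ((D + 1 : ℕ) : WithBot ℕ) := mem_degreeLT.1 Q.2
    by_cases h0 : (Q : k[X]) = 0
    · rw [h0, natDegree_zero]; exact Nat.zero_le _
    · rw [degree_eq_natDegree h0] at h1
      have h2 : (Q : k[X]).natDegree < D + 1 := by exact_mod_cast h1
      omega
  have hkey : A * (P.2 : k[X]).map (algebraMap k L) - (P.1 : k[X]).map (algebraMap k L) * B = 0 := by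
    have hSL : (R.map ⟨algebraMap k L, hinj⟩).card = 2 * D + 1 := by rw [Finset.card_map, hR]
    refine eq_zero_of_degree_lt_of_eval_finset_eq_zero (R.map ⟨algebraMap k L, hinj⟩) ?_ ?_
    · rw [hSL]
      refine lt_of_le_of_lt degree_le_natDegree ?_
      have h1 : (A * (P.2 : k[X]).map (algebraMap k L) -
          (P.1 : k[X]).map (algebraMap k L) * B).natDegree ≤ 2 * D := by
        refine (natDegree_sub_le _ _).trans (max_le ?_ ?_)
        · refine natDegree_mul_le.trans ?_
          have h2 := hdeg P.2
          have h3 : A.natDegree ≤ D := le_max_left _ _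
          omega
        · refine natDegree_mul_le.trans ?_
          have h2 := hdeg P.1
          have h3 : B.natDegree ≤ D := le_max_right _ _
          omega
      exact_mod_cast Nat.lt_succ_of_le h1
    · intro b hb
      obtain ⟨a, ha, rfl⟩ := Finset.mem_map.1 hb
      simp only [Function.Embedding.coeFn_mk, eval_sub, eval_mul, eval_map_algebraMap,
        aeval_algebraMap_apply, coe_aeval_eq_eval]
      rw [hPa a ha, map_mul, ← hτ a (hRb a ha)]
      ring
  refine ⟨P.1, P.2, ?_, sub_eq_zero.1 hkey⟩
  intro h2
  rw [h2, Polynomial.map_zero, mul_zero, zero_sub, neg_eq_zero, mul_eq_zero] at hkey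
  have h1 : (P.1 : k[X]) = 0 := by
    rcases hkey with hk | hk
    · exact (Polynomial.map_eq_zero _).1 hk
    · exact absurd hk hB
  exact hP0 (Prod.ext (Subtype.ext h1) (Subtype.ext h2))

end RS
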