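import Pool.Agent.H20.RS.Mult
import Pool.Agent.H20.PX.Mov

/-!
Automorphisms which move radicals; one commutator; iterated commutators.
-/

set_option linter.style.haveILetI false

namespace RS

open Polynomial IntermediateField

variable {k K : Type*} [Field k] [Field K] [Algebra k K]

/-- coprime powers -/
theorem mem_of_pow_mem (E : IntermediateField k K) {z : K} {a b : ℕ} (hab : Nat.Coprime a b)
    (ha : z ^ a ∈ E) (hb : z ^ b ∈ E) : z ∈ E := by
  by_cases hz : z = 0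
  · rw [hz]; exact zero_mem E
  · obtain ⟨s, t, hst⟩ := Nat.isCoprime_iff_coprime.2 hab
    have h1 : z = (z ^ a) ^ s * (z ^ b) ^ t := by
      rw [← zpow_natCast, ← zpow_natCast, ← zpow_mul, ← zpow_mul, ← zpow_add₀ hz,
        mul_comm (a : ℤ), mul_comm (b : ℤ), hst, zpow_one]
    rw [h1]
    exact mul_mem (zpow_mem ha s) (zpow_mem hb t)

/-- if one root is moved by `g`, then all are -/
theorem moves_all [IsAlgClosed k] {q : ℕ} (hq : 1 ≤ q) {g : Gal(K/k)} {v z z' : K}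
    (hz : z ^ q = v) (hz' : z' ^ q = v) (hg : g z ≠ z) : g z' ≠ z' := by
  intro h
  obtain ⟨c, hc⟩ := ALG.exists_algebraMap_of_pow (k := k) (a := z) (b := z') q hq (by rw [hz, hz'])
  apply hg
  rw [hc, map_mul, AlgEquiv.commutes, h]

/-- an automorphism over `Ω(b)` which moves the `q`-th roots of `R(b)` -/
theorem exists_kummer_mover [IsAlgClosed k] [IsAlgClosed K] (p : ℕ) [ExpChar k p] {q : ℕ}
    (hq : 1 ≤ q) (hqp : ∀ a, Nat.Coprime q (p ^ a)) (Ω : IntermediateField k K) {b : K}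
    (hb : b ∉ ALG.ac Ω) (htop : ALG.ac (Ω ⊔ k⟮b⟯) = ⊤) (R : k[X]) (hR : R ≠ 0) (a : k)
    (ha : ¬ q ∣ rootMultiplicity a R) :
    ∃ g ∈ Ω.fixingSubgroup, g b = b ∧ ∀ z : K, z ^ q = aeval b R → g z ≠ z := by
  obtain ⟨z, hz⟩ := IsAlgClosed.exists_pow_nat_eq (aeval b R) (n := q) (by omega)
  suffices h : ∃ g ∈ Ω.fixingSubgroup, g b = b ∧ g z ≠ z by
    obtain ⟨g, hg, hgb, hgz⟩ := h
    exact ⟨g, hg, hgb, fun z' hz' => moves_all hq hz hz' hgz⟩
  by_contra hcon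
  push Not at hcon
  haveI : Algebra.IsAlgebraic (Ω ⊔ k⟮b⟯ : IntermediateField k K) K :=
    ⟨fun w => ALG.mem_ac.1 (htop ▸ mem_top)⟩
  obtain ⟨n, hn⟩ := ALG.pow_mem_of_fixed p (Ω ⊔ k⟮b⟯) (z := z) (by
    intro σ hσ
    rw [fixingSubgroup_sup, Subgroup.mem_inf] at hσ
    exact hcon σ hσ.1 (ALG.mem_fs_adjoin.1 hσ.2 b rfl))
  have hbE : b ∈ Ω ⊔ k⟮b⟯ := (le_sup_right : k⟮b⟯ ≤ _) (mem_adjoin_simple_self k b)
  have hRE : aeval b R ∈ Ω ⊔ k⟮b⟯ := by
    have h1 : aeval b R ∈ k⟮b⟯ := ALG.aeval_mem_simple b R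
    exact (le_sup_right : k⟮b⟯ ≤ Ω ⊔ k⟮b⟯) h1
  have hzE : z ∈ Ω ⊔ k⟮b⟯ := mem_of_pow_mem _ (hqp n) (by rw [hz]; exact hRE) hn
  have hle : Ω ⊔ k⟮b⟯ ≤ Ω⟮b⟯.restrictScalars k := by
    refine sup_le ?_ ?_
    · intro x hx
      rw [mem_restrictScalars]
      exact _root_.algebraMap_mem Ω⟮b⟯ (⟨x, hx⟩ : Ω)
    · rw [adjoin_simple_le_iff, mem_restrictScalars]
      exact mem_adjoin_simple_self Ω b
  have hz2 : z ∈ Ω⟮b⟯ := hle hzE
  rw [mem_adjoin_simple_iff] at hz2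
  obtain ⟨A, B, hAB⟩ := hz2
  have htr : Transcendental Ω b := ALG.tr_of_notMem hb
  have hinj := transcendental_iff_injective.1 htr
  set R' : Polynomial Ω := R.map (algebraMap k Ω) with hR'
  have hR'0 : R' ≠ 0 := (Polynomial.map_ne_zero_iff (algebraMap k Ω).injective).2 hR
  have hRb : aeval b R = aeval b R' := by rw [hR', aeval_map_algebraMap]
  have hRb0 : aeval b R' ≠ 0 := by
    intro h
    exact hR'0 (hinj (by rw [h, map_zero]))
  have hB0 : aeval b B ≠ 0 := by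
    intro h
    rw [h, div_zero] at hAB
    apply hRb0
    rw [← hRb, ← hz, hAB, zero_pow (by omega)]
  have hB : B ≠ 0 := by rintro rfl; exact hB0 (map_zero _)
  have heq : R' * B ^ q = A ^ q := by
    apply hinj
    rw [map_mul, map_pow, map_pow, ← hRb, ← hz, hAB, div_pow, div_mul_cancel₀]
    exact pow_ne_zero _ hB0
  have hA : A ≠ 0 := by
    rintro rfl
    rw [zero_pow (by omega)] at heq
    exact mul_ne_zero hR'0 (pow_ne_zero _ hB) heq
  have h1 := congrArg (rootMultiplicity (algebraMap k Ω a)) heq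
  rw [rootMultiplicity_mul (mul_ne_zero hR'0 (pow_ne_zero _ hB)), mult_pow hB, mult_pow hA, hR',
    ← eq_rootMultiplicity_map (algebraMap k Ω).injective] at h1
  apply ha
  have h2 : q ∣ rootMultiplicity a R + q * rootMultiplicity (algebraMap k Ω a) B := by
    rw [h1]; exact Dvd.intro _ rfl
  exact (Nat.dvd_add_left (Dvd.intro _ rfl)).1 h2

/-- one commutator -/
theorem comm_step [IsAlgClosed k] {q : ℕ} (hq : 1 ≤ q) {T : IntermediateField k K} {β : K}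
    (hβ : β ∈ T) (hβ0 : β ≠ 0) {ν g : Gal(K/k)} (hν : ∀ z ∈ T, ν⁻¹ z ∈ T)
    (hg : g ∈ T.fixingSubgroup)
    (hgz : ∀ z : K, z ^ q = ν⁻¹ β * β ^ (q - 1) → g z ≠ z) {z : K} (hz : z ^ q = β) :
    PX.cm ν g z ≠ z := by
  intro h
  have hz0 : z ≠ 0 := by
    rintro rfl
    rw [zero_pow (by omega)] at hz
    exact hβ0 hz.symm
  set w := ν⁻¹ z with hw
  have hνw : ν w = z := PX.apply_inv ν z
  have hwq : w ^ q = ν⁻¹ β := by rw [hw, ← map_pow, hz]
  have hw0 : w ≠ 0 := fun h0 => hz0 (by rw [← hνw, h0, map_zero])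
  obtain ⟨c, hc⟩ := ALG.exists_algebraMap_of_pow (k := k) (a := g z) (b := z) q hq (by
    rw [← map_pow, hz, ALG.mem_fs.1 hg _ hβ])
  obtain ⟨c', hc'⟩ := ALG.exists_algebraMap_of_pow (k := k) (a := g w) (b := w) q hq (by
    rw [← map_pow, hwq, ALG.mem_fs.1 hg _ (hν _ hβ)])
  have hcq : algebraMap k K c ^ q = 1 := by
    have h1 : (g z) ^ q = z ^ q := by rw [← map_pow, hz, ALG.mem_fs.1 hg _ hβ]
    rw [hc, mul_pow] at h1
    exact mul_right_cancel₀ (pow_ne_zero q hz0) (by rw [h1, one_mul])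
  have hc0 : algebraMap k K c ≠ 0 := by
    intro h0
    rw [h0, zero_pow (by omega)] at hcq
    exact zero_ne_one hcq
  have hginv : g⁻¹ z = algebraMap k K c⁻¹ * z := by
    apply PX.inv_apply_eq
    rw [map_mul, hc, AlgEquiv.commutes, map_inv₀, inv_mul_cancel_left₀ hc0]
  rw [PX.cm_apply, hginv, map_mul, AlgEquiv.commutes, ← hw, map_mul, AlgEquiv.commutes, hc',
    map_mul, AlgEquiv.commutes, map_mul, AlgEquiv.commutes, hνw, map_inv₀, ← mul_assoc] at h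
  have h2 : (algebraMap k K c)⁻¹ * algebraMap k K c' = 1 :=
    mul_right_cancel₀ hz0 (by rw [h, one_mul])
  have h3 : algebraMap k K c' = algebraMap k K c := by
    rw [inv_mul_eq_iff_eq_mul₀ hc0, mul_one] at h2
    exact h2
  refine hgz (w * z ^ (q - 1)) ?_ ?_
  · rw [mul_pow, hwq, ← pow_mul, mul_comm (q - 1), pow_mul, hz]
  · rw [map_mul, map_pow, hc, hc', h3, mul_pow]
    have h4 : algebraMap k K c * algebraMap k K c ^ (q - 1) = 1 := by
      rw [← pow_succ', Nat.sub_add_cancel hq, hcq]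
    linear_combination (w * z ^ (q - 1)) * h4

/-- iterated commutators, radicals -/
theorem iter_mul [IsAlgClosed k] [IsAlgClosed K] (A : Subgroup Gal(K/k)) {q : ℕ} (hq : 1 ≤ q)
    (T : IntermediateField k K) {P : Type*} (β : P → K) (hβ : ∀ π, β π ∈ T) (hβ0 : ∀ π, β π ≠ 0)
    {ι : Type*} (W : ι → IntermediateField k K) (hW : ∀ i, ∀ ν ∈ A, ∀ z ∈ W i, ν z ∈ W i)
    (S : Finset ι) (hS : ∀ i ∈ S, ∃ ν ∈ A, ν ∈ (W i).fixingSubgroup ∧ (∀ z ∈ T, ν⁻¹ z ∈ T) ∧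
      ∀ π, ∃ π', β π' = ν⁻¹ (β π) * β π ^ (q - 1))
    (hbase : ∀ π, ∃ g ∈ A, g ∈ T.fixingSubgroup ∧ ∀ z, z ^ q = β π → g z ≠ z) :
    ∀ π, ∃ g ∈ A, g ∈ T.fixingSubgroup ∧ (∀ i ∈ S, g ∈ (W i).fixingSubgroup) ∧
      ∀ z, z ^ q = β π → g z ≠ z := by
  classical
  induction S using Finset.induction_on with
  | empty =>
    intro π
    obtain ⟨g, hgA, hgT, hg⟩ := hbase π
    exact ⟨g, hgA, hgT, by simp, hg⟩
  | insert i S hi ih =>
    intro π
    obtain ⟨ν, hνA, hνW, hνT, hνβ⟩ := hS i (Finset.mem_insert_self i S)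
    obtain ⟨π', hπ'⟩ := hνβ π
    obtain ⟨g, hgA, hgT, hgS, hg⟩ := ih (fun j hj => hS j (Finset.mem_insert_of_mem hj)) π'
    refine ⟨PX.cm ν g, ?_, PX.cm_right hgT hνT, ?_, ?_⟩
    · exact mul_mem (mul_mem (mul_mem hνA hgA) (inv_mem hνA)) (inv_mem hgA)
    · intro j hj
      rcases Finset.mem_insert.1 hj with rfl | hj
      · exact PX.cm_left hνW (hW _ _ (inv_mem hgA))
      · exact PX.cm_right (hgS j hj) (hW _ _ (inv_mem hνA))
    · intro z hz
      exact comm_step hq (hβ π) (hβ0 π) hνT hgT (fun w hw => hg w (by rw [hw, hπ'])) hz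

/-- iterated commutators, Artin-Schreier elements -/
theorem iter_add [IsAlgClosed k] [IsAlgClosed K] (A : Subgroup Gal(K/k)) (p : ℕ) [Fact p.Prime]
    [CharP K p] (T : IntermediateField k K) {P : Type*} (β : P → K) (hβ : ∀ π, β π ∈ T)
    {ι : Type*} (W : ι → IntermediateField k K) (hW : ∀ i, ∀ ν ∈ A, ∀ z ∈ W i, ν z ∈ W i)
    (S : Finset ι) (hS : ∀ i ∈ S, ∃ ν ∈ A, ν ∈ (W i).fixingSubgroup ∧ (∀ z ∈ T, ν⁻¹ z ∈ T) ∧
      ∀ π, ∃ π', β π' = ν⁻¹ (β π) - β π)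
    (hbase : ∀ π, ∃ g ∈ A, g ∈ T.fixingSubgroup ∧ ∀ z, z ^ p - z = β π → g z ≠ z) :
    ∀ π, ∃ g ∈ A, g ∈ T.fixingSubgroup ∧ (∀ i ∈ S, g ∈ (W i).fixingSubgroup) ∧
      ∀ z, z ^ p - z = β π → g z ≠ z := by
  classical
  induction S using Finset.induction_on with
  | empty =>
    intro π
    obtain ⟨g, hgA, hgT, hg⟩ := hbase π
    exact ⟨g, hgA, hgT, by simp, hg⟩
  | insert i S hi ih =>
    intro π
    obtain ⟨ν, hνA, hνW, hνT, hνβ⟩ := hS i (Finset.mem_insert_self i S)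
    obtain ⟨π', hπ'⟩ := hνβ π
    obtain ⟨g, hgA, hgT, hgS, hg⟩ := ih (fun j hj => hS j (Finset.mem_insert_of_mem hj)) π'
    refine ⟨PX.cm ν g, ?_, PX.cm_right hgT hνT, ?_, ?_⟩
    · exact mul_mem (mul_mem (mul_mem hνA hgA) (inv_mem hνA)) (inv_mem hgA)
    · intro j hj
      rcases Finset.mem_insert.1 hj with rfl | hj
      · exact PX.cm_left hνW (hW _ _ (inv_mem hgA))
      · exact PX.cm_right (hgS j hj) (hW _ _ (inv_mem hνA))
    · intro z hz h
      have hgβ : g (β π) = β π := ALG.mem_fs.1 hgT _ (hβ π)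
      have hgνβ : g (ν⁻¹ (β π)) = ν⁻¹ (β π) := ALG.mem_fs.1 hgT _ (hνT _ (hβ π))
      set w := ν⁻¹ z with hw
      have hνw : ν w = z := PX.apply_inv ν z
      have hwe : w ^ p - w = ν⁻¹ (β π) := by rw [hw, ← map_pow, ← map_sub, hz]
      obtain ⟨c, hc, -⟩ := PX.exists_const_sub (k := k) p (w := g z) (z := z)
        (v := β π) (by rw [← map_pow, ← map_sub, hz, hgβ]) hz
      obtain ⟨c', hc', -⟩ := PX.exists_const_sub (k := k) p (w := g w) (z := w)
        (v := ν⁻¹ (β π)) (by rw [← map_pow, ← map_sub, hwe, hgνβ]) hwe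
      have h1 : g⁻¹ z = z - algebraMap k K c := by
        apply PX.inv_apply_eq
        rw [map_sub, hc, AlgEquiv.commutes]
        ring
      rw [PX.cm_apply, h1, map_sub, AlgEquiv.commutes, ← hw, map_sub, hc', AlgEquiv.commutes,
        map_sub, map_add, AlgEquiv.commutes, AlgEquiv.commutes, hνw] at h
      have h2 : algebraMap k K c' = algebraMap k K c := by linear_combination h
      refine hg (w - z) ?_ ?_
      · rw [PX.sub_as, hwe, hz, hπ']
      · rw [map_sub, hc, hc', h2]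
        ring

end RS
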