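import Pool.Agent.H20.RS.Gal
import Pool.Agent.H20.RS.FinA
import Pool.Agent.H20.RS.GenA

/-!
The main theorem: all but finitely many translates, and existence.
-/

set_option linter.style.haveILetI false

namespace RS

open Polynomial IntermediateField

variable {k K : Type*} [Field k] [Field K] [Algebra k K]
variable {m n : ℕ} {x : Fin n → K}

/-- the statement for one choice of the radicals and one constant -/
def Disj (k : Type*) [Field k] {K : Type*} [Field K] [Algebra k K] {n : ℕ} (x : Fin n → K)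
    (r : ℕ) (E : Type*) [Field E] [Algebra k E] [Algebra (RatFunc k) E] (t : K) : Prop :=
  ∀ τ : E →ₐ[k] K, τ (algebraMap (RatFunc k) E RatFunc.X) = t →
    ∀ v : E, τ v ∈ ALG.M k x r 2 → v ∈ Set.range (algebraMap (RatFunc k) E)

section

variable {E : Type*} [Field E] [Algebra k E] [Algebra (RatFunc k) E]
  [IsScalarTower k (RatFunc k) E] [FiniteDimensional (RatFunc k) E] [IsGalois (RatFunc k) E]

/-- a Kummer layer -/
theorem layer_mul [IsAlgClosed k] [IsAlgClosed K] (hmn : m ≤ n) (hx : IsTranscendenceBasis k x)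
    (p : ℕ) [ExpChar k p] (M : Subgroup Gal(E/RatFunc k)) (hM : M.Normal) {q : ℕ}
    (hq : M.index = q) (hqp : q.Prime) (hcop : Nat.Coprime q p) :
    ∃ z : E, (∀ σ ∈ M, σ z = z) ∧ ∀ (ℓ N : ℕ), 2 ≤ ℓ → Nat.Coprime ℓ p → N.Prime →
      Nat.Coprime N p → q < N → {c : k | ¬ ∀ (y w : Fin m → K),
        (∀ j, y j ^ ℓ = x (Fin.castLE hmn j)) → (∀ j, w j ^ N = 1 + y j) → ∀ r < m,
        ∀ τ : E →ₐ[k] K,
        τ (algebraMap (RatFunc k) E RatFunc.X) = algebraMap k K c + ∏ j, w j →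
        ∀ S : Finset {t : Fin r → K // ∀ i, t i ∈ ALG.M k x r (0 + 1)},
        ∃ g ∈ (adjoin k (Set.range x)).fixingSubgroup, g ∈ (k⟮∏ j, w j⟯).fixingSubgroup ∧
          (∀ t ∈ S, g ∈ (ALG.bracket (k := k) t.1).fixingSubgroup) ∧ g (τ z) ≠ τ z}.Finite := by
  obtain ⟨z, R, b, hzM, hR, hzR, hb⟩ := exists_kummer_poly (k := k) (E := E) hqp
    (ne_zero_of_coprime p hqp hcop) M hq
  refine ⟨z, hzM, fun ℓ N hℓ hℓp hN hNp hqN => ?_⟩
  obtain ⟨ζ, hζ⟩ : ∃ ζ : k, IsPrimitiveRoot ζ N := by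
    haveI : NeZero (N : k) := ⟨ne_zero_of_coprime p hN hNp⟩
    haveI : NeZero N := ⟨hN.ne_zero⟩
    exact HasEnoughRootsOfUnity.exists_primitiveRoot k N
  refine (finite_not_good (N := N) hR hb hζ.pow_eq_one (hζ.ne_one hN.one_lt)).subset ?_
  intro c hc hgd
  apply hc
  intro y w hy hw r hr τ hτ S
  obtain ⟨g, hgF, hgP, hgS, hgz⟩ := exists_D hmn hx p hℓ hℓp hN hNp hqp hcop hqN.ne hy hw hr S _ hgd
  refine ⟨g, hgF, hgP, hgS, hgz (τ z) ?_⟩
  rw [← map_pow, hzR, tau_poly, hτ, aeval_comp]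
  congr 2
  rw [map_add, aeval_X, aeval_C, add_comm]

/-- an Artin-Schreier layer -/
theorem layer_add [IsAlgClosed k] [IsAlgClosed K] (hmn : m ≤ n) (hx : IsTranscendenceBasis k x)
    (p : ℕ) [Fact p.Prime] [CharP k p] (M : Subgroup Gal(E/RatFunc k)) (hM : M.Normal)
    (hMp : M.index = p) :
    ∃ z : E, (∀ σ ∈ M, σ z = z) ∧ ∃ N₀ : ℕ, ∀ (ℓ N : ℕ), 2 ≤ ℓ → Nat.Coprime ℓ p → N.Prime →
      Nat.Coprime N p → N₀ < N → {c : k | ¬ ∀ (y w : Fin m → K),
        (∀ j, y j ^ ℓ = x (Fin.castLE hmn j)) → (∀ j, w j ^ N = 1 + y j) → ∀ r < m,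
        ∀ τ : E →ₐ[k] K,
        τ (algebraMap (RatFunc k) E RatFunc.X) = algebraMap k K c + ∏ j, w j →
        ∀ S : Finset {t : Fin r → K // ∀ i, t i ∈ ALG.M k x r (0 + 1)},
        ∃ g ∈ (adjoin k (Set.range x)).fixingSubgroup, g ∈ (k⟮∏ j, w j⟯).fixingSubgroup ∧
          (∀ t ∈ S, g ∈ (ALG.bracket (k := k) t.1).fixingSubgroup) ∧ g (τ z) ≠ τ z}.Finite := by
  haveI : ExpChar k p := ExpChar.prime Fact.out
  haveI : CharP E p := charP_of_injective_algebraMap (algebraMap k E).injective p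
  obtain ⟨z, hzM, ⟨f, hf⟩, hz⟩ := exists_as_of_index (F := RatFunc k) (E := E) p M hMp
  have hfn : ∀ h : RatFunc k, f ≠ h ^ p - h := by
    intro h hh
    rw [hh, map_sub, map_pow] at hf
    have h1 : (z - algebraMap (RatFunc k) E h) ^ p - (z - algebraMap (RatFunc k) E h) = 0 := by
      rw [PX.sub_as, ← hf, sub_self]
    obtain ⟨c, hc, -⟩ := PX.exists_const (k := k) (K := E) p h1
    apply hz
    refine ⟨algebraMap k (RatFunc k) c + h, ?_⟩
    rw [map_add, ← IsScalarTower.algebraMap_apply, ← hc]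
    ring
  obtain ⟨N₀, hN₀⟩ := exists_bound_goodA p f hfn
  refine ⟨z, hzM, N₀, fun ℓ N hℓ hℓp hN hNp hNN => ?_⟩
  obtain ⟨ζ, hζ⟩ : ∃ ζ : k, IsPrimitiveRoot ζ N := by
    haveI : NeZero (N : k) := ⟨ne_zero_of_coprime p hN hNp⟩
    haveI : NeZero N := ⟨hN.ne_zero⟩
    exact HasEnoughRootsOfUnity.exists_primitiveRoot k N
  refine (hN₀ N hNN (Units.mk0 ζ (hζ.ne_zero hN.ne_zero)) hζ).subset ?_
  intro c hc hgd
  apply hc
  intro y w hy hw r hr τ hτ S
  have hP : Transcendental k (∏ j, w j) :=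
    transcendental_P hmn hx (by omega) hN.one_le (by omega) hy hw
  obtain ⟨g, hgF, hgP, hgS, hgz⟩ := exists_D_add hmn hx p hℓ hℓp hN hNp hy hw hr S hP _ hgd
  refine ⟨g, hgF, hgP, hgS, hgz (τ z) ?_⟩
  rw [← map_pow, ← map_sub, ← hf]
  have h3 : τ.comp (IsScalarTower.toAlgHom k (RatFunc k) E) = (ev (∏ j, w j) hP).comp (sb 1 c) := by
    apply ratFunc_hom_ext
    change τ (algebraMap (RatFunc k) E RatFunc.X) = ev (∏ j, w j) hP (sb 1 c RatFunc.X)
    rw [hτ, sb_X, lin, ev_poly, Units.val_one, C_1, one_mul, map_add, aeval_X, aeval_C, add_comm]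
  exact congrArg (fun φ : RatFunc k →ₐ[k] K => φ f) h3

/-- all but finitely many translates -/
theorem main_galois [IsAlgClosed k] [IsAlgClosed K] (hmn : m ≤ n) (hx : IsTranscendenceBasis k x)
    (p : ℕ) [ExpChar k p] [Group.IsSolvable Gal(E/RatFunc k)] :
    ∃ N₀ : ℕ, ∀ (ℓ N : ℕ), 2 ≤ ℓ → Nat.Coprime ℓ p → N.Prime → Nat.Coprime N p → N₀ < N →
      {c : k | ¬ ∀ (y w : Fin m → K), (∀ j, y j ^ ℓ = x (Fin.castLE hmn j)) →
        (∀ j, w j ^ N = 1 + y j) → ∀ r < m,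
        Disj k x r E (algebraMap k K c + ∏ j, w j)}.Finite := by
  classical
  haveI : Finite (Subgroup Gal(E/RatFunc k)) := inferInstance
  -- all layers
  have hlay : ∀ M : {M : Subgroup Gal(E/RatFunc k) // M.Normal ∧ M.index.Prime},
      ∃ z : E, (∀ σ ∈ M.1, σ z = z) ∧ ∃ N₀ : ℕ, ∀ (ℓ N : ℕ), 2 ≤ ℓ → Nat.Coprime ℓ p → N.Prime →
      Nat.Coprime N p → N₀ < N → {c : k | ¬ ∀ (y w : Fin m → K),
        (∀ j, y j ^ ℓ = x (Fin.castLE hmn j)) → (∀ j, w j ^ N = 1 + y j) → ∀ r < m,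
        ∀ τ : E →ₐ[k] K,
        τ (algebraMap (RatFunc k) E RatFunc.X) = algebraMap k K c + ∏ j, w j →
        ∀ S : Finset {t : Fin r → K // ∀ i, t i ∈ ALG.M k x r (0 + 1)},
        ∃ g ∈ (adjoin k (Set.range x)).fixingSubgroup, g ∈ (k⟮∏ j, w j⟯).fixingSubgroup ∧
          (∀ t ∈ S, g ∈ (ALG.bracket (k := k) t.1).fixingSubgroup) ∧
          g (τ z) ≠ τ z}.Finite := by
    rintro ⟨M, hM, hMp⟩
    by_cases hcop : Nat.Coprime M.index p
    · obtain ⟨z, hz, h⟩ := layer_mul hmn hx p M hM rfl hMp hcop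
      exact ⟨z, hz, M.index, h⟩
    · have hpM : p = M.index := by
        have h1 : M.index ∣ p := by
          by_contra h
          exact hcop ((Nat.Prime.coprime_iff_not_dvd hMp).2 h)
        rcases ‹ExpChar k p› with _ | hp
        · exact absurd (Nat.coprime_one_right _) hcop
        · exact ((Nat.prime_dvd_prime_iff_eq hMp hp).1 h1).symm
      have hpp : p.Prime := by rw [hpM]; exact hMp
      haveI : Fact p.Prime := ⟨hpp⟩
      haveI : CharP k p := by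
        rcases ‹ExpChar k p› with _ | hp
        · exact absurd rfl hpp.ne_one
        · assumption
      exact layer_add hmn hx p M hM hpM.symm
  choose z hz N₀ hN₀ using hlay
  refine ⟨∑ M, N₀ M, fun ℓ N hℓ hℓp hN hNp hNN => ?_⟩
  have hlt : ∀ M, N₀ M < N := fun M =>
    lt_of_le_of_lt (Finset.single_le_sum (f := N₀) (fun _ _ => Nat.zero_le _)
      (Finset.mem_univ M)) hNN
  have hfin := Set.finite_iUnion (fun M => hN₀ M ℓ N hℓ hℓp hN hNp (hlt M))
  refine hfin.subset ?_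
  intro c hc
  by_contra hcon
  apply hc
  intro y w hy hw r hr τ hτ v hv
  refine main_tau hmn hx p hℓ hN.one_le hy hw hr c τ hτ ?_ hv
  intro M hM hMp
  refine ⟨z ⟨M, hM, hMp⟩, hz ⟨M, hM, hMp⟩, ?_⟩
  have h1 := not_not.1 (fun h => hcon (Set.mem_iUnion.2 ⟨⟨M, hM, hMp⟩, h⟩))
  exact h1 y w hy hw r hr τ hτ

end

end RS
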