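import Mathlib

/-!
Polynomials whose multiplicity function is not invariant under rotation.
-/

set_option linter.style.haveILetI false

namespace RS

open Polynomial

variable {k : Type*} [Field k]

/-- rotation -/
noncomputable def rot (χ : k) (R : k[X]) : k[X] := R.comp (C χ * X)

theorem rot_ne_zero {χ : k} (hχ : χ ≠ 0) {R : k[X]} (hR : R ≠ 0) : rot χ R ≠ 0 := by
  rw [rot, Ne, comp_C_mul_X_eq_zero_iff (mem_nonZeroDivisors_of_ne_zero hχ)]
  exact hR

theorem mult_rot {χ : k} (hχ : χ ≠ 0) (R : k[X]) (a : k) :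
    rootMultiplicity a (rot χ R) = rootMultiplicity (χ * a) R := by
  have := rootMultiplicity_comp_C_mul_X_add_C R χ 0 a (isUnit_iff_ne_zero.2 hχ)
  rwa [C_0, add_zero, add_zero] at this

theorem mult_pow {R : k[X]} (hR : R ≠ 0) (a : k) (n : ℕ) :
    rootMultiplicity a (R ^ n) = n * rootMultiplicity a R := by
  induction n with
  | zero => rw [pow_zero, zero_mul]; exact rootMultiplicity_eq_zero (by simp [IsRoot])
  | succ n ih =>
    rw [pow_succ, rootMultiplicity_mul (mul_ne_zero (pow_ne_zero _ hR) hR), ih]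
    ring

/-- the multiplicity modulo `q` is not invariant under the `N`-th roots of unity -/
def Good (q N : ℕ) (R : k[X]) : Prop := R ≠ 0 ∧ ∃ a ζ : k, ζ ^ N = 1 ∧
  ((rootMultiplicity (ζ * a) R : ℕ) : ZMod q) ≠ ((rootMultiplicity a R : ℕ) : ZMod q)

theorem Good.exists_not_dvd {q N : ℕ} {R : k[X]} (h : Good q N R) :
    ∃ a, ¬ q ∣ rootMultiplicity a R := by
  obtain ⟨-, a, ζ, -, h⟩ := h
  by_contra hcon
  push Not at hcon
  apply h
  rw [(ZMod.natCast_eq_zero_iff _ _).2 (hcon _), (ZMod.natCast_eq_zero_iff _ _).2 (hcon _)]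

/-- the rotated quotient -/
theorem Good.step {q N : ℕ} (hq : q.Prime) (hN : N.Prime) (hqN : q ≠ N) {R : k[X]}
    (h : Good q N R) {χ : k} (hχN : χ ^ N = 1) (hχ1 : χ ≠ 1) :
    Good q N (rot χ R * R ^ (q - 1)) := by
  haveI : Fact q.Prime := ⟨hq⟩
  have hχ0 : χ ≠ 0 := by
    rintro rfl
    rw [zero_pow hN.ne_zero] at hχN
    exact zero_ne_one hχN
  obtain ⟨hR, a₀, ζ, hζ, hne⟩ := h
  have hne0 : rot χ R * R ^ (q - 1) ≠ 0 := mul_ne_zero (rot_ne_zero hχ0 hR) (pow_ne_zero _ hR)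
  -- the new multiplicity
  have hm : ∀ a, ((rootMultiplicity a (rot χ R * R ^ (q - 1)) : ℕ) : ZMod q) =
      ((rootMultiplicity (χ * a) R : ℕ) : ZMod q) - ((rootMultiplicity a R : ℕ) : ZMod q) := by
    intro a
    rw [rootMultiplicity_mul hne0, mult_rot hχ0, mult_pow hR, Nat.cast_add, Nat.cast_mul,
      Nat.cast_sub hq.one_le, ZMod.natCast_self, Nat.cast_one]
    ring
  by_contra hcon
  have hinv : ∀ a ζ : k, ζ ^ N = 1 →
      ((rootMultiplicity (ζ * a) (rot χ R * R ^ (q - 1)) : ℕ) : ZMod q) =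
      ((rootMultiplicity a (rot χ R * R ^ (q - 1)) : ℕ) : ZMod q) := by
    intro a ζ hζ
    by_contra h
    exact hcon ⟨hne0, a, ζ, hζ, h⟩
  set d : ZMod q := ((rootMultiplicity a₀ (rot χ R * R ^ (q - 1)) : ℕ) : ZMod q) with hd
  have hstep : ∀ j : ℕ, ((rootMultiplicity (χ ^ j * a₀) R : ℕ) : ZMod q) =
      ((rootMultiplicity a₀ R : ℕ) : ZMod q) + j * d := by
    intro j
    induction j with
    | zero => simp
    | succ j ih =>
      have h1 := hm (χ ^ j * a₀)
      rw [hinv a₀ (χ ^ j) (by rw [← pow_mul, mul_comm, pow_mul, hχN, one_pow]), ← hd, ih,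
        ← mul_assoc, ← pow_succ'] at h1
      rw [Nat.cast_succ]
      linear_combination -h1
  have hN1 := hstep N
  rw [hχN, one_mul] at hN1
  have hd0 : d = 0 := by
    have h2 : (N : ZMod q) * d = 0 := by linear_combination -hN1
    rcases mul_eq_zero.1 h2 with h | h
    · exfalso
      rw [ZMod.natCast_eq_zero_iff] at h
      exact hqN ((Nat.prime_dvd_prime_iff_eq hq hN).1 h)
    · exact h
  have hprim : IsPrimitiveRoot χ N := by
    have h1 : orderOf χ = N := orderOf_eq_prime (hp := ⟨hN⟩) hχN hχ1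
    rw [← h1]
    exact IsPrimitiveRoot.orderOf χ
  haveI : NeZero N := ⟨hN.ne_zero⟩
  obtain ⟨j, -, hj⟩ := hprim.eq_pow_of_pow_eq_one hζ
  apply hne
  rw [← hj, hstep j, hd0, mul_zero, add_zero]

/-- `1 + X` is good -/
theorem good_one_add_X {q N : ℕ} (hq : q.Prime) {ζ : k} (hζ : ζ ^ N = 1) (hζ1 : ζ ≠ 1) :
    Good q N (1 + X : k[X]) := by
  classical
  have h0 : (1 + X : k[X]) = X - C (-1) := by rw [C_neg, C_1]; ring
  refine ⟨by rw [h0]; exact X_sub_C_ne_zero _, -1, ζ, hζ, ?_⟩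
  rw [h0, rootMultiplicity_X_sub_C_self, rootMultiplicity_X_sub_C, if_neg]
  · rw [Nat.cast_zero, Nat.cast_one]
    haveI : Fact (1 < q) := ⟨hq.one_lt⟩
    exact zero_ne_one
  · intro h
    apply hζ1
    have : ζ * -1 = -1 := h
    linear_combination -this

end RS
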