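import Pool.Agent.H20.RS.Dst

/-!
Rotations of `W` over `dcl d k(x)` and `[u]`.
-/

set_option linter.style.haveILetI false

namespace RS

open Polynomial IntermediateField

variable {k K : Type*} [Field k] [Field K] [Algebra k K]
variable {m n : ℕ} {x : Fin n → K} {y w : Fin m → K} (hmn : m ≤ n) {ℓ N : ℕ}

/-- the independence hypothesis -/
def Indep (k : Type*) [Field k] [Algebra k K] {m n : ℕ} (hmn : m ≤ n) (x : Fin n → K) (ℓ d : ℕ) :
    Prop :=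
  ∀ (Q : Fin m → ℕ) (g h : Fin m → K), (∀ j, Nat.Coprime ℓ (Q j)) →
    (∀ j, h j ∈ dcl d (adjoin k (Set.range x))) → (∀ j, g j ≠ 0) → (∀ j, h j ≠ 0) →
    (∀ j, x (Fin.castLE hmn j) ^ Q j = g j * h j ^ ℓ) → AlgebraicIndependent k g

theorem ac_dcl (hx : IsTranscendenceBasis k x) (d : ℕ) :
    ALG.ac (dcl d (adjoin k (Set.range x))) = ⊤ := by
  rw [eq_top_iff, ← ALG.ac_top_of_basis hx]
  exact ALG.ac_mono (le_dcl d _)

include hmn in
/-- some automorphism over `dcl d k(x)` and `[u]` moves some `y_j` -/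
theorem exists_mover_dcl [IsAlgClosed k] [IsAlgClosed K] (hx : IsTranscendenceBasis k x) (p : ℕ)
    [ExpChar k p] (hℓ : 2 ≤ ℓ) (hℓp : Nat.Coprime ℓ p) (hy : ∀ j, y j ^ ℓ = x (Fin.castLE hmn j))
    {r : ℕ} (hr : r < m) {d : ℕ} (hind : Indep k hmn x ℓ d) (u : Fin r → K)
    (hu : ∀ i, u i ∈ dcl d (adjoin k (Set.range x))) :
    ∃ (j : Fin m) (ν : Gal(K/k)), ν ∈ (dcl d (adjoin k (Set.range x))).fixingSubgroup ∧
      ν ∈ (ALG.bracket (k := k) u).fixingSubgroup ∧ ν (y j) ≠ y j := by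
  by_contra hcon
  push Not at hcon
  set D := dcl d (adjoin k (Set.range x)) with hD
  have hDac : ALG.ac D = ⊤ := ac_dcl hx d
  have hk := fun j => ALG.kummer p D (ALG.bracket (k := k) u) hDac
    (fun σ hσ z hz => ALG.bracket_stable hu hσ hz) (ALG.y_ne_zero hmn hx (by omega) hy j)
    (ℓ := ℓ) (by omega) (by rw [hy]; exact le_dcl d _ (subset_adjoin k _ ⟨_, rfl⟩))
    (fun σ hσF hσu => hcon j σ hσF hσu)
  choose a g h hgF hgu hhF hg0 hh0 heq using hk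
  have hi := hind (fun j => p ^ a j) g h (fun j => Nat.Coprime.pow_right (a j) hℓp) hhF hg0 hh0
    (fun j => by rw [← hy]; exact heq j)
  have h1 := ALG.card_le_of_indep hi u hgu
  rw [Nat.card_eq_fintype_card, Fintype.card_fin] at h1
  omega

include hmn in
/-- an automorphism over `dcl d k(x)` and `[u]` which rotates the product of the `w_j` -/
theorem exists_g_dcl [IsAlgClosed k] [IsAlgClosed K] (hx : IsTranscendenceBasis k x) (p : ℕ)
    [ExpChar k p] (hℓ : 2 ≤ ℓ) (hℓp : Nat.Coprime ℓ p) (hN : N.Prime) (hNp : Nat.Coprime N p)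
    (hy : ∀ j, y j ^ ℓ = x (Fin.castLE hmn j)) (hw : ∀ j, w j ^ N = 1 + y j) {r : ℕ} (hr : r < m)
    {d : ℕ} (hdN : d < N) (hind : Indep k hmn x ℓ d) (u : Fin r → K)
    (hu : ∀ i, u i ∈ dcl d (adjoin k (Set.range x))) :
    ∃ g ∈ (dcl d (adjoin k (Set.range x))).fixingSubgroup,
      g ∈ (ALG.bracket (k := k) u).fixingSubgroup ∧
      ∃ χ : k, χ ^ N = 1 ∧ χ ≠ 1 ∧ g⁻¹ (∏ j, w j) = algebraMap k K χ * ∏ j, w j := by
  classical
  obtain ⟨i, ν, hνD, hνW, hνy⟩ := exists_mover_dcl hmn hx p hℓ hℓp hy hr hind u hu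
  set F := adjoin k (Set.range x) with hF
  have hνF : ν ∈ F.fixingSubgroup := fixingSubgroup_antitone (le_dcl d F) hνD
  obtain ⟨c, hc⟩ := ALG.exists_algebraMap_of_pow (k := k) (a := ν⁻¹ (y i)) (b := y i) ℓ (by omega)
    (by rw [← map_pow, hy, ALG.mem_fs.1 (inv_mem hνF) _ (subset_adjoin k _ ⟨_, rfl⟩)])
  have hc1 : c ≠ 1 := by
    rintro rfl
    apply hνy
    rw [map_one, one_mul] at hc
    have := PX.apply_inv ν (y i)
    rwa [hc] at this
  have hy0 : y i ≠ 0 := ALG.y_ne_zero hmn hx (by omega) hy i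
  have hc0 : c ≠ 0 := by
    rintro rfl
    rw [map_zero, zero_mul] at hc
    exact hy0 ((map_eq_zero (ν⁻¹ : Gal(K/k))).1 hc)
  set Ω := PX.Om k x (Fin.castLE hmn i) with hΩ
  obtain ⟨hR0, hRm⟩ := mult_aux (N := N) hc0 hc1 hN.two_le
  obtain ⟨g, hgΩ, hgy, hgz⟩ := exists_kummer_mover p (q := N) (by omega)
    (fun a => Nat.Coprime.pow_right a hNp) Ω (b := y i)
    (by rw [hΩ, PX.ac_Om]; exact PX.b_notMem_Om hx (hy i)) (PX.Om_top hx (hy i)) _ hR0 _ hRm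
  have hyT : y i ∈ Ω ⊔ k⟮y i⟯ := (le_sup_right : k⟮y i⟯ ≤ _) (mem_adjoin_simple_self k _)
  have hgT : g ∈ (Ω ⊔ k⟮y i⟯).fixingSubgroup := by
    rw [fixingSubgroup_sup, Subgroup.mem_inf]
    exact ⟨hgΩ, ALG.mem_fs_adjoin.2 (by rintro _ rfl; exact hgy)⟩
  have hFT : F ≤ Ω ⊔ k⟮y i⟯ := PX.F_le_Om (hy i)
  have hνT : ∀ z ∈ Ω ⊔ k⟮y i⟯, ν⁻¹ z ∈ Ω ⊔ k⟮y i⟯ := by
    have h1 : Ω ⊔ k⟮y i⟯ ≤ (Ω ⊔ k⟮y i⟯).comap ((ν⁻¹ : Gal(K/k)) : K →ₐ[k] K) := by
      refine sup_le ?_ ?_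
      · intro z hz
        change ν⁻¹ z ∈ Ω ⊔ k⟮y i⟯
        exact (le_sup_left : Ω ≤ _) (PX.Om_stable (inv_mem hνF) hz)
      · rw [adjoin_simple_le_iff]
        change ν⁻¹ (y i) ∈ Ω ⊔ k⟮y i⟯
        rw [hc]
        exact mul_mem (IntermediateField.algebraMap_mem _ _) hyT
    exact fun z hz => h1 hz
  -- a power fixing `u`
  obtain ⟨e, he, heu⟩ := exists_pow_fix_fin hu
  have heN : Nat.Coprime e N := he.coprime hN hdN
  have hgF₀ : g ∈ F.fixingSubgroup := fixingSubgroup_antitone hFT hgT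
  set g₁ := g ^ e with hg₁
  have hg₁T : g₁ ∈ (Ω ⊔ k⟮y i⟯).fixingSubgroup := pow_mem hgT e
  have hg₁F : g₁ ∈ F.fixingSubgroup := pow_mem hgF₀ e
  have hg₁u : g₁ ∈ (adjoin k (Set.range u)).fixingSubgroup := by
    rw [ALG.mem_fs_adjoin]
    rintro _ ⟨j, rfl⟩
    exact heu g hgF₀ j
  have hg₁z : ∀ z : K, z ^ N = aeval (y i) (rot c (1 + X : k[X]) * (1 + X) ^ (N - 1)) →
      g₁ z ≠ z := by
    intro z hz
    refine pow_moves (by omega) heN ?_ (hgz z hz)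
    rw [hz]
    have h1 : aeval (y i) (rot c (1 + X : k[X]) * (1 + X) ^ (N - 1)) ∈ Ω ⊔ k⟮y i⟯ :=
      (le_sup_right : k⟮y i⟯ ≤ _) (ALG.aeval_mem_simple _ _)
    exact ALG.mem_fs.1 hgT _ h1
  have hDT : PX.cm ν g₁ ∈ (Ω ⊔ k⟮y i⟯).fixingSubgroup := PX.cm_right hg₁T hνT
  have hDF : PX.cm ν g₁ ∈ (dcl d F).fixingSubgroup :=
    PX.cm_left hνD (fun z hz => dcl_stable (inv_mem hg₁F) hz)
  have hβ0 : (1 : K) + y i ≠ 0 := by
    have h1 := ALG.one_add_ne_zero hmn hx hy (1 : k) i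
    rwa [map_one, one_mul] at h1
  have hβT : 1 + y i ∈ Ω ⊔ k⟮y i⟯ := add_mem (one_mem _) hyT
  have hDw : PX.cm ν g₁ (w i) ≠ w i := by
    refine comm_step (q := N) (by omega) hβT hβ0 hνT hg₁T (fun z hz => hg₁z z ?_) (hw i)
    rw [hz, map_add, map_one, hc, rot, map_mul, aeval_comp]
    simp
  obtain ⟨a, ha⟩ := ALG.exists_algebraMap_of_pow (k := k) (a := PX.cm ν g₁ (w i)) (b := w i) N
    (by omega) (by rw [← map_pow, hw, ALG.mem_fs.1 hDT _ hβT])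
  have hw0 := w_ne_zero hmn hx hN.one_le hy hw
  have haN : a ^ N = 1 := by
    apply (algebraMap k K).injective
    have h1 : (PX.cm ν g₁ (w i)) ^ N = (w i) ^ N := by
      rw [← map_pow, hw, ALG.mem_fs.1 hDT _ hβT]
    rw [ha, mul_pow] at h1
    rw [map_pow, map_one]
    exact mul_right_cancel₀ (pow_ne_zero N (hw0 i)) (by rw [h1, one_mul])
  have ha1 : a ≠ 1 := by
    rintro rfl
    rw [map_one, one_mul] at ha
    exact hDw ha
  have ha0 : a ≠ 0 := by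
    rintro rfl
    rw [zero_pow hN.ne_zero] at haN
    exact zero_ne_one haN
  have hDP : PX.cm ν g₁ (∏ j, w j) = algebraMap k K a * ∏ j, w j := by
    rw [← Finset.mul_prod_erase _ _ (Finset.mem_univ i), map_mul, ha, map_prod, mul_assoc]
    congr 2
    apply Finset.prod_congr rfl
    intro j hj
    exact ALG.mem_fs.1 hDT _ ((le_sup_left : Ω ≤ _)
      (w_mem_Om hmn (by omega) (by omega) hy hw (Finset.ne_of_mem_erase hj)))
  refine ⟨PX.cm ν g₁, hDF, ?_, a⁻¹, ?_, ?_, ?_⟩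
  · exact PX.cm_left hνW (fun z hz => ALG.bracket_stable (F := adjoin k (Set.range u))
      (fun j => subset_adjoin k _ ⟨j, rfl⟩) (inv_mem hg₁u) hz)
  · rw [inv_pow, haN, inv_one]
  · intro h
    exact ha1 (inv_eq_one.1 h)
  · apply PX.inv_apply_eq
    rw [map_mul, AlgEquiv.commutes, hDP, map_inv₀, inv_mul_cancel_left₀]
    exact (_root_.map_ne_zero _).2 ha0

end RS
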