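import Pool.Agent.H20.RS.AllD
import Pool.Agent.H45.ALG.Fin

/-!
Towers above `MD`: a root of `X ^ 2 ∏ (X - a) = x_i + w_1 ⋯ w_m` lies in no tower of radicals and
equations of degree at most `d` over `MD k x d r`.
-/

set_option linter.style.haveILetI false

namespace RS

open Polynomial IntermediateField

variable {k : Type*} [Field k]

/-- the polynomial `X ^ 2 ∏ (X - a) - T` over `k(T)` -/
noncomputable def fT (s : Finset k) : (RatFunc k)[X] :=
  (ALG.ff s).map (algebraMap k (RatFunc k)) - C RatFunc.X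

theorem fT_monic (s : Finset k) : (fT s).Monic := ALG.GG_monic s RatFunc.X

theorem fT_natDegree (s : Finset k) : (fT s).natDegree = s.card + 2 := ALG.GG_natDegree s RatFunc.X

theorem fT_separable (s : Finset k) (h0 : (0 : k) ∉ s) (hs : s.Nonempty) : (fT s).Separable := by
  set Ω := AlgebraicClosure (RatFunc k)
  have hT : Transcendental k (algebraMap (RatFunc k) Ω RatFunc.X) := by
    rw [transcendental_algebraMap_iff (algebraMap (RatFunc k) Ω).injective]
    exact RatFunc.transcendental_X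
  have h1 := ALG.GG_nodup (K := Ω) s h0 hs hT
  have h2 : (fT s).map (algebraMap (RatFunc k) Ω) =
      ALG.GG s (algebraMap (RatFunc k) Ω RatFunc.X) := by
    rw [fT, ALG.GG, Polynomial.map_sub, Polynomial.map_map, map_C,
      ← IsScalarTower.algebraMap_eq k (RatFunc k) Ω]
  rw [← h2] at h1
  exact (nodup_aroots_iff_of_splits (fT_monic s).ne_zero (IsAlgClosed.splits _)).1 h1

theorem fT_galois (s : Finset k) (h0 : (0 : k) ∉ s) (hs : s.Nonempty) :
    IsGalois (RatFunc k) (fT s).SplittingField :=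
  IsGalois.of_separable_splitting_field (fT_separable s h0 hs)

theorem fT_finrank (s : Finset k) (h0 : (0 : k) ∉ s) (hs : s.Nonempty) :
    Module.finrank (RatFunc k) (fT s).SplittingField ∣ (s.card + 2).factorial := by
  classical
  haveI : Fact (((fT s).map (algebraMap (RatFunc k) (fT s).SplittingField)).Splits) :=
    ⟨SplittingField.splits (fT s)⟩
  rw [← Gal.card_of_separable (fT_separable s h0 hs)]
  have h1 : Nat.card (fT s).Gal ∣
      Nat.card (Equiv.Perm ((fT s).rootSet (fT s).SplittingField)) :=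
    Subgroup.card_dvd_of_injective _ (Gal.galActionHom_injective (fT s) (fT s).SplittingField)
  have h2 : Nat.card ((fT s).rootSet (fT s).SplittingField) = s.card + 2 := by
    rw [Nat.card_eq_fintype_card, card_rootSet_eq_natDegree (fT_separable s h0 hs)
      (SplittingField.splits (fT s)), fT_natDegree]
  rwa [Nat.card_perm, h2] at h1

variable {K : Type*} [Field K] [Algebra k K]
variable {m n : ℕ} {x : Fin n → K} {y w : Fin m → K} (hmn : m ≤ n) {ℓ N : ℕ}

/-- the roots over `K` are the images of the roots in `E` -/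
theorem exists_root_of_mem (s : Finset k) {E : Type*} [Field E] [Algebra k E]
    [Algebra (RatFunc k) E] [IsScalarTower k (RatFunc k) E]
    (hsp : ((fT s).map (algebraMap (RatFunc k) E)).Splits) (τ : E →ₐ[k] K) {t : K}
    (hτ : τ (algebraMap (RatFunc k) E RatFunc.X) = t) {z : K}
    (hz : z ∈ ALG.RR s t) : ∃ v : E, τ v = z := by
  classical
  have h1 : ((fT s).map (algebraMap (RatFunc k) E)).map (τ : E →+* K) = ALG.GG s t := by
    rw [fT, ALG.GG, Polynomial.map_sub, Polynomial.map_sub, Polynomial.map_map, Polynomial.map_map,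
      map_C, map_C]
    congr 2
    · apply RingHom.ext
      intro c
      change τ (algebraMap (RatFunc k) E (algebraMap k (RatFunc k) c)) = _
      rw [← IsScalarTower.algebraMap_apply, AlgHom.commutes]
  have h2 : (ALG.GG s t).roots =
      ((fT s).map (algebraMap (RatFunc k) E)).roots.map (τ : E →+* K) := by
    rw [← h1]
    exact hsp.roots_map (τ : E →+* K)
  have h3 : z ∈ (ALG.GG s t).roots := by
    rw [mem_roots (ALG.GG_monic s t).ne_zero, ALG.GG_isRoot]
    exact hz
  rw [h2, Multiset.mem_map] at h3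
  obtain ⟨v, -, hv⟩ := h3
  exact ⟨v, hv⟩

/-- the permutations of the roots come from automorphisms over `MD` -/
theorem perm_MD [IsAlgClosed k] [IsAlgClosed K] (hx : IsTranscendenceBasis k x) (s : Finset k)
    (h0 : (0 : k) ∉ s) (hs : s.Nonempty) (hsp : (s.card + 2).Prime) {E : Type*} [Field E]
    [Algebra k E] [Algebra (RatFunc k) E] [IsScalarTower k (RatFunc k) E]
    [FiniteDimensional (RatFunc k) E] [IsGalois (RatFunc k) E]
    (hE : ((fT s).map (algebraMap (RatFunc k) E)).Splits) (hℓ : 1 ≤ ℓ) (hN : 1 ≤ N)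
    (hy : ∀ j, y j ^ ℓ = x (Fin.castLE hmn j)) (hw : ∀ j, w j ^ N = 1 + y j) {j₀ j₁ : Fin m}
    (hj : j₁ ≠ j₀) (τ : E →ₐ[k] K) {t : K} (ht : t = x (Fin.castLE hmn j₀) + ∏ j, w j)
    (hτ : τ (algebraMap (RatFunc k) E RatFunc.X) = t)
    {L : IntermediateField k K}
    (hL : ∀ σ : Gal(E/RatFunc k), ∃ g ∈ L.fixingSubgroup, ∀ v, τ (σ v) = g (τ v))
    (g : Equiv.Perm (ALG.RR s t)) :
    ∃ σ ∈ L.fixingSubgroup, ∀ z : ALG.RR s t, σ z = g z := by
  set Ω := PX.Om k x (Fin.castLE hmn j₁) with hΩ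
  have hx0 : x (Fin.castLE hmn j₀) ∈ Ω :=
    PX.x_mem_Om (fun h => hj (Fin.castLE_injective hmn h).symm)
  obtain ⟨hPn, hFP⟩ := P_notMem hmn hx hℓ hN hy hw j₁
  have htn : t ∉ ALG.ac Ω := by
    rw [hΩ, PX.ac_Om]
    intro h
    have h3 := sub_mem h hx0
    rw [ht, add_sub_cancel_left] at h3
    exact hPn h3
  have htop : ALG.ac (Ω ⊔ k⟮t⟯) = ⊤ := by
    rw [eq_top_iff, ← ALG.ac_top_of_basis hx]
    refine ALG.ac_mono (hFP.trans (sup_le le_sup_left ?_))
    rw [adjoin_simple_le_iff]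
    have h1 : t ∈ Ω ⊔ k⟮t⟯ := (le_sup_right : k⟮t⟯ ≤ _) (mem_adjoin_simple_self k _)
    have h2 := sub_mem h1 ((le_sup_left : Ω ≤ Ω ⊔ k⟮t⟯) hx0)
    have h4 : t - x (Fin.castLE hmn j₀) = ∏ j, w j := by rw [ht]; ring
    rwa [h4] at h2
  obtain ⟨σ₀, -, hσt, hσg⟩ := ALG.sym_full Ω htn htop s h0 hsp hs g
  obtain ⟨σ, hσ⟩ := exists_sigma_of_mem τ (P := t) (by rw [hτ]; exact mem_adjoin_simple_self k _)
    (g := σ₀) (by
      rw [ALG.mem_fs_adjoin]
      intro z hz
      rw [Set.mem_singleton_iff] at hz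
      rw [hz, hσt])
  obtain ⟨σ₁, hσ₁, h⟩ := hL σ
  refine ⟨σ₁, hσ₁, fun z => ?_⟩
  obtain ⟨v, hv⟩ := exists_root_of_mem s hE τ hτ z.2
  rw [← hσg z, ← hv, ← h, ← hσ]

/-- SANDWICH: no tower over `MD` contains the root -/
theorem sandwich [IsAlgClosed k] [IsAlgClosed K] (hx : IsTranscendenceBasis k x) {r : ℕ}
    (hr1 : 1 ≤ r) (hr : r < m) (d : ℕ)
    (hind : ∀ ℓ : ℕ, ℓ.Prime → d < ℓ → Indep k hmn x ℓ d) :
    ∃ e : K, e ∈ ALG.M k x 1 3 ∧ e ∈ ALG.M k x m 2 ∧
      ∀ L : IntermediateField k K, ALG.Tower d (MD k x d r) L → e ∉ L := by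
  classical
  obtain ⟨p, hp⟩ := ExpChar.exists k
  -- the degree `q`
  obtain ⟨q, hq1, hq⟩ := Nat.exists_infinite_primes (max d 5 + 1)
  have hdq : d < q := by have := le_max_left d 5; omega
  have hq5 : 5 < q := by have := le_max_right d 5; omega
  obtain ⟨s, hs0, hsc⟩ : ∃ s : Finset k, (0 : k) ∉ s ∧ s.card = q - 2 := by
    have h1 : ({0}ᶜ : Set k).Infinite := (Set.finite_singleton (0 : k)).infinite_compl
    obtain ⟨s, hs1, hs2⟩ := h1.exists_subset_card_eq (q - 2)
    exact ⟨s, fun h => hs1 h rfl, hs2⟩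
  have hs : s.Nonempty := by rw [← Finset.card_pos, hsc]; omega
  have hsq : s.card + 2 = q := by omega
  -- the prime `ℓ = N`
  obtain ⟨N, hN1, hN⟩ := Nat.exists_infinite_primes (max q p + 1)
  have hqN : q < N := by have := le_max_left q p; omega
  have hpN : p < N := by have := le_max_right q p; omega
  have hNk : (N : k) ≠ 0 := by
    apply ne_zero_of_coprime p hN
    rcases hp with _ | hp'
    · exact Nat.coprime_one_right _
    · rw [Nat.coprime_primes hN hp']
      omega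
  haveI := fT_galois s hs0 hs
  have hcop : Nat.Coprime (Module.finrank (RatFunc k) (fT s).SplittingField) N := by
    refine Nat.Coprime.coprime_dvd_left (fT_finrank s hs0 hs) ?_
    rw [hsq, Nat.coprime_comm, Nat.Prime.coprime_iff_not_dvd hN]
    intro h
    exact absurd ((hN.dvd_factorial).1 h) (by omega)
  have hyex : ∀ j : Fin m, ∃ y : K, y ^ N = x (Fin.castLE hmn j) := fun j =>
    IsAlgClosed.exists_pow_nat_eq _ hN.pos
  choose y hy using hyex
  have hwex : ∀ j : Fin m, ∃ w : K, w ^ N = 1 + y j := fun j =>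
    IsAlgClosed.exists_pow_nat_eq _ hN.pos
  choose w hw using hwex
  let j₀ : Fin m := ⟨0, by omega⟩
  let j₁ : Fin m := ⟨1, by omega⟩
  have hj : j₁ ≠ j₀ := by
    intro h
    have := congrArg Fin.val h
    simp [j₀, j₁] at this
  obtain ⟨⟨τ, hτ⟩, hall⟩ := main_all (E := (fT s).SplittingField) hmn hx hr1 hr hN.two_le hNk hN
    hNk hcop hcop hy hw j₀
  obtain ⟨-, hmem, -, -⟩ := hall τ hτ
  obtain ⟨hMD, hgrp⟩ := main_MD (E := (fT s).SplittingField) hmn hx hr1 hr hN.two_le hNk hN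
    hNk hcop hcop (by omega : d < N) (hind N hN (by omega)) hy hw j₀ τ hτ
  set t := x (Fin.castLE hmn j₀) + ∏ j, w j with ht
  have htT : t ∈ MD k x d r := by
    rw [← hτ]
    exact (hMD _).2 ⟨RatFunc.X, rfl⟩
  have hperm := perm_MD (w := w) hmn hx s hs0 hs (by rw [hsq]; exact hq)
    (SplittingField.splits (fT s)) hN.one_le hN.one_le hy hw hj τ ht hτ hgrp
  -- the roots
  have htn : t ∉ ALG.ac (PX.Om k x (Fin.castLE hmn j₁)) := by
    rw [PX.ac_Om]
    intro h
    obtain ⟨hPn, -⟩ := P_notMem hmn hx hN.one_le hN.one_le hy hw j₁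
    have hx0 : x (Fin.castLE hmn j₀) ∈ PX.Om k x (Fin.castLE hmn j₁) :=
      PX.x_mem_Om (fun h => hj (Fin.castLE_injective hmn h).symm)
    have h3 := sub_mem h hx0
    rw [ht, add_sub_cancel_left] at h3
    exact hPn h3
  have hcard : Nat.card (ALG.RT s (MD k x d r) t htT) = q := by
    rw [← hsq, ← ALG.sym_card _ htn s hs0 hs]
    rfl
  haveI : Finite (ALG.RT s (MD k x d r) t htT) := ALG.RR_finite s t
  haveI : Fintype (ALG.RT s (MD k x d r) t htT) := Fintype.ofFinite _
  have h5 : 5 ≤ Nat.card (ALG.RT s (MD k x d r) t htT) := by rw [hcard]; omega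
  have halt : alternatingGroup (ALG.RT s (MD k x d r) t htT) ≤
      ((MD k x d r).fixingSubgroup.subgroupOf (MD k x d r).fixingSubgroup).map
        (ALG.piT s (MD k x d r) t htT) := by
    intro g _
    obtain ⟨σ, hσ, hσg⟩ := hperm g
    refine ⟨⟨σ, hσ⟩, Subgroup.mem_subgroupOf.2 hσ, Equiv.ext (fun e => Subtype.ext ?_)⟩
    exact hσg e
  obtain ⟨e⟩ : Nonempty (ALG.RT s (MD k x d r) t htT) :=
    Finite.card_pos_iff.1 (lt_of_lt_of_le (by norm_num) h5)
  obtain ⟨v, hv⟩ := exists_root_of_mem s (SplittingField.splits (fT s)) τ hτ e.2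
  refine ⟨e, ?_, ?_, ?_⟩
  · rw [← hv]
    exact (hmem v).1
  · rw [← hv]
    exact (hmem v).2
  · intro L hL
    have h1 := ALG.tower_keeps s (MD k x d r) t htT d _ le_rfl h5 (by rw [hcard]; exact hdq) halt hL
    exact ALG.notMem_of_alt s (MD k x d r) t htT h5 h1.2 e

end RS
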