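import Mathlib

/-!
Substitutions in `k(X)`; Artin-Schreier classes which are not invariant under rotation.
-/

set_option linter.style.haveILetI false

namespace RS

open Polynomial

variable {k : Type*} [Field k]

/-- two homomorphisms from `k(X)` which agree at `X` are equal -/
theorem ratFunc_hom_ext {L : Type*} [Field L] [Algebra k L] {φ ψ : RatFunc k →ₐ[k] L}
    (h : φ RatFunc.X = ψ RatFunc.X) : φ = ψ := by
  have h1 : φ.comp (IsScalarTower.toAlgHom k k[X] (RatFunc k)) =
      ψ.comp (IsScalarTower.toAlgHom k k[X] (RatFunc k)) := by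
    apply Polynomial.algHom_ext
    change φ (algebraMap k[X] (RatFunc k) X) = ψ (algebraMap k[X] (RatFunc k) X)
    rw [RatFunc.algebraMap_X, h]
  have h2 : ∀ Q : k[X], φ (algebraMap k[X] (RatFunc k) Q) = ψ (algebraMap k[X] (RatFunc k) Q) :=
    fun Q => congrArg (fun f : k[X] →ₐ[k] L => f Q) h1
  apply AlgHom.ext
  intro f
  rw [← RatFunc.num_div_denom f, map_div₀, map_div₀, h2, h2]

/-- evaluation of rational functions at a transcendental element -/
noncomputable def ev {L : Type*} [Field L] [Algebra k L] (t : L) (ht : Transcendental k t) :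
    RatFunc k →ₐ[k] L :=
  RatFunc.liftAlgHom (aeval t) (nonZeroDivisors_le_comap_nonZeroDivisors_of_injective _
    (transcendental_iff_injective.1 ht))

theorem ev_poly {L : Type*} [Field L] [Algebra k L] (t : L) (ht : Transcendental k t) (Q : k[X]) :
    ev t ht (algebraMap k[X] (RatFunc k) Q) = aeval t Q := by
  have h1 := RatFunc.liftAlgHom_apply_div (aeval t : k[X] →ₐ[k] L)
    (nonZeroDivisors_le_comap_nonZeroDivisors_of_injective _ (transcendental_iff_injective.1 ht))
    Q 1
  rwa [map_one, map_one, div_one, div_one] at h1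

theorem ev_X {L : Type*} [Field L] [Algebra k L] (t : L) (ht : Transcendental k t) :
    ev t ht RatFunc.X = t := by
  rw [← RatFunc.algebraMap_X, ev_poly, aeval_X]

/-- the argument of an affine substitution -/
noncomputable def lin (u v : k) : RatFunc k := algebraMap k[X] (RatFunc k) (C u * X + C v)

theorem transcendental_lin {u v : k} (hu : u ≠ 0) : Transcendental k (lin u v) := by
  rw [transcendental_iff]
  intro Q hQ
  have h1 : aeval (lin u v) Q = algebraMap k[X] (RatFunc k) (Q.comp (C u * X + C v)) := by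
    rw [lin, aeval_algebraMap_apply, comp_eq_aeval]
  rw [h1, map_eq_zero_iff _ (RatFunc.algebraMap_injective k)] at hQ
  by_contra hQ0
  have h2 : Q.comp (C u * X + C v) ≠ 0 := by
    intro h
    rcases comp_eq_zero_iff.1 h with h | ⟨-, h⟩
    · exact hQ0 h
    · have h3 := congrArg (fun R : k[X] => R.coeff 1) h
      simp [coeff_X, coeff_C] at h3
      exact hu h3
  exact h2 hQ

/-- the substitution `X ↦ u X + v` -/
noncomputable def sb (u : kˣ) (v : k) : RatFunc k →ₐ[k] RatFunc k :=
  ev (lin (u : k) v) (transcendental_lin u.ne_zero)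

theorem sb_X (u : kˣ) (v : k) : sb u v RatFunc.X = lin (u : k) v := ev_X _ _

theorem sb_poly (u : kˣ) (v : k) (Q : k[X]) :
    sb u v (algebraMap k[X] (RatFunc k) Q) =
      algebraMap k[X] (RatFunc k) (Q.comp (C (u : k) * X + C v)) := by
  rw [sb, ev_poly, lin, aeval_algebraMap_apply, comp_eq_aeval]

theorem sb_sb (u u' : kˣ) (v v' : k) (f : RatFunc k) :
    sb u' v' (sb u v f) = sb (u * u') (u * v' + v) f := by
  have h1 : (sb u' v').comp (sb u v) = sb (u * u') (u * v' + v) := by
    apply ratFunc_hom_ext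
    change sb u' v' (sb u v RatFunc.X) = _
    rw [sb_X, sb_X, lin, sb_poly, lin]
    congr 1
    simp only [add_comp, mul_comp, C_comp, X_comp, Units.val_mul, C_mul, C_add]
    ring
  exact congrArg (fun φ : RatFunc k →ₐ[k] RatFunc k => φ f) h1

/-- the Artin-Schreier map -/
noncomputable def wH (p : ℕ) [Fact p.Prime] [CharP k p] : RatFunc k →+ RatFunc k :=
  haveI : CharP (RatFunc k) p := charP_of_injective_algebraMap (algebraMap k (RatFunc k)).injective p
  { toFun := fun h => h ^ p - h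
    map_zero' := by rw [zero_pow (Fact.out : p.Prime).ne_zero, sub_zero]
    map_add' := fun a b => by rw [add_pow_char]; ring }

theorem wH_apply (p : ℕ) [Fact p.Prime] [CharP k p] (h : RatFunc k) : wH p h = h ^ p - h := rfl

variable (p : ℕ) [Fact p.Prime] [CharP k p]

theorem mem_range_wH {f : RatFunc k} : f ∈ (wH (k := k) p).range ↔ ∃ h, f = h ^ p - h := by
  rw [AddMonoidHom.mem_range]
  exact ⟨fun ⟨h, hh⟩ => ⟨h, hh.symm⟩, fun ⟨h, hh⟩ => ⟨h, hh.symm⟩⟩

theorem sb_mem (u : kˣ) (v : k) {f : RatFunc k} (hf : f ∈ (wH (k := k) p).range) :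
    sb u v f ∈ (wH (k := k) p).range := by
  rw [mem_range_wH] at hf ⊢
  obtain ⟨h, rfl⟩ := hf
  exact ⟨sb u v h, by rw [map_sub, map_pow]⟩

/-- not invariant under rotations, modulo the Artin-Schreier image -/
def GoodA (N : ℕ) (f : RatFunc k) : Prop :=
  ∃ ζ : kˣ, ζ ^ N = 1 ∧ sb ζ 0 f - f ∉ (wH (k := k) p).range

theorem GoodA.congr {N : ℕ} {f g : RatFunc k} (hf : GoodA p N f)
    (h : g - f ∈ (wH (k := k) p).range) : GoodA p N g := by
  obtain ⟨ζ, hζ, hf⟩ := hf
  refine ⟨ζ, hζ, fun hg => hf ?_⟩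
  have h1 := sb_mem p ζ 0 h
  have h2 : sb ζ 0 f - f = (sb ζ 0 g - g) - (sb ζ 0 (g - f)) + (g - f) := by
    rw [map_sub]; ring
  rw [h2]
  exact add_mem (sub_mem hg h1) h

theorem GoodA.notMem {N : ℕ} {f : RatFunc k} (hf : GoodA p N f) : f ∉ (wH (k := k) p).range := by
  obtain ⟨ζ, -, hf⟩ := hf
  exact fun h => hf (sub_mem (sb_mem p ζ 0 h) h)

/-- the rotated difference -/
theorem GoodA.step {N : ℕ} (hN : N.Prime) (hpN : Nat.Coprime N p) {f : RatFunc k}
    (hf : GoodA p N f) {χ : kˣ} (hχN : χ ^ N = 1) (hχ1 : χ ≠ 1) :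
    GoodA p N (sb χ 0 f - f) := by
  by_contra hcon
  have hinv : ∀ ζ : kˣ, ζ ^ N = 1 →
      sb ζ 0 (sb χ 0 f - f) - (sb χ 0 f - f) ∈ (wH (k := k) p).range := by
    intro ζ hζ
    by_contra h
    exact hcon ⟨ζ, hζ, h⟩
  set W := (wH (k := k) p).range with hW
  have hpow : ∀ j : ℕ, (χ ^ j) ^ N = 1 := fun j => by
    rw [← pow_mul, mul_comm, pow_mul, hχN, one_pow]
  have hone : ∀ g : RatFunc k, sb 1 0 g = g := by
    intro g
    have h1 : sb (1 : kˣ) 0 = AlgHom.id k (RatFunc k) := by
      apply ratFunc_hom_ext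
      rw [sb_X, lin]
      simp
    rw [h1]; rfl
  have hsucc : ∀ j : ℕ, sb (χ ^ j) 0 (sb χ 0 f) = sb (χ ^ (j + 1)) 0 f := by
    intro j
    rw [sb_sb, mul_zero, add_zero, ← pow_succ']
  -- `j d` modulo `W`
  have hstep : ∀ j : ℕ, sb (χ ^ j) 0 f - f - j • (sb χ 0 f - f) ∈ W := by
    intro j
    induction j with
    | zero => rw [pow_zero, hone, zero_smul, sub_self, sub_zero]; exact zero_mem W
    | succ j ih =>
      have h1 := hinv (χ ^ j) (hpow j)
      rw [map_sub, hsucc] at h1
      have h2 := add_mem ih h1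
      rw [succ_nsmul]
      convert h2 using 1
      ring
  have hNd : N • (sb χ 0 f - f) ∈ W := by
    have h1 := hstep N
    rw [hχN, hone, sub_self, zero_sub] at h1
    exact (neg_mem_iff).1 h1
  haveI : CharP (RatFunc k) p := charP_of_injective_algebraMap (algebraMap k (RatFunc k)).injective p
  have hd : sb χ 0 f - f ∈ W := by
    obtain ⟨s, t, hst⟩ := Nat.isCoprime_iff_coprime.2 hpN
    have h1 : sb χ 0 f - f = s • (N • (sb χ 0 f - f)) := by
      have h2 : ((s * N + t * p : ℤ) : RatFunc k) * (sb χ 0 f - f) = sb χ 0 f - f := by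
        rw [hst, Int.cast_one, one_mul]
      have h3 : ((s * N + t * p : ℤ) : RatFunc k) = (s : RatFunc k) * (N : RatFunc k) := by
        push_cast
        rw [CharP.cast_eq_zero (RatFunc k) p]
        ring
      rw [h3] at h2
      rw [zsmul_eq_mul, nsmul_eq_mul, ← mul_assoc]
      exact h2.symm
    rw [h1]
    exact W.zsmul_mem hNd s
  obtain ⟨ζ, hζ, hne⟩ := hf
  have hprim : IsPrimitiveRoot (χ : k) N := by
    have hχN' : (χ : k) ^ N = 1 := by rw [← Units.val_pow_eq_pow_val, hχN, Units.val_one]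
    have hχ1' : (χ : k) ≠ 1 := fun h => hχ1 (Units.ext h)
    have h1 : orderOf (χ : k) = N := orderOf_eq_prime (hp := ⟨hN⟩) hχN' hχ1'
    rw [← h1]
    exact IsPrimitiveRoot.orderOf _
  haveI : NeZero N := ⟨hN.ne_zero⟩
  obtain ⟨j, -, hj⟩ := hprim.eq_pow_of_pow_eq_one (ξ := (ζ : k))
    (by rw [← Units.val_pow_eq_pow_val, hζ, Units.val_one])
  have hj' : χ ^ j = ζ := Units.ext (by rw [Units.val_pow_eq_pow_val, hj])
  apply hne
  have h1 := add_mem (hstep j) (W.nsmul_mem hd j)
  rw [sub_add_cancel, hj'] at h1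
  exact h1

end RS
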